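import Mathlib
import Pool.Agent.H116SP.M5

/-! Sum-product for integers with few prime factors, sharp range: definitions.
`cnt`, `Spec`, `Light`, `part`, `free` are helper116's (Pool.Agent.H116SP.Defs). -/

open Finset
open Pool.Agent.H116SP (cnt Spec Light part free)

namespace Pool.Agent.H254R2.SP

/-- A potential: `φ n = n ^ γ` with `Q ^ γ = 2` and `b = (1 - 1 / Q) ^ γ` is the example used. -/
structure Pot (Q : ℕ) (b : ℝ) (φ : ℕ → ℝ) : Prop where
  hQ : 3 ≤ Q
  b0 : 0 ≤ b
  b1 : b < 1
  nonneg : ∀ n, 0 ≤ φ n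
  mono : ∀ m n, m ≤ n → φ m ≤ φ n
  one : ∀ n, 1 ≤ n → 1 ≤ φ n
  drop : ∀ m n, Q * m ≤ n → 2 * φ m ≤ φ n
  geom : ∀ c m n, Q ^ c * m ≤ (Q - 1) ^ c * n → φ m ≤ b ^ c * φ n

/-- The class of `x` modulo `p ^ l` in `X`; its cardinality is `cnt p X l x` (by `rfl`). -/
def cls (p : ℕ) (X : Finset ℕ) (l x : ℕ) : Finset ℕ := X.filter fun y => y ≡ x [MOD p ^ l]

open Classical in
/-- Number of special levels below `l`. -/
noncomputable def cxs (p Q : ℕ) (X : Finset ℕ) (l x : ℕ) : ℕ :=
  ((range l).filter fun i => Spec p Q X i x).card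

/-- Elements of `B` with exponent `v` at `p`. -/
def bfil (p v : ℕ) (B : Finset ℕ) : Finset ℕ := B.filter fun b => b.factorization p = v

open Classical in
/-- Phase 1 weight. -/
noncomputable def rawp (Q : ℕ) : List ℕ → Finset ℕ → Finset ℕ → ℕ → ℕ → ℝ
  | [], _, _, _, _ => 1
  | p :: P, X, B, a, y =>
    (if Spec p Q X (a.factorization p) y then
      ((bfil p (a.factorization p) B).card : ℝ) / B.card else 1) *
    rawp Q P (cls p X (a.factorization p) y) (bfil p (a.factorization p) B) a y

/-- Level `l` of `x` and level `l + α` of `y` are both special. -/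
def Conf (p Q : ℕ) (U V : Finset ℕ) (α x y l : ℕ) : Prop :=
  Spec p Q U l x ∧ Spec p Q V (l + α) y

/-- First conflict. -/
noncomputable def lam (p Q : ℕ) (U V : Finset ℕ) (α x y : ℕ) : ℕ :=
  sInf {l | Conf p Q U V α x y l}

/-- Number of special levels of `x` below the first conflict. -/
noncomputable def cA (p Q : ℕ) (U V : Finset ℕ) (α x y : ℕ) : ℕ :=
  cxs p Q U (lam p Q U V α x y) x

/-- Number of special levels of `y` below the first conflict. -/
noncomputable def cB (p Q : ℕ) (U V : Finset ℕ) (α x y : ℕ) : ℕ :=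
  cxs p Q V (lam p Q U V α x y + α) y

/-- First level with at least `c` and `d` special levels below it. -/
noncomputable def Lst (p Q : ℕ) (U V : Finset ℕ) (α x y c d : ℕ) : ℕ :=
  sInf {l | c ≤ cxs p Q U (l - α) x ∧ d ≤ cxs p Q V l y}

/-- Stopping level. -/
noncomputable def stp (p Q : ℕ) (U V : Finset ℕ) (α x y : ℕ) : ℕ :=
  Lst p Q U V α x y (cA p Q U V α x y) (cB p Q U V α x y)

/-- There are conflicts at all primes of the list (with refinement of the sets after each). -/
def Fail (Q u : ℕ) : List ℕ → Finset ℕ → Finset ℕ → ℕ → ℕ → Prop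
  | [], _, _, _, _ => True
  | p :: P, U, V, x, y =>
    (∃ l, Conf p Q U V (u.factorization p) x y l) ∧
    Fail Q u P (cls p U (stp p Q U V (u.factorization p) x y - u.factorization p) x)
      (cls p V (stp p Q U V (u.factorization p) x y) y) x y

/-- The primes of `J` at which `a` has not the default exponent. -/
def spp (J : Finset ℕ) (dd : ℕ → ℕ) (a : ℕ) : Finset ℕ :=
  J.filter fun p => a.factorization p ≠ dd p

/-- Weight of `a` in the trie of exponent vectors (paid only at the elements of `Z`). -/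
noncomputable def wt (e : ℕ → ℕ → ℤ) : List ℕ → Finset ℕ → Finset ℕ → ℕ → ℝ
  | [], _, _, _ => 1
  | q :: l, B, Z, a =>
    (if q ∈ Z then ((B.filter fun a' => e a' q = e a q).card : ℝ) / B.card else 1) *
    wt e l (B.filter fun a' => e a' q = e a q) Z a

/-- `hA` and `A^h` for sets of natural numbers. -/
def hsum (h : ℕ) (A : Finset ℕ) : Finset ℕ :=
  (Fintype.piFinset fun _ : Fin h => A).image fun t => ∑ i, t i
def hprod (h : ℕ) (A : Finset ℕ) : Finset ℕ :=
  (Fintype.piFinset fun _ : Fin h => A).image fun t => ∏ i, t i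

end Pool.Agent.H254R2.SP
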