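import Mathlib
import Pool.Agent.H254R2.SP.Defs

/-! Basic lemmas on special levels. -/

open Finset
open Pool.Agent.H116SP (cnt Spec Light part free cnt_congr cnt_pos cnt_succ_le cnt_zero modEq_succ
  spec_pow)

namespace Pool.Agent.H254R2.SP

variable {p Q : ℕ} {X : Finset ℕ} {b : ℝ} {φ : ℕ → ℝ}

theorem card_cls (l x : ℕ) : (cls p X l x).card = cnt p X l x := rfl

theorem mem_cls {l x y : ℕ} : y ∈ cls p X l x ↔ y ∈ X ∧ y ≡ x [MOD p ^ l] := mem_filter

theorem self_mem_cls {l x : ℕ} (hx : x ∈ X) : x ∈ cls p X l x := mem_cls.2 ⟨hx, Nat.ModEq.refl _⟩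

theorem cls_subset (l x : ℕ) : cls p X l x ⊆ X := filter_subset _ _

theorem cls_congr {l x y : ℕ} (h : x ≡ y [MOD p ^ l]) : cls p X l x = cls p X l y := by
  ext z
  rw [mem_cls, mem_cls]
  exact ⟨fun h1 => ⟨h1.1, h1.2.trans h⟩, fun h1 => ⟨h1.1, h1.2.trans h.symm⟩⟩

theorem mem_bfil {v a : ℕ} {B : Finset ℕ} : a ∈ bfil p v B ↔ a ∈ B ∧ a.factorization p = v :=
  mem_filter

theorem modEq_of_le {l l' x y : ℕ} (hl : l ≤ l') (h : x ≡ y [MOD p ^ l']) : x ≡ y [MOD p ^ l] :=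
  h.of_dvd (pow_dvd_pow p hl)

theorem cnt_mono {l l' x : ℕ} (hl : l ≤ l') : cnt p X l' x ≤ cnt p X l x :=
  card_le_card fun z hz => by
    rw [mem_filter] at hz ⊢
    exact ⟨hz.1, modEq_of_le hl hz.2⟩

theorem spec_congr {i l x y : ℕ} (hi : i < l) (h : x ≡ y [MOD p ^ l]) :
    Spec p Q X i x ↔ Spec p Q X i y := by
  unfold Spec
  rw [cnt_congr (X := X) (modEq_of_le (l := i) (by omega) h),
    cnt_congr (X := X) (modEq_of_le (l := i + 1) (by omega) h)]

theorem cxs_congr {l x y : ℕ} (h : x ≡ y [MOD p ^ l]) : cxs p Q X l x = cxs p Q X l y := by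
  classical
  unfold cxs
  congr 1
  ext i
  simp only [mem_filter, mem_range]
  constructor
  · rintro ⟨h1, h2⟩; exact ⟨h1, (spec_congr h1 h).1 h2⟩
  · rintro ⟨h1, h2⟩; exact ⟨h1, (spec_congr h1 h).2 h2⟩

theorem cxs_mono {l l' x : ℕ} (h : l ≤ l') : cxs p Q X l x ≤ cxs p Q X l' x := by
  classical
  unfold cxs
  refine card_le_card fun i hi => ?_
  simp only [mem_filter, mem_range] at hi ⊢
  exact ⟨by omega, hi.2⟩

theorem cxs_lt {l l' x : ℕ} (h : l < l') (hs : Spec p Q X l x) :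
    cxs p Q X l x < cxs p Q X l' x := by
  classical
  unfold cxs
  refine card_lt_card ?_
  rw [ssubset_iff_of_subset]
  · refine ⟨l, ?_, ?_⟩
    · simp only [mem_filter, mem_range]; exact ⟨h, hs⟩
    · simp
  · intro i hi
    simp only [mem_filter, mem_range] at hi ⊢
    exact ⟨by omega, hi.2⟩

theorem cxs_inj {l l' x : ℕ} (hs : Spec p Q X l x) (hs' : Spec p Q X l' x)
    (h : cxs p Q X l x = cxs p Q X l' x) : l = l' := by
  rcases lt_trichotomy l l' with h1 | h1 | h1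
  · exact absurd h (cxs_lt h1 hs).ne
  · exact h1
  · exact absurd h.symm (cxs_lt h1 hs').ne

theorem phi_cnt_le (h : Pot Q b φ) (l x : ℕ) :
    φ (cnt p X l x) ≤ b ^ cxs p Q X l x * φ X.card := by
  classical
  apply h.geom
  have h1 := spec_pow (p := p) (Q := Q) (X := X) (x := x) ((range l).filter fun i => Spec p Q X i x)
    (fun i hi => (mem_filter.1 hi).2) l
  have h2 : ((range l).filter fun i => Spec p Q X i x).filter (· < l) =
      (range l).filter fun i => Spec p Q X i x :=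
    filter_true_of_mem fun i hi => mem_range.1 (mem_filter.1 hi).1
  rw [h2] at h1
  exact h1

theorem phi_cnt_le' (h : Pot Q b φ) {l x c : ℕ} (hc : c ≤ cxs p Q X l x) :
    φ (cnt p X l x) ≤ b ^ c * φ X.card :=
  (phi_cnt_le h l x).trans
    (mul_le_mul_of_nonneg_right (pow_le_pow_of_le_one h.b0 h.b1.le hc) (h.nonneg _))

theorem phi_cnt_le_phi (h : Pot Q b φ) (l x : ℕ) : φ (cnt p X l x) ≤ φ X.card :=
  h.mono _ _ (card_le_card (filter_subset _ _))

theorem kap_pos (h : Pot Q b φ) : 0 < (1 - b)⁻¹ := inv_pos.2 (by linarith [h.b1])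

theorem one_le_kap (h : Pot Q b φ) : 1 ≤ (1 - b)⁻¹ :=
  (one_le_inv₀ (by linarith [h.b1])).2 (by linarith [h.b0])

/-- geometric series over distinct indices -/
theorem sum_geom_le (h : Pot Q b φ) {ι : Type*} (S : Finset ι) (c : ι → ℕ)
    (hc : ∀ i ∈ S, ∀ j ∈ S, c i = c j → i = j) : ∑ i ∈ S, b ^ c i ≤ (1 - b)⁻¹ := by
  classical
  have h1 : ∑ i ∈ S, b ^ c i = ∑ k ∈ S.image c, b ^ k := by
    rw [sum_image]
    exact fun i hi j hj hij => hc i hi j hj hij
  rw [h1]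
  rw [← tsum_geometric_of_lt_one h.b0 h.b1]
  exact Summable.sum_le_tsum _ (fun k _ => pow_nonneg h.b0 k)
    (summable_geometric_of_lt_one h.b0 h.b1)

/-- double geometric series over distinct index pairs -/
theorem sum_geom_le2 (h : Pot Q b φ) {ι : Type*} (S : Finset ι) (c d : ι → ℕ)
    (hc : ∀ i ∈ S, ∀ j ∈ S, c i = c j → d i = d j → i = j) :
    ∑ i ∈ S, b ^ c i * b ^ d i ≤ ((1 - b)⁻¹) ^ 2 := by
  classical
  have h1 : ∑ i ∈ S, b ^ c i * b ^ d i = ∑ k ∈ S.image fun i => (c i, d i), b ^ k.1 * b ^ k.2 := by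
    rw [sum_image]
    intro i hi j hj hij
    simp only [Prod.mk.injEq] at hij
    exact hc i hi j hj hij.1 hij.2
  rw [h1]
  have h2 : (S.image fun i => (c i, d i)) ⊆ (S.image c) ×ˢ (S.image d) := by
    intro k hk
    rw [mem_image] at hk
    obtain ⟨i, hi, rfl⟩ := hk
    exact mem_product.2 ⟨mem_image_of_mem _ hi, mem_image_of_mem _ hi⟩
  calc ∑ k ∈ S.image fun i => (c i, d i), b ^ k.1 * b ^ k.2
      ≤ ∑ k ∈ (S.image c) ×ˢ (S.image d), b ^ k.1 * b ^ k.2 :=
        sum_le_sum_of_subset_of_nonneg h2 fun k _ _ =>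
          mul_nonneg (pow_nonneg h.b0 _) (pow_nonneg h.b0 _)
    _ = (∑ i ∈ S.image c, b ^ i) * ∑ j ∈ S.image d, b ^ j := by
        rw [sum_product, sum_mul_sum]
    _ ≤ (1 - b)⁻¹ * (1 - b)⁻¹ := by
        refine mul_le_mul (sum_geom_le h (S.image c) id fun i _ j _ h => h)
          (sum_geom_le h (S.image d) id fun i _ j _ h => h) ?_ (kap_pos h).le
        exact sum_nonneg fun k _ => pow_nonneg h.b0 _
    _ = _ := by ring

end Pool.Agent.H254R2.SP
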