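import Mathlib
import Pool.Agent.H254R2.SP.Basic

/-! B: phase 1 count. -/

open Finset
open Pool.Agent.H116SP (cnt Spec Light part free light_of_not_spec cnt_pos add_eq_modEq)

namespace Pool.Agent.H254R2.SP

/-- sums of rapidly decreasing numbers -/
theorem sum_halving (V : Finset ℕ) (ψ : ℕ → ℝ) (M : ℝ) (h0 : ∀ v ∈ V, 0 ≤ ψ v) (hM0 : 0 ≤ M)
    (hM : ∀ v ∈ V, ψ v ≤ M) (hd : ∀ v ∈ V, ∀ v' ∈ V, v < v' → 2 * ψ v' ≤ ψ v) :
    ∑ v ∈ V, ψ v ≤ 2 * M := by
  induction V using Finset.induction_on_min generalizing M with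
  | empty => simpa using hM0
  | insert a s ha ih =>
    have hna : a ∉ s := fun h => lt_irrefl _ (ha a h)
    rw [sum_insert hna]
    have h1 := ih (ψ a / 2) (fun v hv => h0 v (mem_insert_of_mem hv))
      (by linarith [h0 a (mem_insert_self _ _)])
      (fun v hv => by linarith [hd a (mem_insert_self _ _) v (mem_insert_of_mem hv) (ha v hv)])
      (fun v hv v' hv' h => hd v (mem_insert_of_mem hv) v' (mem_insert_of_mem hv') h)
    have h2 := hM a (mem_insert_self _ _)
    linarith

theorem modEq_sum {p a y s : ℕ} (h : a + y = s) : y ≡ s [MOD p ^ a.factorization p] := by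
  have h1 : p ^ a.factorization p ∣ a := Nat.ordProj_dvd a p
  rw [← h]
  have h2 : 0 + y ≡ a + y [MOD p ^ a.factorization p] :=
    Nat.ModEq.add_right y ((Nat.modEq_zero_iff_dvd).2 h1).symm
  simpa using h2

theorem not_modEq_sum {p a y s : ℕ} (hp : p.Prime) (ha : a ≠ 0) (h : a + y = s) :
    ¬ s ≡ y [MOD p ^ (a.factorization p + 1)] := by
  intro h1
  rw [← h] at h1
  have h2 : a + y ≡ 0 + y [MOD p ^ (a.factorization p + 1)] := by simpa using h1
  have h3 := Nat.ModEq.add_right_cancel' y h2
  exact Nat.pow_succ_factorization_not_dvd ha hp ((Nat.modEq_zero_iff_dvd).1 h3)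

/-- B. Given the sum `s`, few exponent vectors of large weight. -/
theorem phase1_count {Q : ℕ} {b : ℝ} {φ : ℕ → ℝ} (h : Pot Q b φ) (P : List ℕ)
    (hP : ∀ p ∈ P, p.Prime) (X B : Finset ℕ) (s : ℕ) (θ : ℝ) (hθ : 0 < θ)
    (F : Finset (ℕ × ℕ))
    (hF : ∀ z ∈ F, z.1 ∈ B ∧ z.1 ≠ 0 ∧ z.2 ∈ X ∧ z.1 + z.2 = s ∧ θ ≤ rawp Q P X B z.1 z.2) :
    ((F.image fun z => P.map fun p => z.1.factorization p).card : ℝ) * θ ≤
      4 ^ P.length * φ X.card := by
  classical
  induction P generalizing X B θ F with
  | nil =>
    simp only [List.map_nil, List.length_nil, pow_zero, one_mul]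
    rcases F.eq_empty_or_nonempty with rfl | ⟨z, hz⟩
    · simpa using h.nonneg _
    · obtain ⟨-, -, h3, -, h5⟩ := hF z hz
      simp only [rawp] at h5
      have h6 : (F.image fun _ : ℕ × ℕ => ([] : List ℕ)).card ≤ 1 := by
        refine (card_le_card (t := {[]}) ?_).trans (by simp)
        intro w hw
        rw [mem_image] at hw
        obtain ⟨_, _, rfl⟩ := hw
        simp
      have h7 : (1 : ℝ) ≤ φ X.card := h.one _ (card_pos.2 ⟨_, h3⟩)
      have h8 : ((F.image fun _ : ℕ × ℕ => ([] : List ℕ)).card : ℝ) ≤ 1 := by exact_mod_cast h6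
      nlinarith
  | cons p P ih =>
    have hp : p.Prime := hP p (by simp)
    have hP' : ∀ p ∈ P, p.Prime := fun q hq => hP q (by simp [hq])
    set rest : ℕ × ℕ → List ℕ := fun z => P.map fun p => z.1.factorization p with hrest
    set G : ℕ → Finset (ℕ × ℕ) := fun v => F.filter fun z =>
      z.1.factorization p = v ∧ ¬ Spec p Q X v z.2 with hG
    set Bd : ℕ → Finset (ℕ × ℕ) := fun v => F.filter fun z =>
      z.1.factorization p = v ∧ Spec p Q X v z.2 with hBd
    set V : Finset ℕ := F.image fun z => z.1.factorization p with hV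
    -- the classes only depend on `s`
    have hcls : ∀ z ∈ F, cls p X (z.1.factorization p) z.2 = cls p X (z.1.factorization p) s := by
      intro z hz
      exact cls_congr (modEq_sum (hF z hz).2.2.2.1)
    -- step 1
    have hcard : ((F.image fun z => (p :: P).map fun p => z.1.factorization p).card : ℝ) ≤
        ∑ v ∈ V, (((G v).image rest).card : ℝ) + ∑ v ∈ V, (((Bd v).image rest).card : ℝ) := by
      have h1 : (F.image fun z => (p :: P).map fun p => z.1.factorization p) ⊆
          V.biUnion fun v => (((G v).image rest) ∪ ((Bd v).image rest)).image (v :: ·) := by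
        intro w hw
        rw [mem_image] at hw
        obtain ⟨z, hz, rfl⟩ := hw
        rw [mem_biUnion]
        refine ⟨z.1.factorization p, mem_image_of_mem _ hz, ?_⟩
        rw [mem_image]
        refine ⟨rest z, ?_, by simp [hrest]⟩
        rw [mem_union]
        by_cases hs : Spec p Q X (z.1.factorization p) z.2
        · right
          exact mem_image_of_mem _ (by rw [hBd]; exact mem_filter.2 ⟨hz, rfl, hs⟩)
        · left
          exact mem_image_of_mem _ (by rw [hG]; exact mem_filter.2 ⟨hz, rfl, hs⟩)
      have h2 := (card_le_card h1).trans card_biUnion_le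
      have h3 : ∑ v ∈ V, ((((G v).image rest) ∪ ((Bd v).image rest)).image (v :: ·)).card ≤
          ∑ v ∈ V, (((G v).image rest).card + ((Bd v).image rest).card) :=
        sum_le_sum fun v _ => card_image_le.trans (card_union_le _ _)
      rw [← sum_add_distrib]
      exact_mod_cast h2.trans h3
    -- good part
    have hgood : ∀ v ∈ V, (((G v).image rest).card : ℝ) * θ ≤
        4 ^ P.length * (if (G v).Nonempty then φ (cnt p X v s) else 0) := by
      intro v hv
      split_ifs with hne
      · have := ih hP' (cls p X v s) (bfil p v B) θ hθ (G v) (by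
          intro z hz
          rw [hG] at hz
          obtain ⟨hz1, hz2, hz3⟩ := mem_filter.1 hz
          obtain ⟨a1, a2, a3, a4, a5⟩ := hF z hz1
          have hc := hcls z hz1
          refine ⟨mem_bfil.2 ⟨a1, hz2⟩, a2, ?_, a4, ?_⟩
          · rw [← hz2, ← hc]; exact self_mem_cls a3
          · rw [rawp, if_neg (by rw [hz2]; exact hz3), one_mul, hc, hz2] at a5
            exact a5)
        exact this
      · rw [not_nonempty_iff_eq_empty] at hne
        simp [hne]
    -- bad part
    have hbad : ∀ v ∈ V, (((Bd v).image rest).card : ℝ) * θ ≤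
        4 ^ P.length * φ X.card * ((bfil p v B).card / B.card) := by
      intro v hv
      rcases (Bd v).eq_empty_or_nonempty with hne | ⟨z0, hz0⟩
      · rw [hne]
        simp only [image_empty, card_empty, Nat.cast_zero, zero_mul]
        exact mul_nonneg (mul_nonneg (by positivity) (h.nonneg _)) (by positivity)
      · have hz0' : z0 ∈ F ∧ z0.1.factorization p = v ∧ Spec p Q X v z0.2 := by
          rw [hBd] at hz0; exact mem_filter.1 hz0
        have hB1 : 0 < (bfil p v B).card := card_pos.2 ⟨z0.1, mem_bfil.2 ⟨(hF z0 hz0'.1).1, hz0'.2.1⟩⟩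
        have hB2 : 0 < B.card := card_pos.2 ⟨z0.1, (hF z0 hz0'.1).1⟩
        have hρ : (0 : ℝ) < (bfil p v B).card / B.card := by positivity
        have := ih hP' (cls p X v s) (bfil p v B) (θ / ((bfil p v B).card / B.card))
          (div_pos hθ hρ) (Bd v) (by
          intro z hz
          rw [hBd] at hz
          obtain ⟨hz1, hz2, hz3⟩ := mem_filter.1 hz
          obtain ⟨a1, a2, a3, a4, a5⟩ := hF z hz1
          have hc := hcls z hz1
          refine ⟨mem_bfil.2 ⟨a1, hz2⟩, a2, ?_, a4, ?_⟩
          · rw [← hz2, ← hc]; exact self_mem_cls a3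
          · rw [rawp, if_pos (by rw [hz2]; exact hz3), hc, hz2] at a5
            rw [div_le_iff₀ hρ, mul_comm]
            exact a5)
        have h9 : φ (cls p X v s).card ≤ φ X.card := phi_cnt_le_phi h v s
        rw [mul_div_assoc'] at this
        rw [div_le_iff₀ hρ] at this
        refine this.trans ?_
        exact mul_le_mul_of_nonneg_right (mul_le_mul_of_nonneg_left h9 (by positivity)) hρ.le
    -- sums
    have hsumgood : ∑ v ∈ V, (if (G v).Nonempty then φ (cnt p X v s) else 0) ≤ 2 * φ X.card := by
      rw [← sum_filter]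
      refine sum_halving _ _ _ (fun v _ => h.nonneg _) (h.nonneg _)
        (fun v _ => phi_cnt_le_phi h v s) ?_
      intro v hv v' hv' hlt
      obtain ⟨z, hz⟩ := (mem_filter.1 hv).2
      rw [hG] at hz
      obtain ⟨hz1, hz2, hz3⟩ := mem_filter.1 hz
      obtain ⟨a1, a2, a3, a4, a5⟩ := hF z hz1
      apply h.drop
      have hl : Light p Q X v s := by
        refine light_of_not_spec (x := z.2) (by have := h.hQ; omega) ?_ ?_ hz3
        · rw [← hz2]; exact (modEq_sum a4).symm
        · rw [← hz2]; exact not_modEq_sum hp a2 a4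
      exact (Nat.mul_le_mul_left _ (cnt_mono (by omega))).trans hl
    have hsumbad : ∑ v ∈ V, ((bfil p v B).card : ℝ) / B.card ≤ 1 := by
      rw [← sum_div]
      rcases Nat.eq_zero_or_pos B.card with h0 | h0
      · simp [h0]
      · rw [div_le_one (by exact_mod_cast h0)]
        have : ∑ v ∈ V, (bfil p v B).card ≤ B.card := by
          rw [← card_biUnion]
          · exact card_le_card (biUnion_subset.2 fun v _ => filter_subset _ _)
          · intro v _ v' _ hvv
            rw [Function.onFun, disjoint_left]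
            intro a ha ha'
            exact hvv ((mem_bfil.1 ha).2.symm.trans (mem_bfil.1 ha').2)
        exact_mod_cast this
    have hg2 : (∑ v ∈ V, (((G v).image rest).card : ℝ)) * θ ≤ 4 ^ P.length * (2 * φ X.card) := by
      rw [sum_mul]
      refine (sum_le_sum hgood).trans ?_
      rw [← mul_sum]
      exact mul_le_mul_of_nonneg_left hsumgood (by positivity)
    have hb2 : (∑ v ∈ V, (((Bd v).image rest).card : ℝ)) * θ ≤ 4 ^ P.length * φ X.card := by
      rw [sum_mul]
      refine (sum_le_sum hbad).trans ?_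
      rw [← mul_sum]
      have := mul_le_mul_of_nonneg_left hsumbad
        (mul_nonneg (by positivity) (h.nonneg X.card) : (0 : ℝ) ≤ 4 ^ P.length * φ X.card)
      linarith
    have hfin := mul_le_mul_of_nonneg_right hcard hθ.le
    have hpos : (0 : ℝ) ≤ 4 ^ P.length * φ X.card := mul_nonneg (by positivity) (h.nonneg _)
    rw [List.length_cons, pow_succ]
    nlinarith

end Pool.Agent.H254R2.SP
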