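import Mathlib
import Pool.Agent.H254R2.SP.Basic

/-! Task C: the walk lemma. -/

open Finset
open Pool.Agent.H116SP (cnt Spec Light part free cnt_congr cnt_pos cnt_succ_le cnt_zero modEq_succ
  light_of_not_spec modEq_of_not_spec mul_modEq_iff mul_modEq_of_le add_eq_modEq)

namespace Pool.Agent.H254R2.SP

/-- C. The walk lemma. -/
theorem walk {Q : ℕ} {b : ℝ} {φ : ℕ → ℝ} (h : Pot Q b φ) {p : ℕ} (hp : p.Prime) (u : ℕ)
    (hu : u ≠ 0) (U V : Finset ℕ) (s : ℕ) (F : Finset (ℕ × ℕ)) (L : ℕ × ℕ → ℕ) (M : ℝ)
    (hM : 0 ≤ M) (hF : ∀ z ∈ F, z.1 ∈ U ∧ z.2 ∈ V ∧ u * z.1 + z.2 = s)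
    (h1 : ∀ z ∈ F, ∀ z' ∈ F, L z ≤ L z' → u * z.1 ≡ u * z'.1 [MOD p ^ L z] → L z' = L z)
    (h2 : ∀ z ∈ F, ∀ l, l + u.factorization p < L z →
      ¬ (Spec p Q U l z.1 ∧ Spec p Q V (l + u.factorization p) z.2))
    (h3 : ∀ z ∈ F, ((F.filter fun z' => L z' = L z ∧ u * z'.1 ≡ u * z.1 [MOD p ^ L z]).card : ℝ) ≤
      M * (φ (cnt p U (L z - u.factorization p) z.1) * φ (cnt p V (L z) z.2))) :
    (F.card : ℝ) ≤ M * (φ U.card * φ V.card) := by
  classical
  set α := u.factorization p with hα
  have hQ3 := h.hQ
  have key : ∀ n : ℕ, ∀ l : ℕ, ∀ z ∈ F, l ≤ L z → F.sup L + 1 ≤ n + l →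
      ((F.filter fun z' => l ≤ L z' ∧ u * z'.1 ≡ u * z.1 [MOD p ^ l]).card : ℝ) ≤
        M * (φ (cnt p U (l - α) z.1) * φ (cnt p V l z.2)) := by
    intro n
    induction n with
    | zero =>
      intro l z hz hl hn
      have := le_sup (f := L) hz
      omega
    | succ n ih =>
      intro l z hz hl hn
      rcases Nat.eq_or_lt_of_le hl with heq | hlt
      · -- L z = l
        subst heq
        refine le_trans ?_ (h3 z hz)
        have : (F.filter fun z' => L z ≤ L z' ∧ u * z'.1 ≡ u * z.1 [MOD p ^ L z]) ⊆
            F.filter fun z' => L z' = L z ∧ u * z'.1 ≡ u * z.1 [MOD p ^ L z] := by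
          intro z' hz'
          rw [mem_filter] at hz' ⊢
          exact ⟨hz'.1, h1 z hz z' hz'.1 hz'.2.1 hz'.2.2.symm, hz'.2.2⟩
        exact_mod_cast card_le_card this
      · -- l < L z : every element of the class has larger level
        have hbig : ∀ z' ∈ F, l ≤ L z' → u * z'.1 ≡ u * z.1 [MOD p ^ l] → l < L z' := by
          intro z' hz' hl' hc
          rcases Nat.eq_or_lt_of_le hl' with h4 | h4
          · exfalso
            have := h1 z' hz' z hz (by omega) (by rw [← h4]; exact hc)
            omega
          · exact h4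
        by_cases hall : ∀ z' ∈ F, l ≤ L z' → u * z'.1 ≡ u * z.1 [MOD p ^ l] →
            u * z'.1 ≡ u * z.1 [MOD p ^ (l + 1)]
        · have hsub : (F.filter fun z' => l ≤ L z' ∧ u * z'.1 ≡ u * z.1 [MOD p ^ l]) ⊆
              F.filter fun z' => l + 1 ≤ L z' ∧ u * z'.1 ≡ u * z.1 [MOD p ^ (l + 1)] := by
            intro z' hz'
            rw [mem_filter] at hz' ⊢
            exact ⟨hz'.1, hbig z' hz'.1 hz'.2.1 hz'.2.2, hall z' hz'.1 hz'.2.1 hz'.2.2⟩
          have hc : ((F.filter fun z' => l ≤ L z' ∧ u * z'.1 ≡ u * z.1 [MOD p ^ l]).card : ℝ) ≤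
              (F.filter fun z' => l + 1 ≤ L z' ∧ u * z'.1 ≡ u * z.1 [MOD p ^ (l + 1)]).card := by
            exact_mod_cast card_le_card hsub
          refine hc.trans ((ih (l + 1) z hz hlt (by omega)).trans ?_)
          refine mul_le_mul_of_nonneg_left ?_ hM
          exact mul_le_mul (h.mono _ _ (cnt_mono (by omega))) (h.mono _ _ (cnt_mono (by omega)))
            (h.nonneg _) (h.nonneg _)
        · push Not at hall
          obtain ⟨z1, hz1, hl1, hc1, hn1⟩ := hall
          have hαl : α ≤ l := by
            by_contra hlt'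
            exact hn1 (mul_modEq_of_le (by omega))
          have hl1' : l + 1 - α = (l - α) + 1 := by omega
          -- facts on pairs of elements of the class
          have hU : ∀ w w' : ℕ × ℕ, u * w.1 ≡ u * w'.1 [MOD p ^ l] → w.1 ≡ w'.1 [MOD p ^ (l - α)] :=
            fun w w' hw => (mul_modEq_iff hp hu hαl).1 hw
          have hUn : ∀ w w' : ℕ × ℕ, ¬ u * w.1 ≡ u * w'.1 [MOD p ^ (l + 1)] →
              ¬ w.1 ≡ w'.1 [MOD p ^ ((l - α) + 1)] := by
            intro w w' hw hw'
            rw [← hl1'] at hw'
            exact hw ((mul_modEq_iff hp hu (by omega)).2 hw')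
          have hV : ∀ w ∈ F, ∀ w' ∈ F, u * w.1 ≡ u * w'.1 [MOD p ^ l] →
              w.2 ≡ w'.2 [MOD p ^ l] :=
            fun w hw w' hw' hc => add_eq_modEq (hF w hw).2.2 (hF w' hw').2.2 hc
          have hVn : ∀ w ∈ F, ∀ w' ∈ F, ¬ u * w.1 ≡ u * w'.1 [MOD p ^ (l + 1)] →
              ¬ w.2 ≡ w'.2 [MOD p ^ (l + 1)] := by
            intro w hw w' hw' hc hc'
            apply hc
            have e1 := (hF w hw).2.2
            have e2 := (hF w' hw').2.2
            rw [add_comm] at e1 e2
            exact add_eq_modEq e1 e2 hc'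
          have hns : ∀ w ∈ F, l ≤ L w → u * w.1 ≡ u * z.1 [MOD p ^ l] →
              ¬ Spec p Q U (l - α) w.1 ∨ ¬ Spec p Q V l w.2 := by
            intro w hw hlw hcw
            have h5 := hbig w hw hlw hcw
            have h6 := h2 w hw (l - α) (by omega)
            have h7 : l - α + α = l := by omega
            rw [h7] at h6
            tauto
          -- the two classes
          have two : ∀ a ∈ F, ∀ b' ∈ F, l ≤ L a → l ≤ L b' → u * a.1 ≡ u * z.1 [MOD p ^ l] →
              u * b'.1 ≡ u * z.1 [MOD p ^ l] → ¬ u * a.1 ≡ u * b'.1 [MOD p ^ (l + 1)] →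
              ¬ Spec p Q U (l - α) a.1 → ¬ Spec p Q V l b'.2 →
              ((F.filter fun z' => l ≤ L z' ∧ u * z'.1 ≡ u * z.1 [MOD p ^ l]).card : ℝ) ≤
                M * (φ (cnt p U (l - α) z.1) * φ (cnt p V l z.2)) := by
            intro a ha b' hb hla hlb hca hcb hab hsa hsb
            have hab' : u * a.1 ≡ u * b'.1 [MOD p ^ l] := hca.trans hcb.symm
            have hsub : (F.filter fun z' => l ≤ L z' ∧ u * z'.1 ≡ u * z.1 [MOD p ^ l]) ⊆
                (F.filter fun z' => l + 1 ≤ L z' ∧ u * z'.1 ≡ u * a.1 [MOD p ^ (l + 1)]) ∪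
                (F.filter fun z' => l + 1 ≤ L z' ∧ u * z'.1 ≡ u * b'.1 [MOD p ^ (l + 1)]) := by
              intro w hw
              rw [mem_filter] at hw
              obtain ⟨hwF, hlw, hcw⟩ := hw
              have h5 := hbig w hwF hlw hcw
              rw [mem_union, mem_filter, mem_filter]
              rcases hns w hwF hlw hcw with h6 | h6
              · left
                refine ⟨hwF, h5, ?_⟩
                have h7 : w.1 ≡ a.1 [MOD p ^ ((l - α) + 1)] :=
                  modEq_of_not_spec hQ3 (hF a ha).1 (hU w a (hcw.trans hca.symm)) hsa h6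
                rw [← hl1'] at h7
                exact (mul_modEq_iff hp hu (by omega)).2 h7
              · right
                refine ⟨hwF, h5, ?_⟩
                have h7 : w.2 ≡ b'.2 [MOD p ^ (l + 1)] :=
                  modEq_of_not_spec hQ3 (hF b' hb).2.1 (hV w hwF b' hb (hcw.trans hcb.symm)) hsb h6
                by_contra h8
                exact hVn w hwF b' hb h8 h7
            have hc := (card_le_card hsub).trans (card_union_le _ _)
            have hc' : ((F.filter fun z' => l ≤ L z' ∧ u * z'.1 ≡ u * z.1 [MOD p ^ l]).card : ℝ) ≤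
                (F.filter fun z' => l + 1 ≤ L z' ∧ u * z'.1 ≡ u * a.1 [MOD p ^ (l + 1)]).card +
                (F.filter fun z' => l + 1 ≤ L z' ∧ u * z'.1 ≡ u * b'.1 [MOD p ^ (l + 1)]).card := by
              exact_mod_cast hc
            have iha := ih (l + 1) a ha (hbig a ha hla hca) (by omega)
            have ihb := ih (l + 1) b' hb (hbig b' hb hlb hcb) (by omega)
            -- a is light in V, b' is light in U
            have lightV : Light p Q V l a.2 :=
              light_of_not_spec (by omega) (hV a ha b' hb hab')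
                (hVn a ha b' hb hab) hsb
            have lightU : Light p Q U (l - α) b'.1 :=
              light_of_not_spec (by omega) (hU b' a hab'.symm)
                (hUn b' a fun hh => hab hh.symm) hsa
            have eU : φ (cnt p U (l - α) b'.1) = φ (cnt p U (l - α) z.1) := by
              rw [cnt_congr (hU b' z hcb)]
            have eU' : φ (cnt p U (l - α) a.1) = φ (cnt p U (l - α) z.1) := by
              rw [cnt_congr (hU a z hca)]
            have eV : φ (cnt p V l a.2) = φ (cnt p V l z.2) := by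
              rw [cnt_congr (hV a ha z hz hca)]
            have eV' : φ (cnt p V l b'.2) = φ (cnt p V l z.2) := by
              rw [cnt_congr (hV b' hb z hz hcb)]
            have d1 : 2 * φ (cnt p V (l + 1) a.2) ≤ φ (cnt p V l z.2) := by
              rw [← eV]; exact h.drop _ _ lightV
            have d2 : 2 * φ (cnt p U (l + 1 - α) b'.1) ≤ φ (cnt p U (l - α) z.1) := by
              rw [← eU, hl1']; exact h.drop _ _ lightU
            have d3 : φ (cnt p U (l + 1 - α) a.1) ≤ φ (cnt p U (l - α) z.1) := by
              rw [← eU']; exact h.mono _ _ (cnt_mono (by omega))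
            have d4 : φ (cnt p V (l + 1) b'.2) ≤ φ (cnt p V l z.2) := by
              rw [← eV']; exact h.mono _ _ (cnt_mono (by omega))
            have n1 := h.nonneg (cnt p V (l + 1) a.2)
            have n2 := h.nonneg (cnt p U (l + 1 - α) b'.1)
            have n3 := h.nonneg (cnt p U (l + 1 - α) a.1)
            have n4 := h.nonneg (cnt p V (l + 1) b'.2)
            have n5 := h.nonneg (cnt p U (l - α) z.1)
            have n6 := h.nonneg (cnt p V l z.2)
            have m1 : 2 * (φ (cnt p U (l + 1 - α) a.1) * φ (cnt p V (l + 1) a.2)) ≤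
                φ (cnt p U (l - α) z.1) * φ (cnt p V l z.2) := by
              calc 2 * (φ (cnt p U (l + 1 - α) a.1) * φ (cnt p V (l + 1) a.2))
                  = φ (cnt p U (l + 1 - α) a.1) * (2 * φ (cnt p V (l + 1) a.2)) := by ring
                _ ≤ _ := mul_le_mul d3 d1 (by positivity) n5
            have m2 : 2 * (φ (cnt p U (l + 1 - α) b'.1) * φ (cnt p V (l + 1) b'.2)) ≤
                φ (cnt p U (l - α) z.1) * φ (cnt p V l z.2) := by
              calc 2 * (φ (cnt p U (l + 1 - α) b'.1) * φ (cnt p V (l + 1) b'.2))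
                  = (2 * φ (cnt p U (l + 1 - α) b'.1)) * φ (cnt p V (l + 1) b'.2) := by ring
                _ ≤ _ := mul_le_mul d2 d4 n4 n5
            have m3 := mul_le_mul_of_nonneg_left m1 hM
            have m4 := mul_le_mul_of_nonneg_left m2 hM
            linarith
          -- choose the roles of z and z1
          have hzz : u * z.1 ≡ u * z.1 [MOD p ^ l] := Nat.ModEq.refl _
          have hU1 := hU z1 z hc1
          have hV1 := hV z1 hz1 z hz hc1
          by_cases hA : Spec p Q U (l - α) z.1
          · -- z is special in U, hence z not special in V, z1 must be special in V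
            have hB : ¬ Spec p Q V l z.2 := by
              rcases hns z hz hl hzz with h6 | h6
              · exact absurd hA h6
              · exact h6
            have hA1 : ¬ Spec p Q U (l - α) z1.1 := by
              rcases hns z1 hz1 hl1 hc1 with h6 | h6
              · exact h6
              · exfalso
                exact hVn z1 hz1 z hz hn1 (modEq_of_not_spec hQ3 (hF z hz).2.1 hV1 hB h6)
            exact two z1 hz1 z hz hl1 hl hc1 hzz hn1 hA1 hB
          · have hB1 : ¬ Spec p Q V l z1.2 := by
              rcases hns z1 hz1 hl1 hc1 with h6 | h6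
              · exfalso
                exact hUn z1 z hn1 (modEq_of_not_spec hQ3 (hF z hz).1 hU1 hA h6)
              · exact h6
            exact two z hz z1 hz1 hl hl1 hzz hc1 (fun hh => hn1 hh.symm) hA hB1
  rcases F.eq_empty_or_nonempty with rfl | ⟨z, hz⟩
  · simp only [card_empty, Nat.cast_zero]
    exact mul_nonneg hM (mul_nonneg (h.nonneg _) (h.nonneg _))
  · have h5 := key (F.sup L + 1) 0 z hz (Nat.zero_le _) (by omega)
    have h6 : (F.filter fun z' => 0 ≤ L z' ∧ u * z'.1 ≡ u * z.1 [MOD p ^ 0]) = F := by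
      apply filter_true_of_mem
      intro w _
      refine ⟨Nat.zero_le _, ?_⟩
      rw [pow_zero]
      exact Nat.modEq_one
    rw [h6, Nat.zero_sub, cnt_zero, cnt_zero] at h5
    exact h5

end Pool.Agent.H254R2.SP
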