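import Mathlib
import Pool.Agent.H254R2.SP.C

/-! D. Given `s` and `u`, few non-failing pairs. -/

open Finset
open Pool.Agent.H116SP (cnt Spec Light part free mul_modEq_iff mul_modEq_of_le add_eq_modEq cnt_pos
  cnt_congr)

namespace Pool.Agent.H254R2.SP


/-- the defining property of `Lst` -/
theorem lst_mem {p Q : ℕ} {U V : Finset ℕ} {α x y : ℕ} :
    cA p Q U V α x y ≤ cxs p Q U (lam p Q U V α x y + α - α) x ∧
      cB p Q U V α x y ≤ cxs p Q V (lam p Q U V α x y + α) y := by
  rw [Nat.add_sub_cancel]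
  exact ⟨le_refl _, le_refl _⟩

theorem lst_spec {p Q : ℕ} {U V : Finset ℕ} {α x y c d : ℕ}
    (hc : cA p Q U V α x y = c) (hd : cB p Q U V α x y = d) :
    c ≤ cxs p Q U (Lst p Q U V α x y c d - α) x ∧ d ≤ cxs p Q V (Lst p Q U V α x y c d) y := by
  have h : (lam p Q U V α x y + α) ∈ {l | c ≤ cxs p Q U (l - α) x ∧ d ≤ cxs p Q V l y} := by
    rw [← hc, ← hd]
    exact lst_mem
  exact Nat.sInf_mem (s := {l | c ≤ cxs p Q U (l - α) x ∧ d ≤ cxs p Q V l y}) ⟨_, h⟩

theorem lst_le {p Q : ℕ} {U V : Finset ℕ} {α x y c d : ℕ}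
    (hc : cA p Q U V α x y = c) (hd : cB p Q U V α x y = d) :
    Lst p Q U V α x y c d ≤ lam p Q U V α x y + α := by
  have h : (lam p Q U V α x y + α) ∈ {l | c ≤ cxs p Q U (l - α) x ∧ d ≤ cxs p Q V l y} := by
    rw [← hc, ← hd]
    exact lst_mem
  exact Nat.sInf_le h

theorem modEq_sub {p u x y l : ℕ} (hp : p.Prime) (hu : u ≠ 0) (h : u * x ≡ u * y [MOD p ^ l]) :
    x ≡ y [MOD p ^ (l - u.factorization p)] := by
  rcases le_total (u.factorization p) l with hl | hl
  · exact (mul_modEq_iff hp hu hl).1 h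
  · rw [Nat.sub_eq_zero_of_le hl, pow_zero]
    exact Nat.modEq_one

/-- D. Given `s` and `u`, few non-failing pairs. -/
theorem phase2_count {Q : ℕ} {b : ℝ} {φ : ℕ → ℝ} (h : Pot Q b φ) (P : List ℕ)
    (hP : ∀ p ∈ P, p.Prime) (u : ℕ) (hu : u ≠ 0) (U V : Finset ℕ) (s : ℕ)
    (F : Finset (ℕ × ℕ))
    (hF : ∀ z ∈ F, z.1 ∈ U ∧ z.2 ∈ V ∧ u * z.1 + z.2 = s ∧ ¬ Fail Q u P U V z.1 z.2) :
    (F.card : ℝ) ≤ (1 + (1 - b)⁻¹ ^ 2) ^ P.length * (φ U.card * φ V.card) ^ 2 := by
  classical
  induction P generalizing U V F with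
  | nil =>
    have hF0 : F = ∅ := by
      rw [eq_empty_iff_forall_notMem]
      intro z hz
      exact (hF z hz).2.2.2 trivial
    rw [hF0]
    simp only [card_empty, Nat.cast_zero, List.length_nil, pow_zero, one_mul]
    positivity
  | cons p P ih =>
    rcases F.eq_empty_or_nonempty with hFe | ⟨z0, hz0⟩
    · rw [hFe]
      simp only [card_empty, Nat.cast_zero]
      positivity
    have hp : p.Prime := hP p (by simp)
    have hP' : ∀ p ∈ P, p.Prime := fun q hq => hP q (by simp [hq])
    set α := u.factorization p with hα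
    have hU1 : 1 ≤ φ U.card := h.one _ (card_pos.2 ⟨_, (hF z0 hz0).1⟩)
    have hV1 : 1 ≤ φ V.card := h.one _ (card_pos.2 ⟨_, (hF z0 hz0).2.1⟩)
    have hUV1 : 1 ≤ φ U.card * φ V.card := by nlinarith
    set K2 : ℝ := 1 + (1 - b)⁻¹ ^ 2 with hK2
    have hK21 : 1 ≤ K2 := by rw [hK2]; nlinarith [sq_nonneg ((1 - b)⁻¹)]
    have hK2p : 1 ≤ K2 ^ P.length := one_le_pow₀ hK21
    -- the part without conflicts
    have hF0 : ((F.filter fun z => ¬ ∃ l, Conf p Q U V α z.1 z.2 l).card : ℝ) ≤
        1 * (φ U.card * φ V.card) := by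
      obtain ⟨N, hN⟩ : ∃ N, s < p ^ N := ⟨s, Nat.lt_pow_self hp.one_lt⟩
      refine walk h hp u hu U V s (F.filter fun z => ¬ ∃ l, Conf p Q U V α z.1 z.2 l)
        (fun _ => N) 1 zero_le_one ?_ ?_ ?_ ?_
      · intro z hz
        have hz' := hF z (mem_filter.1 hz).1
        exact ⟨hz'.1, hz'.2.1, hz'.2.2.1⟩
      · intro z _ z' _ _ _
        rfl
      · intro z hz l _ hl
        exact (mem_filter.1 hz).2 ⟨l, hl⟩
      · intro z hz
        have hz' := hF z (mem_filter.1 hz).1
        have h1 : (((F.filter fun z => ¬ ∃ l, Conf p Q U V α z.1 z.2 l).filter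
            fun z' => N = N ∧ u * z'.1 ≡ u * z.1 [MOD p ^ N]).card : ℝ) ≤ 1 := by
          have h2 : ((F.filter fun z => ¬ ∃ l, Conf p Q U V α z.1 z.2 l).filter
            fun z' => N = N ∧ u * z'.1 ≡ u * z.1 [MOD p ^ N]) ⊆ {z} := by
            intro w hw
            obtain ⟨hw1, -, hw2⟩ := mem_filter.1 hw
            have hw' := hF w (mem_filter.1 hw1).1
            have h3 : u * w.1 = u * z.1 := by
              have ha : u * w.1 < p ^ N := by have := hw'.2.2.1; omega
              have hb : u * z.1 < p ^ N := by have := hz'.2.2.1; omega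
              exact Nat.ModEq.eq_of_lt_of_lt hw2 ha hb
            have h4 : w.1 = z.1 := Nat.eq_of_mul_eq_mul_left (Nat.pos_of_ne_zero hu) h3
            have h5 : w.2 = z.2 := by have := hw'.2.2.1; have := hz'.2.2.1; omega
            rw [mem_singleton]
            exact Prod.ext h4 h5
          exact_mod_cast (card_le_card h2).trans (by simp)
        have h3 : 1 ≤ φ (cnt p U (N - α) z.1) := h.one _ (cnt_pos hz'.1)
        have h4 : 1 ≤ φ (cnt p V N z.2) := h.one _ (cnt_pos hz'.2.1)
        rw [one_mul]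
        nlinarith
    -- the part with conflicts
    set F1 := F.filter fun z => ∃ l, Conf p Q U V α z.1 z.2 l with hF1
    have hcd : ∀ c d : ℕ, ((F1.filter fun z => cA p Q U V α z.1 z.2 = c ∧
        cB p Q U V α z.1 z.2 = d).card : ℝ) ≤
        (K2 ^ P.length * (φ U.card * φ V.card) ^ 2) * (b ^ c * b ^ d) := by
      intro c d
      have hkey : ((F1.filter fun z => cA p Q U V α z.1 z.2 = c ∧
        cB p Q U V α z.1 z.2 = d).card : ℝ) ≤
          (K2 ^ P.length * (b ^ c * φ U.card * (b ^ d * φ V.card))) *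
            (φ U.card * φ V.card) := by
        refine walk h hp u hu U V s _ (fun z => Lst p Q U V α z.1 z.2 c d) _ ?_ ?_ ?_ ?_ ?_
        · have := h.b0
          have := h.nonneg U.card
          have := h.nonneg V.card
          positivity
        · intro z hz
          have hz' := hF z (mem_filter.1 (mem_filter.1 hz).1).1
          exact ⟨hz'.1, hz'.2.1, hz'.2.2.1⟩
        · intro z hz z' hz' hle hcong
          obtain ⟨hz1, hzc, hzd⟩ := mem_filter.1 hz
          obtain ⟨hz1', hzc', hzd'⟩ := mem_filter.1 hz'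
          have hzF := hF z (mem_filter.1 hz1).1
          have hzF' := hF z' (mem_filter.1 hz1').1
          have hs := lst_spec hzc hzd
          have hx : z.1 ≡ z'.1 [MOD p ^ (Lst p Q U V α z.1 z.2 c d - α)] :=
            modEq_sub hp hu hcong
          have hy : z.2 ≡ z'.2 [MOD p ^ (Lst p Q U V α z.1 z.2 c d)] :=
            add_eq_modEq hzF.2.2.1 hzF'.2.2.1 hcong
          rw [cxs_congr hx, cxs_congr hy] at hs
          exact le_antisymm (Nat.sInf_le hs) hle
        · intro z hz l hl hconf
          obtain ⟨hz1, hzc, hzd⟩ := mem_filter.1 hz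
          have h1 := lst_le hzc hzd
          have h2 : l < lam p Q U V α z.1 z.2 := by
            have : l + α < Lst p Q U V α z.1 z.2 c d := hl
            omega
          exact Nat.notMem_of_lt_sInf h2 hconf
        · intro z hz
          obtain ⟨hz1, hzc, hzd⟩ := mem_filter.1 hz
          have hzF := hF z (mem_filter.1 hz1).1
          set l := Lst p Q U V α z.1 z.2 c d with hl
          have hs := lst_spec hzc hzd
          rw [← hl] at hs
          have hIH := ih hP' (cls p U (l - α) z.1) (cls p V l z.2)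
            ((F1.filter fun z => cA p Q U V α z.1 z.2 = c ∧ cB p Q U V α z.1 z.2 = d).filter
              fun z' => Lst p Q U V α z'.1 z'.2 c d = l ∧ u * z'.1 ≡ u * z.1 [MOD p ^ l]) ?_
          · refine hIH.trans ?_
            have ha : φ (cls p U (l - α) z.1).card ≤ b ^ c * φ U.card :=
              phi_cnt_le' h hs.1
            have hb : φ (cls p V l z.2).card ≤ b ^ d * φ V.card :=
              phi_cnt_le' h hs.2
            have ha0 := h.nonneg (cls p U (l - α) z.1).card
            have hb0 := h.nonneg (cls p V l z.2).card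
            have h3 : φ (cls p U (l - α) z.1).card * φ (cls p V l z.2).card ≤
                b ^ c * φ U.card * (b ^ d * φ V.card) :=
              mul_le_mul ha hb hb0 (ha0.trans ha)
            have h4 : (φ (cls p U (l - α) z.1).card * φ (cls p V l z.2).card) ^ 2 ≤
                (b ^ c * φ U.card * (b ^ d * φ V.card)) *
                  (φ (cls p U (l - α) z.1).card * φ (cls p V l z.2).card) := by
              rw [sq]
              exact mul_le_mul_of_nonneg_right h3 (mul_nonneg ha0 hb0)
            calc K2 ^ P.length * (φ (cls p U (l - α) z.1).card * φ (cls p V l z.2).card) ^ 2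
                ≤ K2 ^ P.length * ((b ^ c * φ U.card * (b ^ d * φ V.card)) *
                  (φ (cls p U (l - α) z.1).card * φ (cls p V l z.2).card)) :=
                  mul_le_mul_of_nonneg_left h4 (by positivity)
              _ = _ := by
                  rw [card_cls, card_cls]
                  ring
          · intro w hw
            obtain ⟨hw1, hwl, hwc⟩ := mem_filter.1 hw
            obtain ⟨hw2, hwcA, hwcB⟩ := mem_filter.1 hw1
            obtain ⟨hw3, hwconf⟩ := mem_filter.1 hw2
            have hwF := hF w hw3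
            have hx : w.1 ≡ z.1 [MOD p ^ (l - α)] := modEq_sub hp hu hwc
            have hy : w.2 ≡ z.2 [MOD p ^ l] := add_eq_modEq hwF.2.2.1 hzF.2.2.1 hwc
            refine ⟨mem_cls.2 ⟨hwF.1, hx⟩, mem_cls.2 ⟨hwF.2.1, hy⟩, hwF.2.2.1, ?_⟩
            intro hfail
            refine hwF.2.2.2 ⟨hwconf, ?_⟩
            have hstp : stp p Q U V α w.1 w.2 = l := by
              unfold stp
              rw [hwcA, hwcB, hwl]
            rw [← hα, hstp, cls_congr hx, cls_congr hy]
            exact hfail
      refine hkey.trans (le_of_eq ?_)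
      ring
    have hF1c : (F1.card : ℝ) ≤ K2 ^ P.length * (φ U.card * φ V.card) ^ 2 * (1 - b)⁻¹ ^ 2 := by
      have h1 : F1.card = ∑ k ∈ F1.image (fun z => (cA p Q U V α z.1 z.2, cB p Q U V α z.1 z.2)),
          (F1.filter fun z => cA p Q U V α z.1 z.2 = k.1 ∧ cB p Q U V α z.1 z.2 = k.2).card := by
        rw [card_eq_sum_card_image (fun z : ℕ × ℕ =>
          (cA p Q U V α z.1 z.2, cB p Q U V α z.1 z.2)) F1]
        refine sum_congr rfl fun k _ => ?_
        congr 1
        refine filter_congr fun z _ => ?_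
        exact Prod.ext_iff
      rw [h1]
      push_cast
      calc ∑ k ∈ F1.image (fun z => (cA p Q U V α z.1 z.2, cB p Q U V α z.1 z.2)),
          ((F1.filter fun z => cA p Q U V α z.1 z.2 = k.1 ∧
            cB p Q U V α z.1 z.2 = k.2).card : ℝ)
          ≤ ∑ k ∈ F1.image (fun z => (cA p Q U V α z.1 z.2, cB p Q U V α z.1 z.2)),
            (K2 ^ P.length * (φ U.card * φ V.card) ^ 2) * (b ^ k.1 * b ^ k.2) :=
            sum_le_sum fun k _ => hcd k.1 k.2
        _ = (K2 ^ P.length * (φ U.card * φ V.card) ^ 2) *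
            ∑ k ∈ F1.image (fun z => (cA p Q U V α z.1 z.2, cB p Q U V α z.1 z.2)),
              (b ^ k.1 * b ^ k.2) := by rw [mul_sum]
        _ ≤ _ := by
            refine mul_le_mul_of_nonneg_left ?_ (by positivity)
            exact sum_geom_le2 h _ Prod.fst Prod.snd fun i _ j _ h1 h2 => Prod.ext h1 h2
    have hsplit : (F.card : ℝ) =
        F1.card + (F.filter fun z => ¬ ∃ l, Conf p Q U V α z.1 z.2 l).card := by
      rw [hF1]
      exact_mod_cast (card_filter_add_card_filter_not _).symm
    rw [hsplit, List.length_cons, pow_succ]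
    have h5 : φ U.card * φ V.card ≤ K2 ^ P.length * (φ U.card * φ V.card) ^ 2 := by
      have h6 : φ U.card * φ V.card ≤ (φ U.card * φ V.card) ^ 2 := by nlinarith
      calc φ U.card * φ V.card ≤ (φ U.card * φ V.card) ^ 2 := h6
        _ = 1 * (φ U.card * φ V.card) ^ 2 := (one_mul _).symm
        _ ≤ _ := mul_le_mul_of_nonneg_right hK2p (by positivity)
    rw [one_mul] at hF0
    calc (F1.card : ℝ) + ((F.filter fun z => ¬ ∃ l, Conf p Q U V α z.1 z.2 l).card : ℝ)
        ≤ K2 ^ P.length * (φ U.card * φ V.card) ^ 2 * (1 - b)⁻¹ ^ 2 +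
          K2 ^ P.length * (φ U.card * φ V.card) ^ 2 := add_le_add hF1c (hF0.trans h5)
      _ = _ := by rw [hK2]; ring

end Pool.Agent.H254R2.SP
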