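import Mathlib
import Pool.Agent.H254R2.SP.Basic

/-! Task E. The weight is typically large. -/

open Finset
open Pool.Agent.H116SP (cnt Spec Light part free)

namespace Pool.Agent.H254R2.SP

/-- E. The weight is typically large. -/
theorem phase1_typ {Q : ℕ} {b : ℝ} {φ : ℕ → ℝ} (h : Pot Q b φ) (P : List ℕ)
    (X B : Finset ℕ) (y : ℕ) (hy : y ∈ X) :
    ∑ a ∈ B, (rawp Q P X B a y)⁻¹ ≤ (1 + (1 - b)⁻¹) ^ P.length * φ X.card * B.card := by
  classical
  induction P generalizing X B with
  | nil =>
    have h1 : 1 ≤ φ X.card := h.one _ (card_pos.mpr ⟨y, hy⟩)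
    simp only [rawp, inv_one, sum_const, nsmul_eq_mul, mul_one, List.length_nil, pow_zero, one_mul]
    nlinarith [Nat.cast_nonneg (α := ℝ) B.card]
  | cons p P ih =>
    set K := 1 + (1 - b)⁻¹ with hK
    have hK0 : 0 ≤ K := by
      have := kap_pos h
      rw [hK]; linarith
    set r := P.length with hr
    have hKr : 0 ≤ K ^ r := pow_nonneg hK0 r
    have hφ : 0 ≤ φ X.card := h.nonneg _
    have hfib : ∑ a ∈ B, (rawp Q (p :: P) X B a y)⁻¹ =
        ∑ v ∈ B.image (fun a => a.factorization p), ∑ a ∈ bfil p v B,
          (rawp Q (p :: P) X B a y)⁻¹ := by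
      rw [← Finset.sum_fiberwise_of_maps_to (t := B.image (fun a => a.factorization p))
        (g := fun a => a.factorization p) (fun a ha => mem_image_of_mem _ ha)]
      rfl
    rw [hfib]
    have hterm : ∀ v ∈ B.image (fun a => a.factorization p),
        ∑ a ∈ bfil p v B, (rawp Q (p :: P) X B a y)⁻¹ ≤
          (if Spec p Q X v y then K ^ r * φ X.card * B.card * b ^ cxs p Q X v y else 0) +
            K ^ r * φ X.card * (bfil p v B).card := by
      intro v hv
      obtain ⟨a₀, ha₀, hav⟩ := mem_image.mp hv
      have hBv : 0 < (bfil p v B).card := card_pos.mpr ⟨a₀, mem_bfil.mpr ⟨ha₀, hav⟩⟩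
      have hBv' : (0 : ℝ) < (bfil p v B).card := by exact_mod_cast hBv
      have hBpos : (0 : ℝ) < B.card := by
        have : 0 < B.card := card_pos.mpr ⟨a₀, ha₀⟩
        exact_mod_cast this
      have e1 : ∑ a ∈ bfil p v B, (rawp Q (p :: P) X B a y)⁻¹ =
          (if Spec p Q X v y then ((bfil p v B).card : ℝ) / B.card else 1)⁻¹ *
            ∑ a ∈ bfil p v B, (rawp Q P (cls p X v y) (bfil p v B) a y)⁻¹ := by
        rw [mul_sum]
        apply sum_congr rfl
        intro a ha
        have ha2 : a.factorization p = v := (mem_bfil.mp ha).2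
        rw [rawp, ha2, mul_inv]
      rw [e1]
      have h2 := ih (cls p X v y) (bfil p v B) (self_mem_cls hy)
      rw [card_cls] at h2
      split_ifs with hs
      · have h3 := phi_cnt_le (X := X) (p := p) h v y
        have h4 : (((bfil p v B).card : ℝ) / B.card)⁻¹ * ∑ a ∈ bfil p v B,
            (rawp Q P (cls p X v y) (bfil p v B) a y)⁻¹ ≤
            (((bfil p v B).card : ℝ) / B.card)⁻¹ *
              (K ^ r * φ (cnt p X v y) * (bfil p v B).card) :=
          mul_le_mul_of_nonneg_left h2 (by positivity)
        have h5 : (((bfil p v B).card : ℝ) / B.card)⁻¹ *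
              (K ^ r * φ (cnt p X v y) * (bfil p v B).card) =
              K ^ r * φ (cnt p X v y) * B.card := by
          field_simp
        have h6 : K ^ r * φ (cnt p X v y) * B.card ≤
            K ^ r * (b ^ cxs p Q X v y * φ X.card) * B.card := by
          apply mul_le_mul_of_nonneg_right _ hBpos.le
          exact mul_le_mul_of_nonneg_left h3 hKr
        have h7 : 0 ≤ K ^ r * φ X.card * (bfil p v B).card := by positivity
        have h8 : K ^ r * (b ^ cxs p Q X v y * φ X.card) * B.card =
            K ^ r * φ X.card * B.card * b ^ cxs p Q X v y := by ring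
        linarith
      · rw [inv_one, one_mul, zero_add]
        refine h2.trans ?_
        apply mul_le_mul_of_nonneg_right _ hBv'.le
        exact mul_le_mul_of_nonneg_left (phi_cnt_le_phi h v y) hKr
    refine (sum_le_sum hterm).trans ?_
    rw [sum_add_distrib]
    have hA : ∑ v ∈ B.image (fun a => a.factorization p),
        (if Spec p Q X v y then K ^ r * φ X.card * B.card * b ^ cxs p Q X v y else 0) ≤
        K ^ r * φ X.card * B.card * (1 - b)⁻¹ := by
      rw [← sum_filter, ← mul_sum]
      apply mul_le_mul_of_nonneg_left _ (by positivity)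
      apply sum_geom_le h
      intro i hi j hj hij
      exact cxs_inj (mem_filter.mp hi).2 (mem_filter.mp hj).2 hij
    have hB : ∑ v ∈ B.image (fun a => a.factorization p),
        K ^ r * φ X.card * ((bfil p v B).card : ℝ) = K ^ r * φ X.card * B.card := by
      rw [← mul_sum]
      congr 1
      have : B.card = ∑ v ∈ B.image (fun a => a.factorization p), (bfil p v B).card :=
        card_eq_sum_card_fiberwise (fun a ha => mem_image_of_mem _ ha)
      exact_mod_cast this.symm
    rw [hB]
    have e3 : K ^ (p :: P).length = K ^ r * K := by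
      rw [List.length_cons, pow_succ]
    rw [e3]
    have e4 : K ^ r * K * φ X.card * (B.card : ℝ) =
        K ^ r * φ X.card * B.card * (1 - b)⁻¹ + K ^ r * φ X.card * B.card := by
      rw [hK]; ring
    rw [e4]
    linarith

end Pool.Agent.H254R2.SP
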