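import Mathlib
import Pool.Agent.H254R2.SP.Basic

/-! Task F: few exponent vectors fail. -/

open Finset
open Pool.Agent.H116SP (cnt Spec Light part free)

namespace Pool.Agent.H254R2.SP

theorem stp_spec {p Q : ℕ} {U V : Finset ℕ} {α x y : ℕ} :
    cA p Q U V α x y ≤ cxs p Q U (stp p Q U V α x y - α) x ∧
      cB p Q U V α x y ≤ cxs p Q V (stp p Q U V α x y) y := by
  have h1 : (lam p Q U V α x y + α) ∈ {l | cA p Q U V α x y ≤ cxs p Q U (l - α) x ∧
      cB p Q U V α x y ≤ cxs p Q V l y} := by
    constructor
    · rw [Nat.add_sub_cancel]; exact le_refl _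
    · exact le_refl _
  exact Nat.sInf_mem ⟨_, h1⟩

theorem lam_spec {p Q : ℕ} {U V : Finset ℕ} {α x y : ℕ} (h : ∃ l, Conf p Q U V α x y l) :
    Conf p Q U V α x y (lam p Q U V α x y) :=
  Nat.sInf_mem (s := {l | Conf p Q U V α x y l}) h

/-- F. Few exponent vectors fail. -/
theorem phase2_typ {Q : ℕ} {b : ℝ} {φ : ℕ → ℝ} (h : Pot Q b φ) (P : List ℕ)
    (U V : Finset ℕ) (x y : ℕ) (hx : x ∈ U) (hy : y ∈ V) (S : Finset ℕ)
    (hS : ∀ u ∈ S, Fail Q u P U V x y) :
    ((S.image fun u => P.map fun p => u.factorization p).card : ℝ) ≤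
      ((1 - b)⁻¹ ^ 2) ^ P.length * (φ U.card * φ V.card) := by
  classical
  induction P generalizing U V S with
  | nil =>
    have h1 : (S.image fun u => ([] : List ℕ).map fun p => u.factorization p).card ≤ 1 := by
      rw [card_le_one]
      intro a ha b hb
      rw [mem_image] at ha hb
      obtain ⟨_, _, rfl⟩ := ha
      obtain ⟨_, _, rfl⟩ := hb
      rfl
    have h2 : 1 ≤ φ U.card := h.one _ (card_pos.2 ⟨x, hx⟩)
    have h3 : 1 ≤ φ V.card := h.one _ (card_pos.2 ⟨y, hy⟩)
    have h4 : ((S.image fun u => ([] : List ℕ).map fun p => u.factorization p).card : ℝ) ≤ 1 := by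
      exact_mod_cast h1
    simp only [List.length_nil, pow_zero, one_mul]
    nlinarith
  | cons p P ih =>
    set K : ℝ := (1 - b)⁻¹ ^ 2 with hK
    have hK0 : 0 ≤ K := pow_nonneg (kap_pos h).le 2
    let Al := S.image fun u => u.factorization p
    let Sa := fun α => S.filter fun u => u.factorization p = α
    -- union
    have h1 : (S.image fun u => (p :: P).map fun p => u.factorization p) ⊆
        Al.biUnion fun α => ((Sa α).image fun u => P.map fun p => u.factorization p).image
          fun l => α :: l := by
      intro v hv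
      rw [mem_image] at hv
      obtain ⟨u, hu, rfl⟩ := hv
      rw [mem_biUnion]
      refine ⟨u.factorization p, mem_image_of_mem _ hu, ?_⟩
      rw [mem_image]
      refine ⟨P.map fun p => u.factorization p, ?_, rfl⟩
      rw [mem_image]
      exact ⟨u, mem_filter.2 ⟨hu, rfl⟩, rfl⟩
    have h2 : ((S.image fun u => (p :: P).map fun p => u.factorization p).card : ℝ) ≤
        ∑ α ∈ Al, (((Sa α).image fun u => P.map fun p => u.factorization p).card : ℝ) := by
      have h3 := (card_le_card h1).trans card_biUnion_le
      have h4 : ∑ α ∈ Al, (((Sa α).image fun u => P.map fun p => u.factorization p).image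
          fun l => α :: l).card ≤
          ∑ α ∈ Al, ((Sa α).image fun u => P.map fun p => u.factorization p).card :=
        sum_le_sum fun α _ => card_image_le
      exact_mod_cast h3.trans h4
    -- bound for one `α`
    have hconf : ∀ α ∈ Al, Conf p Q U V α x y (lam p Q U V α x y) := by
      intro α hα
      rw [mem_image] at hα
      obtain ⟨u, hu, rfl⟩ := hα
      exact lam_spec (hS u hu).1
    have h5 : ∀ α ∈ Al, (((Sa α).image fun u => P.map fun p => u.factorization p).card : ℝ) ≤
        K ^ P.length * (φ U.card * φ V.card) *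
          (b ^ cA p Q U V α x y * b ^ cB p Q U V α x y) := by
      intro α hα
      have h6 := ih (cls p U (stp p Q U V α x y - α) x) (cls p V (stp p Q U V α x y) y)
        (self_mem_cls hx) (self_mem_cls hy) (Sa α) (by
          intro u hu
          rw [mem_filter] at hu
          obtain ⟨hu1, rfl⟩ := hu
          exact (hS u hu1).2)
      refine h6.trans ?_
      have h7 : φ (cls p U (stp p Q U V α x y - α) x).card ≤
          b ^ cA p Q U V α x y * φ U.card := phi_cnt_le' h stp_spec.1
      have h8 : φ (cls p V (stp p Q U V α x y) y).card ≤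
          b ^ cB p Q U V α x y * φ V.card := phi_cnt_le' h stp_spec.2
      have h9 : φ (cls p U (stp p Q U V α x y - α) x).card * φ (cls p V (stp p Q U V α x y) y).card ≤
          (b ^ cA p Q U V α x y * φ U.card) * (b ^ cB p Q U V α x y * φ V.card) :=
        mul_le_mul h7 h8 (h.nonneg _) (mul_nonneg (pow_nonneg h.b0 _) (h.nonneg _))
      calc K ^ P.length * (φ (cls p U (stp p Q U V α x y - α) x).card *
            φ (cls p V (stp p Q U V α x y) y).card)
          ≤ K ^ P.length * ((b ^ cA p Q U V α x y * φ U.card) *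
            (b ^ cB p Q U V α x y * φ V.card)) :=
            mul_le_mul_of_nonneg_left h9 (pow_nonneg hK0 _)
        _ = _ := by ring
    have h10 : ∑ α ∈ Al, b ^ cA p Q U V α x y * b ^ cB p Q U V α x y ≤ K := by
      apply sum_geom_le2 h
      intro α hα α' hα' hc hd
      have c1 := hconf α hα
      have c2 := hconf α' hα'
      have e1 : lam p Q U V α x y = lam p Q U V α' x y := cxs_inj c1.1 c2.1 hc
      have e2 : lam p Q U V α x y + α = lam p Q U V α' x y + α' := cxs_inj c1.2 c2.2 hd
      omega
    calc ((S.image fun u => (p :: P).map fun p => u.factorization p).card : ℝ)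
        ≤ ∑ α ∈ Al, (((Sa α).image fun u => P.map fun p => u.factorization p).card : ℝ) := h2
      _ ≤ ∑ α ∈ Al, K ^ P.length * (φ U.card * φ V.card) *
          (b ^ cA p Q U V α x y * b ^ cB p Q U V α x y) := sum_le_sum h5
      _ = K ^ P.length * (φ U.card * φ V.card) *
          ∑ α ∈ Al, b ^ cA p Q U V α x y * b ^ cB p Q U V α x y := by rw [mul_sum]
      _ ≤ K ^ P.length * (φ U.card * φ V.card) * K :=
          mul_le_mul_of_nonneg_left h10 (mul_nonneg (pow_nonneg hK0 _)
            (mul_nonneg (h.nonneg _) (h.nonneg _)))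
      _ = K ^ (p :: P).length * (φ U.card * φ V.card) := by
          rw [List.length_cons, pow_succ]
          ring

end Pool.Agent.H254R2.SP
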