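import Mathlib
import Pool.Agent.H254R2.SP.B
import Pool.Agent.H254R2.SP.D
import Pool.Agent.H254R2.SP.E
import Pool.Agent.H254R2.SP.F

/-! G. The sum lemma. -/

open Finset
open Pool.Agent.H116SP (cnt Spec Light part free factorization_part part_mul_free)

namespace Pool.Agent.H254R2.SP

theorem rawp_pos {Q : ℕ} (P : List ℕ) :
    ∀ (X B : Finset ℕ) (a y : ℕ), a ∈ B → 0 < rawp Q P X B a y := by
  induction P with
  | nil => intro X B a y _; simp [rawp]
  | cons p P ih =>
    intro X B a y ha
    rw [rawp]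
    have h1 : a ∈ bfil p (a.factorization p) B := mem_bfil.2 ⟨ha, rfl⟩
    apply mul_pos _ (ih _ _ _ _ h1)
    split_ifs
    · have h2 : 0 < (bfil p (a.factorization p) B).card := card_pos.2 ⟨a, h1⟩
      have h3 : 0 < B.card := card_pos.2 ⟨a, ha⟩
      positivity
    · exact one_pos

theorem part_eq_of_vec {J : Finset ℕ} {dd : ℕ → ℕ} {a a' : ℕ} {S : Finset ℕ}
    (hs : spp J dd a = S) (hs' : spp J dd a' = S)
    (hv : S.toList.map (fun p => a.factorization p) = S.toList.map (fun p => a'.factorization p)) :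
    part J a = part J a' := by
  unfold part
  refine prod_congr rfl fun p hp => ?_
  congr 1
  by_cases h : p ∈ S
  · exact List.map_inj_left.1 hv p (mem_toList.2 h)
  · have h1 : ¬ (p ∈ J ∧ a.factorization p ≠ dd p) := by
      rw [← hs] at h
      simpa [spp] using h
    have h2 : ¬ (p ∈ J ∧ a'.factorization p ≠ dd p) := by
      rw [← hs'] at h
      simpa [spp] using h
    push Not at h1 h2
    rw [h1 hp, h2 hp]

theorem spp_subset (J : Finset ℕ) (dd : ℕ → ℕ) (a : ℕ) : spp J dd a ⊆ J := filter_subset _ _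

/-- `T1` is typical. -/
theorem typ_one {Q : ℕ} {b : ℝ} {φ : ℕ → ℝ} (h : Pot Q b φ) (J A Y : Finset ℕ) (dd : ℕ → ℕ) (k : ℕ)
    (hk : ∀ a ∈ A, (spp J dd a).card ≤ k) (y : ℕ) (hy : y ∈ Y) :
    4 * ((A.filter fun a => ¬ (4 * (1 + (1 - b)⁻¹) ^ k * φ Y.card)⁻¹ ≤
      rawp Q (spp J dd a).toList Y (A.filter fun a' => spp J dd a' = spp J dd a) a y).card : ℝ) ≤
      A.card := by
  classical
  set K : ℝ := 1 + (1 - b)⁻¹ with hK
  have hK1 : 1 ≤ K := by have := one_le_kap h; linarith
  have hφ1 : 1 ≤ φ Y.card := h.one _ (card_pos.2 ⟨y, hy⟩)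
  have hKk : 1 ≤ K ^ k := one_le_pow₀ hK1
  have hKφ : 0 < K ^ k * φ Y.card := by positivity
  set W : ℕ → ℝ := fun a =>
    (rawp Q (spp J dd a).toList Y (A.filter fun a' => spp J dd a' = spp J dd a) a y)⁻¹ with hW
  have hWpos : ∀ a ∈ A, 0 < W a := fun a ha =>
    inv_pos.2 (rawp_pos _ _ _ _ _ (mem_filter.2 ⟨ha, rfl⟩))
  have hup : ∑ a ∈ A, W a ≤ K ^ k * φ Y.card * A.card := by
    rw [← sum_fiberwise_of_maps_to (s := A) (t := A.image (spp J dd)) (g := spp J dd)
      (fun a ha => mem_image_of_mem _ ha) W,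
      card_eq_sum_card_fiberwise (s := A) (f := spp J dd) (t := A.image (spp J dd))
        (fun a ha => mem_image_of_mem _ ha)]
    push_cast
    rw [mul_sum]
    refine sum_le_sum fun S hS => ?_
    have h1 : ∑ a ∈ A.filter (fun a => spp J dd a = S), W a =
        ∑ a ∈ A.filter (fun a => spp J dd a = S),
          (rawp Q S.toList Y (A.filter fun a' => spp J dd a' = S) a y)⁻¹ := by
      refine sum_congr rfl fun a ha => ?_
      rw [mem_filter] at ha
      simp only [hW]
      rw [ha.2]
    rw [h1]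
    refine (phase1_typ h S.toList Y _ y hy).trans ?_
    rw [length_toList, ← hK]
    obtain ⟨a, ha, rfl⟩ := mem_image.1 hS
    have h2 : K ^ (spp J dd a).card ≤ K ^ k := pow_le_pow_right₀ hK1 (hk a ha)
    have h3 : 0 ≤ φ Y.card := h.nonneg _
    gcongr
  have hlow : ((A.filter fun a => ¬ (4 * K ^ k * φ Y.card)⁻¹ ≤
      rawp Q (spp J dd a).toList Y (A.filter fun a' => spp J dd a' = spp J dd a) a y).card : ℝ) *
      (4 * (K ^ k * φ Y.card)) ≤ ∑ a ∈ A, W a := by
    rw [← nsmul_eq_mul, ← sum_const]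
    refine (sum_le_sum fun a ha => ?_).trans
      (sum_le_sum_of_subset_of_nonneg (filter_subset _ _) fun a ha _ => (hWpos a ha).le)
    rw [mem_filter, not_le] at ha
    have h1 := rawp_pos (Q := Q) (spp J dd a).toList Y
      (A.filter fun a' => spp J dd a' = spp J dd a) a y (mem_filter.2 ⟨ha.1, rfl⟩)
    have h2 : (4 * K ^ k * φ Y.card) ≤ W a := by
      simp only [hW]
      rw [le_inv_comm₀ (by positivity) h1]
      exact ha.2.le
    linarith
  have := hlow.trans hup
  have h4 : (4 * ((A.filter fun a => ¬ (4 * K ^ k * φ Y.card)⁻¹ ≤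
      rawp Q (spp J dd a).toList Y (A.filter fun a' => spp J dd a' = spp J dd a) a y).card : ℝ)) *
      (K ^ k * φ Y.card) ≤ A.card * (K ^ k * φ Y.card) := by linarith
  exact le_of_mul_le_mul_right h4 hKφ

/-- `T2` is typical. -/
theorem typ_two {Q : ℕ} {b : ℝ} {φ : ℕ → ℝ} (h : Pot Q b φ) (J A Y : Finset ℕ)
    (hJ : ∀ p ∈ J, p.Prime) (hA : 0 ∉ A) (dd : ℕ → ℕ) (k : ℕ)
    (hk : ∀ a ∈ A, (spp J dd a).card ≤ k) (E : ℝ) (hE : ((A.image (spp J dd)).card : ℝ) ≤ E)
    (hf : ∀ a ∈ A, 4 * (E * ((1 - b)⁻¹ ^ 2) ^ k * (φ A.card * φ Y.card)) ≤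
      ((A.filter fun a' => free J a' = free J a).card : ℝ)) (y : ℕ) (hy : y ∈ Y)
    (F : Finset ℕ) (hF : ∀ a ∈ F, a ∈ A ∧ Fail Q (part J a) (spp J dd a).toList
      (A.image (free J)) Y (free J a) y) :
    4 * (F.card : ℝ) ≤ A.card := by
  classical
  set U := A.image (free J) with hU
  set κ : ℝ := (1 - b)⁻¹ ^ 2 with hκ
  have hκ1 : 1 ≤ κ := one_le_pow₀ (one_le_kap h)
  have hUA : φ U.card ≤ φ A.card := h.mono _ _ card_image_le
  have hφU : 0 ≤ φ U.card := h.nonneg _
  have hφA : 0 ≤ φ A.card := h.nonneg _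
  have hφY : 0 ≤ φ Y.card := h.nonneg _
  rw [card_eq_sum_card_fiberwise (s := F) (f := free J) (t := U)
    (fun a ha => mem_image_of_mem _ (hF a ha).1),
    card_eq_sum_card_fiberwise (s := A) (f := free J) (t := U)
    (fun a ha => mem_image_of_mem _ ha)]
  push_cast
  rw [mul_sum]
  refine sum_le_sum fun x hx => ?_
  obtain ⟨a₀, ha₀, rfl⟩ := mem_image.1 hx
  refine le_trans ?_ (hf a₀ ha₀)
  refine mul_le_mul_of_nonneg_left ?_ (by norm_num)
  rw [card_eq_sum_card_fiberwise (s := F.filter fun a => free J a = free J a₀) (f := spp J dd)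
    (t := A.image (spp J dd))
    (fun a ha => mem_image_of_mem _ (hF a (mem_filter.1 ha).1).1)]
  push_cast
  have hS : ∀ S ∈ A.image (spp J dd),
      ((((F.filter fun a => free J a = free J a₀).filter fun a => spp J dd a = S).card : ℕ) : ℝ) ≤
        κ ^ k * (φ A.card * φ Y.card) := by
    intro S hS
    set G := (F.filter fun a => free J a = free J a₀).filter fun a => spp J dd a = S with hG
    have hGm : ∀ a ∈ G, a ∈ A ∧ Fail Q (part J a) S.toList U Y (free J a₀) y ∧
        free J a = free J a₀ ∧ spp J dd a = S := by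
      intro a ha
      rw [hG, mem_filter, mem_filter] at ha
      obtain ⟨⟨h0, h3⟩, h4⟩ := ha
      obtain ⟨h1, h2⟩ := hF a h0
      rw [h3, h4] at h2
      exact ⟨h1, h2, h3, h4⟩
    have hSJ : S ⊆ J := by
      obtain ⟨a, ha, rfl⟩ := mem_image.1 hS
      exact spp_subset _ _ _
    have h1 := phase2_typ h S.toList U Y (free J a₀) y hx hy (G.image (part J)) (by
      intro u hu
      obtain ⟨a, ha, rfl⟩ := mem_image.1 hu
      exact (hGm a ha).2.1)
    rw [image_image, length_toList] at h1
    have h2 : (G.image ((fun u => S.toList.map fun p => u.factorization p) ∘ part J)).card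
        = G.card := by
      apply card_image_of_injOn
      intro a ha a' ha' haa
      rw [mem_coe] at ha ha'
      have h3 := hGm a ha
      have h4 := hGm a' ha'
      simp only [Function.comp] at haa
      have h5 : S.toList.map (fun p => a.factorization p) =
          S.toList.map (fun p => a'.factorization p) := by
        rw [List.map_inj_left] at haa ⊢
        intro p hp
        have h6 := haa p hp
        have hpJ : p ∈ J := hSJ (mem_toList.1 hp)
        rw [factorization_part hJ, factorization_part hJ, if_pos hpJ, if_pos hpJ] at h6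
        exact h6
      have h6 := part_eq_of_vec h3.2.2.2 h4.2.2.2 h5
      have h7 := part_mul_free (a := a) hJ (fun h0 => hA (h0 ▸ h3.1))
      have h8 := part_mul_free (a := a') hJ (fun h0 => hA (h0 ▸ h4.1))
      rw [← h7, ← h8, h6, h3.2.2.1, h4.2.2.1]
    rw [h2, ← hκ] at h1
    refine h1.trans ?_
    obtain ⟨a, ha, hSa⟩ := mem_image.1 hS
    have h9 : κ ^ S.card ≤ κ ^ k := pow_le_pow_right₀ hκ1 (by rw [← hSa]; exact hk a ha)
    gcongr
  refine (sum_le_sum hS).trans ?_
  rw [sum_const, nsmul_eq_mul]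
  have h10 : 0 ≤ κ ^ k * (φ A.card * φ Y.card) := by positivity
  calc _ ≤ E * (κ ^ k * (φ A.card * φ Y.card)) := mul_le_mul_of_nonneg_right hE h10
    _ = _ := by ring

theorem sum_lemma {Q : ℕ} {b : ℝ} {φ : ℕ → ℝ} (h : Pot Q b φ) (J A Y : Finset ℕ)
    (hJ : ∀ p ∈ J, p.Prime) (hA : 0 ∉ A) (dd : ℕ → ℕ) (k : ℕ)
    (hk : ∀ a ∈ A, (spp J dd a).card ≤ k) (E : ℝ) (hE : ((A.image (spp J dd)).card : ℝ) ≤ E)
    (hf : ∀ a ∈ A, 4 * (E * ((1 - b)⁻¹ ^ 2) ^ k * (φ A.card * φ Y.card)) ≤
      ((A.filter fun a' => free J a' = free J a).card : ℝ)) :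
    (A.card : ℝ) * Y.card ≤ 8 * E * (4 * (1 + (1 - b)⁻¹) * (1 + (1 - b)⁻¹ ^ 2)) ^ k *
      (φ A.card * φ Y.card) ^ 4 * (((A ×ˢ Y).image fun z => z.1 + z.2).card : ℝ) := by
  classical
  have hE0 : 0 ≤ E := le_trans (Nat.cast_nonneg _) hE
  have hφA : 0 ≤ φ A.card := h.nonneg _
  have hφY : 0 ≤ φ Y.card := h.nonneg _
  have hkap := one_le_kap h
  set K : ℝ := 1 + (1 - b)⁻¹ with hK
  set K2 : ℝ := 1 + (1 - b)⁻¹ ^ 2 with hK2
  have hK1 : 1 ≤ K := by linarith
  have hK21 : 1 ≤ K2 := by
    have : 0 ≤ (1 - b)⁻¹ ^ 2 := by positivity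
    linarith
  rcases A.eq_empty_or_nonempty with hAe | hAne
  · rw [hAe, card_empty, Nat.cast_zero, zero_mul]
    rw [hAe, card_empty] at hφA
    positivity
  rcases Y.eq_empty_or_nonempty with hYe | hYne
  · rw [hYe, card_empty, Nat.cast_zero, mul_zero]
    rw [hYe, card_empty] at hφY
    positivity
  have hφA1 : 1 ≤ φ A.card := h.one _ (card_pos.2 hAne)
  have hφY1 : 1 ≤ φ Y.card := h.one _ (card_pos.2 hYne)
  set U := A.image (free J) with hU
  have hUA : φ U.card ≤ φ A.card := h.mono _ _ card_image_le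
  have hφU : 0 ≤ φ U.card := h.nonneg _
  set θ : ℝ := (4 * K ^ k * φ Y.card)⁻¹ with hθ
  have hKk : 1 ≤ K ^ k := one_le_pow₀ hK1
  have hθpos : 0 < θ := inv_pos.2 (by positivity)
  set AS : Finset ℕ → Finset ℕ := fun S => A.filter fun a' => spp J dd a' = S with hAS
  set T1 : ℕ → ℕ → Prop := fun a y => θ ≤ rawp Q (spp J dd a).toList Y (AS (spp J dd a)) a y
    with hT1
  set T2 : ℕ → ℕ → Prop := fun a y =>
    ¬ Fail Q (part J a) (spp J dd a).toList U Y (free J a) y with hT2
  set T := (A ×ˢ Y).filter fun z => T1 z.1 z.2 ∧ T2 z.1 z.2 with hT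
  -- typical pairs
  have hbig : (A.card : ℝ) * Y.card ≤ 2 * T.card := by
    have h1 : ((A ×ˢ Y).filter fun z => ¬ (T1 z.1 z.2 ∧ T2 z.1 z.2)).card + T.card =
        A.card * Y.card := by
      rw [hT, ← card_product, add_comm]
      exact card_filter_add_card_filter_not _
    have h2 : (((A ×ˢ Y).filter fun z => ¬ (T1 z.1 z.2 ∧ T2 z.1 z.2)).card : ℝ) ≤
        (A.card : ℝ) * Y.card / 2 := by
      rw [card_eq_sum_card_fiberwise (s := (A ×ˢ Y).filter fun z => ¬ (T1 z.1 z.2 ∧ T2 z.1 z.2))
        (f := Prod.snd) (t := Y) (fun z hz => (mem_product.1 (mem_filter.1 hz).1).2)]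
      push_cast
      have h3 : ∀ y ∈ Y, ((((A ×ˢ Y).filter fun z => ¬ (T1 z.1 z.2 ∧ T2 z.1 z.2)).filter
          fun z => z.2 = y).card : ℝ) ≤ (A.card : ℝ) / 2 := by
        intro y hy
        have h4 : (((A ×ˢ Y).filter fun z => ¬ (T1 z.1 z.2 ∧ T2 z.1 z.2)).filter
          fun z => z.2 = y).card ≤ ((A.filter fun a => ¬ T1 a y) ∪
            (A.filter fun a => Fail Q (part J a) (spp J dd a).toList U Y (free J a) y)).card := by
          apply card_le_card_of_injOn Prod.fst
          · intro z hz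
            rw [mem_coe, mem_filter, mem_filter, mem_product] at hz
            obtain ⟨⟨⟨hzA, hzY⟩, hz1⟩, hz2⟩ := hz
            subst hz2
            rw [mem_coe, mem_union, mem_filter, mem_filter]
            by_cases hc : T1 z.1 z.2
            · right
              refine ⟨hzA, ?_⟩
              by_contra hc2
              exact hz1 ⟨hc, hc2⟩
            · exact Or.inl ⟨hzA, hc⟩
          · intro z hz z' hz' hzz
            rw [mem_coe, mem_filter] at hz hz'
            exact Prod.ext hzz (hz.2.trans hz'.2.symm)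
        have h5 := typ_one h J A Y dd k hk y hy
        have h6 := typ_two h J A Y hJ hA dd k hk E hE hf y hy
          (A.filter fun a => Fail Q (part J a) (spp J dd a).toList U Y (free J a) y)
          (fun a ha => mem_filter.1 ha)
        have h7 := card_union_le (A.filter fun a => ¬ T1 a y)
            (A.filter fun a => Fail Q (part J a) (spp J dd a).toList U Y (free J a) y)
        have h8 : ((((A ×ˢ Y).filter fun z => ¬ (T1 z.1 z.2 ∧ T2 z.1 z.2)).filter
          fun z => z.2 = y).card : ℝ) ≤ ((A.filter fun a => ¬ T1 a y).card : ℝ) +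
            ((A.filter fun a => Fail Q (part J a) (spp J dd a).toList U Y
              (free J a) y).card : ℝ) := by
          exact_mod_cast h4.trans h7
        have h9 : 4 * ((A.filter fun a => ¬ T1 a y).card : ℝ) ≤ A.card := h5
        linarith
      refine (sum_le_sum h3).trans ?_
      rw [sum_const, nsmul_eq_mul]
      apply le_of_eq
      ring
    have h3 : (((A ×ˢ Y).filter fun z => ¬ (T1 z.1 z.2 ∧ T2 z.1 z.2)).card : ℝ) + T.card =
        A.card * Y.card := by exact_mod_cast h1
    linarith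
  -- few typical pairs with given sum
  set M : ℝ := E * (4 * (4 * K * K2) ^ k * (φ A.card * φ Y.card) ^ 4) with hM
  have hfib : ∀ s ∈ (A ×ˢ Y).image fun z => z.1 + z.2,
      ((T.filter fun z => z.1 + z.2 = s).card : ℝ) ≤ M := by
    intro s _
    rw [card_eq_sum_card_fiberwise (s := T.filter fun z => z.1 + z.2 = s)
      (f := fun z => spp J dd z.1) (t := A.image (spp J dd))
      (fun z hz => mem_image_of_mem _ (mem_product.1 (mem_filter.1 (mem_filter.1 hz).1).1).1)]
    push_cast
    have hS : ∀ S ∈ A.image (spp J dd),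
        (((T.filter fun z => z.1 + z.2 = s).filter fun z => spp J dd z.1 = S).card : ℝ) ≤
          4 * (4 * K * K2) ^ k * (φ A.card * φ Y.card) ^ 4 := by
      intro S hS
      set G := (T.filter fun z => z.1 + z.2 = s).filter fun z => spp J dd z.1 = S with hG
      have hGm : ∀ z ∈ G, z.1 ∈ A ∧ z.2 ∈ Y ∧ z.1 + z.2 = s ∧ spp J dd z.1 = S ∧
          θ ≤ rawp Q S.toList Y (AS S) z.1 z.2 ∧
          ¬ Fail Q (part J z.1) S.toList U Y (free J z.1) z.2 := by
        intro z hz
        rw [hG, mem_filter, mem_filter, hT, mem_filter, mem_product] at hz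
        obtain ⟨⟨⟨⟨h1, h2⟩, h3, h4⟩, h5⟩, h6⟩ := hz
        simp only [hT1] at h3
        simp only [hT2] at h4
        rw [h6] at h3 h4
        exact ⟨h1, h2, h5, h6, h3, h4⟩
      have hSJ : S ⊆ J := by
        obtain ⟨a, ha, rfl⟩ := mem_image.1 hS
        exact spp_subset _ _ _
      have hSk : S.card ≤ k := by
        obtain ⟨a, ha, rfl⟩ := mem_image.1 hS
        exact hk a ha
      have hPS : ∀ p ∈ S.toList, p.Prime := fun p hp => hJ p (hSJ (mem_toList.1 hp))
      have hne0 : ∀ z ∈ G, z.1 ≠ 0 := fun z hz h0 => hA (h0 ▸ (hGm z hz).1)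
      have h1 := phase1_count h S.toList hPS Y (AS S) s θ hθpos G (by
        intro z hz
        obtain ⟨a1, a2, a3, a4, a5, a6⟩ := hGm z hz
        exact ⟨mem_filter.2 ⟨a1, a4⟩, hne0 z hz, a2, a3, a5⟩)
      rw [length_toList] at h1
      set vec : ℕ × ℕ → List ℕ := fun z => S.toList.map fun p => z.1.factorization p with hvec
      have h2 : ∀ v ∈ G.image vec, ((G.filter fun z => vec z = v).card : ℝ) ≤
          K2 ^ k * (φ A.card * φ Y.card) ^ 2 := by
        intro v hv
        obtain ⟨z₀, hz₀, rfl⟩ := mem_image.1 hv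
        set u := part J z₀.1 with hu
        have hu0 : u ≠ 0 := by
          intro h0
          have := part_mul_free (a := z₀.1) hJ (hne0 z₀ hz₀)
          rw [← hu, h0, zero_mul] at this
          exact hne0 z₀ hz₀ this.symm
        have hpart : ∀ z ∈ G.filter (fun z => vec z = vec z₀), part J z.1 = u := by
          intro z hz
          rw [mem_filter] at hz
          exact part_eq_of_vec (hGm z hz.1).2.2.2.1 (hGm z₀ hz₀).2.2.2.1 hz.2
        have h3 := phase2_count h S.toList hPS u hu0 U Y s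
          ((G.filter fun z => vec z = vec z₀).image fun z => (free J z.1, z.2)) (by
            intro w hw
            obtain ⟨z, hz, rfl⟩ := mem_image.1 hw
            have hp := hpart z hz
            rw [mem_filter] at hz
            obtain ⟨a1, a2, a3, a4, a5, a6⟩ := hGm z hz.1
            refine ⟨mem_image_of_mem _ a1, a2, ?_, ?_⟩
            · have := part_mul_free (a := z.1) hJ (hne0 z hz.1)
              rw [hp] at this
              simp only
              rw [this]
              exact a3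
            · rw [hp] at a6
              exact a6)
        rw [length_toList, card_image_of_injOn (by
          intro z hz z' hz' hzz
          rw [mem_coe] at hz hz'
          have hp := hpart z hz
          have hp' := hpart z' hz'
          rw [mem_filter] at hz hz'
          simp only [Prod.mk.injEq] at hzz
          have e1 := part_mul_free (a := z.1) hJ (hne0 z hz.1)
          have e2 := part_mul_free (a := z'.1) hJ (hne0 z' hz'.1)
          refine Prod.ext ?_ hzz.2
          rw [← e1, ← e2, hp, hp', hzz.1])] at h3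
        refine h3.trans ?_
        rw [← hK2]
        have h9 : K2 ^ S.card ≤ K2 ^ k := pow_le_pow_right₀ hK21 hSk
        gcongr
      have h3 : (G.card : ℝ) ≤ ((G.image vec).card : ℝ) * (K2 ^ k * (φ A.card * φ Y.card) ^ 2) := by
        rw [card_eq_sum_card_image vec G]
        push_cast
        refine (sum_le_sum h2).trans ?_
        rw [sum_const, nsmul_eq_mul]
      have h4 : ((G.image vec).card : ℝ) ≤ 4 ^ k * φ Y.card * (4 * K ^ k * φ Y.card) := by
        have h5 : (4 : ℝ) ^ S.card ≤ 4 ^ k := pow_le_pow_right₀ (by norm_num) hSk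
        have h6 : ((G.image vec).card : ℝ) * θ ≤ 4 ^ k * φ Y.card :=
          h1.trans (mul_le_mul_of_nonneg_right h5 hφY)
        have h7 : (4 * K ^ k * φ Y.card) * θ = 1 := by
          rw [hθ]
          exact mul_inv_cancel₀ (by positivity)
        calc ((G.image vec).card : ℝ) = ((G.image vec).card : ℝ) * θ * (4 * K ^ k * φ Y.card) := by
              rw [mul_assoc, mul_comm θ, h7, mul_one]
          _ ≤ _ := mul_le_mul_of_nonneg_right h6 (by positivity)
      refine h3.trans ((mul_le_mul_of_nonneg_right h4 (by positivity)).trans ?_)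
      have h5 : φ Y.card ^ 2 ≤ (φ A.card * φ Y.card) ^ 2 := by
        apply pow_le_pow_left₀ hφY
        nlinarith
      calc 4 ^ k * φ Y.card * (4 * K ^ k * φ Y.card) * (K2 ^ k * (φ A.card * φ Y.card) ^ 2)
          = 4 * (4 * K * K2) ^ k * (φ Y.card ^ 2 * (φ A.card * φ Y.card) ^ 2) := by
            have h8 : (4 * K * K2) ^ k = 4 ^ k * K ^ k * K2 ^ k := by rw [mul_pow, mul_pow]
            rw [h8]; ring
        _ ≤ 4 * (4 * K * K2) ^ k * ((φ A.card * φ Y.card) ^ 2 * (φ A.card * φ Y.card) ^ 2) := by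
            gcongr
        _ = _ := by ring
    refine (sum_le_sum hS).trans ?_
    rw [sum_const, nsmul_eq_mul, hM]
    exact mul_le_mul_of_nonneg_right hE (by positivity)
  have hTc : (T.card : ℝ) ≤ (((A ×ˢ Y).image fun z => z.1 + z.2).card : ℝ) * M := by
    rw [card_eq_sum_card_fiberwise (s := T) (f := fun z => z.1 + z.2)
      (t := (A ×ˢ Y).image fun z => z.1 + z.2)
      (fun z hz => mem_image_of_mem _ (mem_filter.1 hz).1)]
    push_cast
    refine (sum_le_sum hfib).trans ?_
    rw [sum_const, nsmul_eq_mul]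
  calc (A.card : ℝ) * Y.card ≤ 2 * T.card := hbig
    _ ≤ 2 * ((((A ×ˢ Y).image fun z => z.1 + z.2).card : ℝ) * M) := by linarith
    _ = _ := by rw [hM]; ring

end Pool.Agent.H254R2.SP
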