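import Mathlib
import Pool.Agent.H254R2.SP.Basic

/-! H1: the trie of exponent vectors. -/

open Finset
open Pool.Agent.H116SP (cnt Spec Light part free)

namespace Pool.Agent.H254R2.SP

theorem wt_cons (e : ℕ → ℕ → ℤ) (q : ℕ) (l : List ℕ) (B Z : Finset ℕ) (a : ℕ) :
    wt e (q :: l) B Z a =
      (if q ∈ Z then ((B.filter fun a' => e a' q = e a q).card : ℝ) / B.card else 1) *
        wt e l (B.filter fun a' => e a' q = e a q) Z a := rfl

/-- H1b. Positivity. -/
theorem wt_pos (e : ℕ → ℕ → ℤ) (l : List ℕ) (B Z : Finset ℕ) (a : ℕ) (ha : a ∈ B) :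
    0 < wt e l B Z a ∧ wt e l B Z a ≤ 1 := by
  induction l generalizing B with
  | nil => simp [wt]
  | cons q l ih =>
    have ha' : a ∈ B.filter fun a' => e a' q = e a q := mem_filter.2 ⟨ha, rfl⟩
    obtain ⟨h1, h2⟩ := ih _ ha'
    have hc : (0 : ℝ) < (B.filter fun a' => e a' q = e a q).card := by
      exact_mod_cast card_pos.2 ⟨a, ha'⟩
    have hB : (0 : ℝ) < B.card := by exact_mod_cast card_pos.2 ⟨a, ha⟩
    have hle : ((B.filter fun a' => e a' q = e a q).card : ℝ) ≤ B.card := by
      exact_mod_cast card_filter_le _ _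
    rw [wt_cons]
    split_ifs with h
    · refine ⟨by positivity, ?_⟩
      have h3 : ((B.filter fun a' => e a' q = e a q).card : ℝ) / B.card ≤ 1 :=
        (div_le_one hB).2 hle
      exact mul_le_one₀ h3 h1.le h2
    · rw [one_mul]; exact ⟨h1, h2⟩

/-- the cost of one more level -/
theorem ct_cons (e : ℕ → ℕ → ℤ) (q : ℕ) (l : List ℕ) (B Z : Finset ℕ) (a : ℕ) (ha : a ∈ B) :
    - Real.log (wt e (q :: l) B Z a) =
      (if q ∈ Z then Real.log B.card - Real.log (B.filter fun a' => e a' q = e a q).card else 0) +
        - Real.log (wt e l (B.filter fun a' => e a' q = e a q) Z a) := by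
  have ha' : a ∈ B.filter fun a' => e a' q = e a q := mem_filter.2 ⟨ha, rfl⟩
  have h1 := (wt_pos e l _ Z a ha').1
  have hc : (0 : ℝ) < (B.filter fun a' => e a' q = e a q).card := by
    exact_mod_cast card_pos.2 ⟨a, ha'⟩
  have hB : (0 : ℝ) < B.card := by exact_mod_cast card_pos.2 ⟨a, ha⟩
  rw [wt_cons]
  split_ifs with h
  · rw [Real.log_mul (by positivity) h1.ne', Real.log_div hc.ne' hB.ne']
    ring
  · simp

theorem log_sub_nonneg (e : ℕ → ℕ → ℤ) (q : ℕ) (B : Finset ℕ) (a : ℕ) (ha : a ∈ B) :
    0 ≤ Real.log B.card - Real.log (B.filter fun a' => e a' q = e a q).card := by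
  have ha' : a ∈ B.filter fun a' => e a' q = e a q := mem_filter.2 ⟨ha, rfl⟩
  have hc : (0 : ℝ) < (B.filter fun a' => e a' q = e a q).card := by
    exact_mod_cast card_pos.2 ⟨a, ha'⟩
  have hle : ((B.filter fun a' => e a' q = e a q).card : ℝ) ≤ B.card := by
    exact_mod_cast card_filter_le _ _
  exact sub_nonneg.2 (Real.log_le_log hc hle)

/-- H1a. Kraft inequality in the trie. -/
theorem kraft (e : ℕ → ℕ → ℤ) (l : List ℕ) (B Z : Finset ℕ) (g : ℕ → ℤ) (θ : ℝ) (hθ : 0 < θ)
    (G : Finset ℕ)
    (hG : ∀ a ∈ G, a ∈ B ∧ (∀ q ∈ l, q ∉ Z → e a q = g q) ∧ θ ≤ wt e l B Z a) :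
    ((G.image fun a => l.map fun q => e a q).card : ℝ) * θ ≤ 1 := by
  classical
  induction l generalizing B G θ with
  | nil =>
    rcases G.eq_empty_or_nonempty with h | ⟨a, ha⟩
    · simp [h]
    · have h1 : ((G.image fun a => ([] : List ℕ).map fun q => e a q).card : ℝ) ≤ 1 := by
        have : (G.image fun a => ([] : List ℕ).map fun q => e a q).card ≤ 1 := by
          rw [card_le_one]
          intro x hx y hy
          obtain ⟨_, _, rfl⟩ := mem_image.1 hx
          obtain ⟨_, _, rfl⟩ := mem_image.1 hy
          rfl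
        exact_mod_cast this
      have h2 : θ ≤ 1 := (hG a ha).2.2
      nlinarith
  | cons q l ih =>
    by_cases hq : q ∈ Z
    · -- group by the value at `q`
      set V := G.image fun a => e a q with hV
      have h1 : (G.image fun a => (q :: l).map fun q => e a q).card ≤
          ∑ v ∈ V, ((G.filter fun a => e a q = v).image fun a => l.map fun q => e a q).card := by
        have h2 : (G.image fun a => (q :: l).map fun q => e a q) ⊆
            V.biUnion fun v => ((G.filter fun a => e a q = v).image
              fun a => l.map fun q => e a q).image (List.cons v) := by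
          intro x hx
          obtain ⟨a, ha, rfl⟩ := mem_image.1 hx
          rw [mem_biUnion]
          refine ⟨e a q, mem_image_of_mem _ ha, ?_⟩
          rw [mem_image]
          exact ⟨_, mem_image.2 ⟨a, mem_filter.2 ⟨ha, rfl⟩, rfl⟩, rfl⟩
        exact (card_le_card h2).trans (card_biUnion_le.trans (sum_le_sum fun v _ => card_image_le))
      have h3 : ∀ v ∈ V, (((G.filter fun a => e a q = v).image
          fun a => l.map fun q => e a q).card : ℝ) * θ ≤
          ((B.filter fun a => e a q = v).card : ℝ) / B.card := by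
        intro v hv
        obtain ⟨a₀, ha₀, rfl⟩ := mem_image.1 hv
        have hB₀ : a₀ ∈ B := (hG a₀ ha₀).1
        have hc : (0 : ℝ) < (B.filter fun a' => e a' q = e a₀ q).card := by
          have hm : a₀ ∈ B.filter fun a' => e a' q = e a₀ q := mem_filter.2 ⟨hB₀, rfl⟩
          exact_mod_cast card_pos.2 ⟨a₀, hm⟩
        have hB : (0 : ℝ) < B.card := by exact_mod_cast card_pos.2 ⟨a₀, hB₀⟩
        have h4 := ih (B.filter fun a => e a q = e a₀ q)
          (θ / (((B.filter fun a => e a q = e a₀ q).card : ℝ) / B.card)) (by positivity)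
          (G.filter fun a => e a q = e a₀ q) (by
            intro a ha
            obtain ⟨ha1, ha2⟩ := mem_filter.1 ha
            obtain ⟨hb1, hb2, hb3⟩ := hG a ha1
            refine ⟨mem_filter.2 ⟨hb1, ha2⟩, fun q' hq' hz => hb2 q' (List.mem_cons_of_mem _ hq') hz,
              ?_⟩
            rw [wt_cons, if_pos hq, ha2] at hb3
            rw [div_le_iff₀ (by positivity)]
            linarith)
        rw [mul_div_assoc', div_le_one (by positivity)] at h4
        exact h4
      have h5 : ∑ v ∈ V, ((B.filter fun a => e a q = v).card : ℝ) / B.card ≤ 1 := by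
        rcases V.eq_empty_or_nonempty with h | ⟨v, hv⟩
        · simp [h]
        · obtain ⟨a₀, ha₀, rfl⟩ := mem_image.1 hv
          have hB : (0 : ℝ) < B.card := by exact_mod_cast card_pos.2 ⟨a₀, (hG a₀ ha₀).1⟩
          rw [← sum_div, div_le_one hB, ← Nat.cast_sum]
          have h6 : ∑ v ∈ V, (B.filter fun a => e a q = v).card ≤ B.card := by
            rw [← card_biUnion]
            · exact card_le_card (biUnion_subset.2 fun v _ => filter_subset _ _)
            · intro v _ w _ hvw
              rw [Function.onFun, disjoint_left]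
              intro a ha hb
              exact hvw ((mem_filter.1 ha).2.symm.trans (mem_filter.1 hb).2)
          exact_mod_cast h6
      calc ((G.image fun a => (q :: l).map fun q => e a q).card : ℝ) * θ
          ≤ (∑ v ∈ V, (((G.filter fun a => e a q = v).image
              fun a => l.map fun q => e a q).card : ℝ)) * θ := by
            apply mul_le_mul_of_nonneg_right _ hθ.le
            exact_mod_cast h1
        _ = ∑ v ∈ V, (((G.filter fun a => e a q = v).image
              fun a => l.map fun q => e a q).card : ℝ) * θ := sum_mul _ _ _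
        _ ≤ ∑ v ∈ V, ((B.filter fun a => e a q = v).card : ℝ) / B.card := sum_le_sum h3
        _ ≤ 1 := h5
    · have h1 : (G.image fun a => (q :: l).map fun q => e a q).card ≤
          (G.image fun a => l.map fun q => e a q).card := by
        have h2 : (G.image fun a => (q :: l).map fun q => e a q) ⊆
            (G.image fun a => l.map fun q => e a q).image (List.cons (g q)) := by
          intro x hx
          obtain ⟨a, ha, rfl⟩ := mem_image.1 hx
          rw [mem_image]
          refine ⟨_, mem_image.2 ⟨a, ha, rfl⟩, ?_⟩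
          simp only [List.map_cons]
          rw [(hG a ha).2.1 q (List.mem_cons_self) hq]
        exact (card_le_card h2).trans card_image_le
      have h3 := ih (B.filter fun a => e a q = g q) θ hθ G (by
        intro a ha
        obtain ⟨hb1, hb2, hb3⟩ := hG a ha
        have hb4 := hb2 q (List.mem_cons_self) hq
        refine ⟨mem_filter.2 ⟨hb1, hb4⟩, fun q' hq' hz => hb2 q' (List.mem_cons_of_mem _ hq') hz, ?_⟩
        rw [wt_cons, if_neg hq, hb4, one_mul] at hb3
        exact hb3)
      refine le_trans ?_ h3
      apply mul_le_mul_of_nonneg_right _ hθ.le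
      exact_mod_cast h1

/-- H1b. The cost is subadditive and monotone in the set of paid elements. -/
theorem wt_union (e : ℕ → ℕ → ℤ) (l : List ℕ) (B Z Z₁ Z₂ : Finset ℕ) (a : ℕ) (ha : a ∈ B)
    (hZ : Z ⊆ Z₁ ∪ Z₂) : - Real.log (wt e l B Z a) ≤
      - Real.log (wt e l B Z₁ a) - Real.log (wt e l B Z₂ a) := by
  induction l generalizing B with
  | nil => simp [wt]
  | cons q l ih =>
    have ha' : a ∈ B.filter fun a' => e a' q = e a q := mem_filter.2 ⟨ha, rfl⟩
    have h1 := ih _ ha'
    have h2 := log_sub_nonneg e q B a ha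
    rw [sub_eq_add_neg, ct_cons e q l B Z a ha, ct_cons e q l B Z₁ a ha, ct_cons e q l B Z₂ a ha]
    by_cases hq : q ∈ Z
    · rcases mem_union.1 (hZ hq) with h | h
      · rw [if_pos hq, if_pos h]
        split_ifs <;> linarith
      · rw [if_pos hq, if_pos h]
        split_ifs <;> linarith
    · rw [if_neg hq]
      split_ifs <;> linarith

/-- H1c. Expected cost of a random set of paid elements. -/
theorem cost_random {τ : Type*} (e : ℕ → ℕ → ℤ) (l : List ℕ) (B : Finset ℕ) (a : ℕ) (ha : a ∈ B)
    (T : Finset τ) (Z : τ → Finset ℕ) (c : ℝ) (hc : 0 ≤ c)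
    (hZ : ∀ q ∈ l, ((T.filter fun t => q ∈ Z t).card : ℝ) ≤ c * T.card) :
    ∑ t ∈ T, - Real.log (wt e l B (Z t) a) ≤ c * T.card * Real.log B.card := by
  induction l generalizing B with
  | nil =>
    have hB : (1 : ℝ) ≤ B.card := by exact_mod_cast card_pos.2 ⟨a, ha⟩
    simp only [wt, Real.log_one, neg_zero, sum_const_zero]
    have := Real.log_nonneg hB
    positivity
  | cons q l ih =>
    have ha' : a ∈ B.filter fun a' => e a' q = e a q := mem_filter.2 ⟨ha, rfl⟩
    have h1 := ih _ ha' (fun q' hq' => hZ q' (List.mem_cons_of_mem _ hq'))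
    have h2 := log_sub_nonneg e q B a ha
    have h3 := hZ q List.mem_cons_self
    rw [sum_congr rfl fun t _ => ct_cons e q l B (Z t) a ha, sum_add_distrib, ← sum_filter,
      sum_const, nsmul_eq_mul]
    have h4 := mul_le_mul_of_nonneg_right h3 h2
    linarith

/-- H1d. Expected cost of the default values. -/
theorem cost_default (e : ℕ → ℕ → ℤ) (l : List ℕ) (B : Finset ℕ) (Z : ℕ → Finset ℕ)
    (hZ : ∀ a ∈ B, ∀ q ∈ l, q ∈ Z a ↔ e a q = 0) :
    ∑ a ∈ B, - Real.log (wt e l B (Z a) a) ≤
      ∑ a ∈ B, ((l.filter fun q => e a q ≠ 0).length : ℝ) := by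
  classical
  induction l generalizing B with
  | nil => simp [wt]
  | cons q l ih =>
    rw [sum_congr rfl fun a ha => ct_cons e q l B (Z a) a ha, sum_add_distrib]
    have h1 : ∑ a ∈ B, (if q ∈ Z a then Real.log B.card -
        Real.log (B.filter fun a' => e a' q = e a q).card else 0) ≤
        ∑ a ∈ B, (if e a q ≠ 0 then (1 : ℝ) else 0) := by
      have h2 : ∑ a ∈ B, (if q ∈ Z a then Real.log B.card -
          Real.log (B.filter fun a' => e a' q = e a q).card else 0) =
          ∑ a ∈ B.filter (fun a => e a q = 0), (Real.log B.card -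
            Real.log (B.filter fun a' => e a' q = 0).card) := by
        rw [sum_filter]
        refine sum_congr rfl fun a ha => ?_
        have h3 := hZ a ha q List.mem_cons_self
        by_cases h4 : e a q = 0
        · rw [if_pos (h3.2 h4), if_pos h4, h4]
        · rw [if_neg (fun h => h4 (h3.1 h)), if_neg h4]
      rw [h2, sum_const, nsmul_eq_mul, ← sum_filter, sum_const, nsmul_eq_mul, mul_one]
      have h5 : (B.filter fun a => e a q = 0).card + (B.filter fun a => e a q ≠ 0).card = B.card :=
        card_filter_add_card_filter_not _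
      rcases Nat.eq_zero_or_pos (B.filter fun a => e a q = 0).card with h6 | h6
      · rw [h6]; simp
      · have h7 : (0 : ℝ) < (B.filter fun a => e a q = 0).card := by exact_mod_cast h6
        have h8 : (0 : ℝ) < B.card := by
          have : (B.filter fun a => e a q = 0).card ≤ B.card := card_filter_le _ _
          exact_mod_cast lt_of_lt_of_le h6 this
        have h9 := Real.log_le_sub_one_of_pos (div_pos h8 h7)
        rw [Real.log_div h8.ne' h7.ne'] at h9
        have h10 := mul_le_mul_of_nonneg_left h9 h7.le
        have h11 : ((B.filter fun a => e a q = 0).card : ℝ) *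
            ((B.card : ℝ) / (B.filter fun a => e a q = 0).card - 1) =
            (B.filter fun a => e a q ≠ 0).card := by
          rw [mul_sub, mul_div_cancel₀ _ h7.ne', mul_one, ← h5]
          push_cast; ring
        linarith
    have h12 : ∑ a ∈ B, - Real.log (wt e l (B.filter fun a' => e a' q = e a q) (Z a) a) ≤
        ∑ a ∈ B, ((l.filter fun q => e a q ≠ 0).length : ℝ) := by
      rw [← sum_fiberwise_of_maps_to (s := B) (t := B.image fun a => e a q) (g := fun a => e a q)
        (fun a ha => mem_image_of_mem _ ha),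
        ← sum_fiberwise_of_maps_to (s := B) (t := B.image fun a => e a q) (g := fun a => e a q)
        (fun a ha => mem_image_of_mem _ ha)
        (f := fun a => ((l.filter fun q => e a q ≠ 0).length : ℝ))]
      refine sum_le_sum fun v _ => ?_
      refine le_trans (le_of_eq ?_) (ih (B.filter fun a => e a q = v) (fun a ha q' hq' =>
        hZ a (mem_filter.1 ha).1 q' (List.mem_cons_of_mem _ hq')))
      refine sum_congr rfl fun a ha => ?_
      rw [(mem_filter.1 ha).2]
    refine (add_le_add h1 h12).trans (le_of_eq ?_)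
    rw [← sum_add_distrib]
    refine sum_congr rfl fun a _ => ?_
    by_cases h : e a q = 0
    · simp [h]
    · simp [h, add_comm]

end Pool.Agent.H254R2.SP
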