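import Mathlib
import Pool.Agent.H254R2.SP.H1

/-! H2: products (task H2 by helper766). -/

open Finset
open Pool.Agent.H116SP (cnt Spec Light part free)

namespace Pool.Agent.H254R2.SP

/-- counting tuples with two prescribed coordinates -/
theorem pl_slice {h : ℕ} (A : Finset ℕ) (j i : Fin h) (hij : i ≠ j) (a : ℕ) (ha : a ∈ A)
    (A' : Finset ℕ) (hA' : A' ⊆ A) (κ : ℝ) (hκ : (A'.card : ℝ) ≤ κ * A.card) :
    (((((Fintype.piFinset fun _ : Fin h => A).filter fun t => t j = a)).filter
      fun t => t i ∈ A').card : ℝ) ≤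
      κ * ((Fintype.piFinset fun _ : Fin h => A).filter fun t => t j = a).card := by
  classical
  rw [← Fintype.piFinset_update_singleton_eq_filter_piFinset_eq (fun _ : Fin h => A) j ha]
  set s1 : Fin h → Finset ℕ := Function.update (fun _ => A) j {a} with hs1
  have hs1i : s1 i = A := by rw [hs1, Function.update_of_ne hij]
  have h2 : (Fintype.piFinset s1).filter (fun t => t i ∈ A') =
      Fintype.piFinset (Function.update s1 i A') := by
    rw [Fintype.piFinset_update_eq_filter_piFinset_mem s1 i (by rw [hs1i]; exact hA')]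
  rw [h2, Fintype.card_piFinset, Fintype.card_piFinset,
    ← Finset.mul_prod_erase univ (fun x => (Function.update s1 i A' x).card) (mem_univ i),
    ← Finset.mul_prod_erase univ (fun x => (s1 x).card) (mem_univ i)]
  have h3 : ∏ x ∈ univ.erase i, (Function.update s1 i A' x).card =
      ∏ x ∈ univ.erase i, (s1 x).card := by
    apply prod_congr rfl
    intro x hx
    rw [Function.update_of_ne (ne_of_mem_erase hx)]
  simp only [h3, Function.update_self, hs1i]
  push_cast
  rw [← mul_assoc]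
  exact mul_le_mul_of_nonneg_right hκ (prod_nonneg fun _ _ => Nat.cast_nonneg _)

/-- The expected cost. -/
theorem pl_cost (h : ℕ) (A Pr : Finset ℕ) (e : ℕ → ℕ → ℤ)
    (k : ℕ) (hk : ∀ a ∈ A, (Pr.filter fun q => e a q ≠ 0).card ≤ k) (κ : ℝ)
    (hκ0 : 0 ≤ κ) (hκ : ∀ q ∈ Pr, ((A.filter fun a => e a q ≠ 0).card : ℝ) ≤ κ * A.card)
    (j : Fin h) (Z : (Fin h → ℕ) → Finset ℕ)
    (hZ : ∀ t ∈ Fintype.piFinset fun _ : Fin h => A,
      Z t ⊆ (Pr.filter fun q => ∃ i, i ≠ j ∧ e (t i) q ≠ 0) ∪ (Pr.filter fun q => e (t j) q = 0)) :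
    ∑ t ∈ Fintype.piFinset fun _ : Fin h => A, - Real.log (wt e Pr.toList A (Z t) (t j)) ≤
      (((h : ℝ) - 1) * κ * Real.log A.card + k) * (A.card : ℝ) ^ h := by
  classical
  set P := Fintype.piFinset fun _ : Fin h => A with hP
  have hh : 1 ≤ h := by have := j.2; omega
  have hmem : ∀ t ∈ P, ∀ i, t i ∈ A := fun t ht i => (Fintype.mem_piFinset.1 ht) i
  have hTcard : ∀ a ∈ A, ((P.filter fun t => t j = a).card : ℝ) = (A.card : ℝ) ^ (h - 1) := by
    intro a ha
    rw [hP, Fintype.card_filter_piFinset_const_eq_of_mem A j ha]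
    simp
  have hpow : (A.card : ℝ) ^ (h - 1) * A.card = (A.card : ℝ) ^ h := by
    rw [← pow_succ, Nat.sub_add_cancel hh]
  -- step 1 : split
  have h1 : ∑ t ∈ P, - Real.log (wt e Pr.toList A (Z t) (t j)) ≤
      ∑ t ∈ P, (- Real.log (wt e Pr.toList A
        (Pr.filter fun q => ∃ i, i ≠ j ∧ e (t i) q ≠ 0) (t j)) +
        (- Real.log (wt e Pr.toList A (Pr.filter fun q => e (t j) q = 0) (t j)))) := by
    apply sum_le_sum
    intro t ht
    have := wt_union e Pr.toList A (Z t) _ _ (t j) (hmem t ht j) (hZ t ht)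
    linarith
  rw [sum_add_distrib] at h1
  -- step 2 : the shared part
  have h2 : ∑ t ∈ P, (- Real.log (wt e Pr.toList A
        (Pr.filter fun q => ∃ i, i ≠ j ∧ e (t i) q ≠ 0) (t j))) ≤
      ((h : ℝ) - 1) * κ * Real.log A.card * (A.card : ℝ) ^ h := by
    rw [← sum_fiberwise_of_maps_to (s := P) (t := A) (g := fun t => t j) (fun t ht => hmem t ht j)]
    have h3 : ∀ a ∈ A, ∑ t ∈ P.filter (fun t => t j = a), (- Real.log (wt e Pr.toList A
        (Pr.filter fun q => ∃ i, i ≠ j ∧ e (t i) q ≠ 0) (t j))) ≤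
        (((h : ℝ) - 1) * κ) * ((A.card : ℝ) ^ (h - 1)) * Real.log A.card := by
      intro a ha
      have h4 : ∑ t ∈ P.filter (fun t => t j = a), (- Real.log (wt e Pr.toList A
          (Pr.filter fun q => ∃ i, i ≠ j ∧ e (t i) q ≠ 0) (t j))) =
          ∑ t ∈ P.filter (fun t => t j = a), - Real.log (wt e Pr.toList A
          ((fun t : Fin h → ℕ => Pr.filter fun q => ∃ i, i ≠ j ∧ e (t i) q ≠ 0) t) a) := by
        apply sum_congr rfl
        intro t ht
        rw [(mem_filter.1 ht).2]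
      rw [h4, ← hTcard a ha]
      apply cost_random e Pr.toList A a ha (P.filter fun t => t j = a)
      · apply mul_nonneg _ hκ0
        have : (1 : ℝ) ≤ h := by exact_mod_cast hh
        linarith
      · intro q hq
        have hq' : q ∈ Pr := by simpa using hq
        have h5 : ((P.filter fun t => t j = a).filter fun t =>
            q ∈ Pr.filter fun q => ∃ i, i ≠ j ∧ e (t i) q ≠ 0) ⊆
            (univ.erase j).biUnion fun i => (P.filter fun t => t j = a).filter
              fun t => t i ∈ A.filter fun a => e a q ≠ 0 := by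
          intro t ht
          have ht1 := (mem_filter.1 ht).1
          obtain ⟨i, hi, hi2⟩ := (mem_filter.1 (mem_filter.1 ht).2).2
          rw [mem_biUnion]
          refine ⟨i, mem_erase.2 ⟨hi, mem_univ _⟩, ?_⟩
          exact mem_filter.2 ⟨ht1, mem_filter.2 ⟨hmem t (mem_filter.1 ht1).1 i, hi2⟩⟩
        have h6 := (card_le_card h5).trans card_biUnion_le
        have h7 : (((P.filter fun t => t j = a).filter fun t =>
            q ∈ Pr.filter fun q => ∃ i, i ≠ j ∧ e (t i) q ≠ 0).card : ℝ) ≤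
            ∑ i ∈ univ.erase j, (((P.filter fun t => t j = a).filter
              fun t => t i ∈ A.filter fun a => e a q ≠ 0).card : ℝ) := by
          exact_mod_cast h6
        refine h7.trans ?_
        have h8 : ∑ i ∈ univ.erase j, (((P.filter fun t => t j = a).filter
              fun t => t i ∈ A.filter fun a => e a q ≠ 0).card : ℝ) ≤
            ∑ i ∈ univ.erase j, κ * ((P.filter fun t => t j = a).card : ℝ) := by
          apply sum_le_sum
          intro i hi
          exact pl_slice A j i (ne_of_mem_erase hi) a ha _ (filter_subset _ _) κ (hκ q hq')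
        refine h8.trans (le_of_eq ?_)
        rw [sum_const, card_erase_of_mem (mem_univ _), card_univ, Fintype.card_fin, nsmul_eq_mul,
          Nat.cast_sub hh, Nat.cast_one]
        ring
    refine (sum_le_sum h3).trans (le_of_eq ?_)
    rw [sum_const, nsmul_eq_mul, ← hpow]
    ring
  -- step 3 : the default part
  have h3 : ∑ t ∈ P, (- Real.log (wt e Pr.toList A (Pr.filter fun q => e (t j) q = 0) (t j))) ≤
      k * (A.card : ℝ) ^ h := by
    rw [← sum_fiberwise_of_maps_to (s := P) (t := A) (g := fun t => t j) (fun t ht => hmem t ht j)]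
    have h4 : ∀ a ∈ A, ∑ t ∈ P.filter (fun t => t j = a),
        (- Real.log (wt e Pr.toList A (Pr.filter fun q => e (t j) q = 0) (t j))) =
        (A.card : ℝ) ^ (h - 1) *
          (- Real.log (wt e Pr.toList A ((fun a => Pr.filter fun q => e a q = 0) a) a)) := by
      intro a ha
      rw [← hTcard a ha, ← nsmul_eq_mul, ← sum_const]
      apply sum_congr rfl
      intro t ht
      rw [(mem_filter.1 ht).2]
    rw [sum_congr rfl h4, ← mul_sum]
    have h5 := cost_default e Pr.toList A (fun a => Pr.filter fun q => e a q = 0) (by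
      intro a _ q hq
      have hq' : q ∈ Pr := by simpa using hq
      simp [hq'])
    have h6 : ∑ a ∈ A, ((Pr.toList.filter fun q => e a q ≠ 0).length : ℝ) ≤ A.card * (k : ℝ) := by
      rw [← nsmul_eq_mul, ← sum_const]
      apply sum_le_sum
      intro a ha
      have h7 := hk a ha
      have h8 : (Pr.toList.filter fun q => e a q ≠ 0).length =
          (Pr.filter fun q => e a q ≠ 0).card := by
        have h9 : (Pr.filter fun q => e a q ≠ 0) = (Pr.toList.filter fun q => e a q ≠ 0).toFinset := by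
          ext q
          simp
        rw [h9, List.toFinset_card_of_nodup ((Finset.nodup_toList Pr).filter _)]
      rw [h8]
      exact_mod_cast h7
    calc (A.card : ℝ) ^ (h - 1) * ∑ a ∈ A,
          (- Real.log (wt e Pr.toList A ((fun a => Pr.filter fun q => e a q = 0) a) a))
        ≤ (A.card : ℝ) ^ (h - 1) * (A.card * (k : ℝ)) :=
          mul_le_mul_of_nonneg_left (h5.trans h6) (by positivity)
      _ = k * (A.card : ℝ) ^ h := by rw [← hpow]; ring
  have : (((h : ℝ) - 1) * κ * Real.log A.card + k) * (A.card : ℝ) ^ h =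
      ((h : ℝ) - 1) * κ * Real.log A.card * (A.card : ℝ) ^ h + k * (A.card : ℝ) ^ h := by ring
  rw [this]
  linarith

/-- few tuples with a given product and a given pattern -/
theorem pl_count (A Pr : Finset ℕ) (e : ℕ → ℕ → ℤ) (f θ : ℝ) (hf0 : 0 ≤ f) (hθ : 0 < θ)
    (hf : ∀ a ∈ A, ((A.filter fun a' => ∀ q ∈ Pr, e a' q = e a q).card : ℝ) ≤ f)
    (Z : Finset ℕ) (g : ℕ → ℤ) (G : Finset ℕ)
    (hG : ∀ a ∈ G, a ∈ A ∧ (∀ q ∈ Pr, q ∉ Z → e a q = g q) ∧ θ ≤ wt e Pr.toList A Z a) :
    (G.card : ℝ) ≤ f * θ⁻¹ := by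
  classical
  have h1 := kraft e Pr.toList A Z g θ hθ G (by
    intro a ha
    obtain ⟨h1, h2, h3⟩ := hG a ha
    exact ⟨h1, fun q hq => h2 q (by simpa using hq), h3⟩)
  have h2 : (G.card : ℝ) ≤ ((G.image fun a => Pr.toList.map fun q => e a q).card : ℝ) * f := by
    rw [card_eq_sum_card_image (fun a => Pr.toList.map fun q => e a q) G]
    push_cast
    rw [← nsmul_eq_mul, ← sum_const]
    apply sum_le_sum
    intro v hv
    obtain ⟨a, ha, rfl⟩ := mem_image.1 hv
    refine le_trans ?_ (hf a (hG a ha).1)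
    have h3 : (G.filter fun x => (Pr.toList.map fun q => e x q) = Pr.toList.map fun q => e a q) ⊆
        A.filter fun a' => ∀ q ∈ Pr, e a' q = e a q := by
      intro x hx
      obtain ⟨hx1, hx2⟩ := mem_filter.1 hx
      refine mem_filter.2 ⟨(hG x hx1).1, fun q hq => ?_⟩
      exact List.map_inj_left.1 hx2 q (by simpa using hq)
    exact_mod_cast card_le_card h3
  have h3 : ((G.image fun a => Pr.toList.map fun q => e a q).card : ℝ) ≤ θ⁻¹ := by
    rwa [← one_div, le_div_iff₀ hθ]
  calc (G.card : ℝ) ≤ _ := h2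
    _ ≤ θ⁻¹ * f := mul_le_mul_of_nonneg_right h3 hf0
    _ = _ := mul_comm _ _

open Classical in
/-- few typical tuples with a given product -/
theorem pl_fibre (h : ℕ) (A Pr : Finset ℕ) (e : ℕ → ℕ → ℤ)
    (k : ℕ) (hk : ∀ a ∈ A, (Pr.filter fun q => e a q ≠ 0).card ≤ k) (f θ : ℝ) (hf0 : 0 ≤ f)
    (hθ : 0 < θ)
    (hf : ∀ a ∈ A, ((A.filter fun a' => ∀ q ∈ Pr, e a' q = e a q).card : ℝ) ≤ f)
    (Z : (Fin h → ℕ) → Fin h → Finset ℕ)
    (hZ : ∀ t j, Z t j = Pr.filter fun q => (∑ i, e (t i) q = 0) ∨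
      (e (t j) q ≠ 0 ∧ ∃ i, i ≠ j ∧ e (t i) q ≠ 0))
    (F : Finset (Fin h → ℕ)) (w : ℕ → ℤ) (hF : ∀ t ∈ F, (∀ i, t i ∈ A) ∧
      (∀ q ∈ Pr, ∑ i, e (t i) q = w q) ∧ ∀ j, θ ≤ wt e Pr.toList A (Z t j) (t j)) :
    (F.card : ℝ) ≤ 2 ^ (h ^ 2 * k) * (f * θ⁻¹) ^ h := by
  rcases F.eq_empty_or_nonempty with h0 | ⟨t0, ht0⟩
  · subst h0
    simp only [card_empty, Nat.cast_zero]
    positivity
  set Vis : Finset ℕ := Pr.filter fun q => w q ≠ 0 with hVis
  have hVc : Vis.card ≤ h * k := by
    have h1 : Vis ⊆ univ.biUnion fun i => Pr.filter fun q => e (t0 i) q ≠ 0 := by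
      intro q hq
      obtain ⟨hq1, hq2⟩ := mem_filter.1 hq
      rw [← (hF t0 ht0).2.1 q hq1] at hq2
      obtain ⟨i, _, hi⟩ := exists_ne_zero_of_sum_ne_zero hq2
      exact mem_biUnion.2 ⟨i, mem_univ _, mem_filter.2 ⟨hq1, hi⟩⟩
    refine (card_le_card h1).trans (card_biUnion_le.trans ?_)
    refine (sum_le_sum fun i _ => hk (t0 i) ((hF t0 ht0).1 i)).trans (le_of_eq ?_)
    simp
  -- patterns
  set pat : (Fin h → ℕ) → (Fin h → Finset ℕ) := fun t j => Vis.filter fun q => e (t j) q ≠ 0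
    with hpat
  have hpc : ((F.image pat).card : ℝ) ≤ 2 ^ (h ^ 2 * k) := by
    have h1 : F.image pat ⊆ Fintype.piFinset fun _ : Fin h => Vis.powerset := by
      intro s hs
      obtain ⟨t, _, rfl⟩ := mem_image.1 hs
      exact Fintype.mem_piFinset.2 fun j => mem_powerset.2 (filter_subset _ _)
    have h2 := card_le_card h1
    rw [Fintype.card_piFinset] at h2
    simp only [card_powerset, prod_const, card_univ, Fintype.card_fin] at h2
    have h3 : (2 ^ Vis.card) ^ h ≤ 2 ^ (h ^ 2 * k) := by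
      rw [← pow_mul]
      apply Nat.pow_le_pow_right (by norm_num)
      calc Vis.card * h ≤ (h * k) * h := Nat.mul_le_mul_right _ hVc
        _ = _ := by ring
    exact_mod_cast h2.trans h3
  -- fibres of the pattern
  have hfib : ∀ π ∈ F.image pat, ((F.filter fun t => pat t = π).card : ℝ) ≤ (f * θ⁻¹) ^ h := by
    intro π _
    set Zp : Fin h → Finset ℕ := fun j => Pr.filter fun q => w q = 0 ∨
      (q ∈ π j ∧ ∃ i, i ≠ j ∧ q ∈ π i) with hZp
    set g : Fin h → ℕ → ℤ := fun j q => if q ∈ π j then w q else 0 with hg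
    set G : Fin h → Finset ℕ := fun j => A.filter fun a =>
      (∀ q ∈ Pr, q ∉ Zp j → e a q = g j q) ∧ θ ≤ wt e Pr.toList A (Zp j) a with hGdef
    have h1 : (F.filter fun t => pat t = π) ⊆ Fintype.piFinset G := by
      intro t ht
      obtain ⟨ht1, ht2⟩ := mem_filter.1 ht
      obtain ⟨hA, hw, hθt⟩ := hF t ht1
      rw [Fintype.mem_piFinset]
      intro j
      have hmemπ : ∀ q ∈ Pr, w q ≠ 0 → ∀ i, (q ∈ π i ↔ e (t i) q ≠ 0) := by
        intro q hq hwq i
        rw [← ht2]
        simp only [hpat, hVis, mem_filter]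
        tauto
      have hZeq : Z t j = Zp j := by
        rw [hZ, hZp]
        apply filter_congr
        intro q hq
        rw [hw q hq]
        by_cases hwq : w q = 0
        · simp [hwq]
        · simp only [hwq, false_or]
          rw [hmemπ q hq hwq j]
          refine and_congr_right fun _ => exists_congr fun i => and_congr_right fun _ => ?_
          rw [hmemπ q hq hwq i]
      refine mem_filter.2 ⟨hA j, ?_, ?_⟩
      · intro q hq hqZ
        have hq1 : ¬ (w q = 0 ∨ (q ∈ π j ∧ ∃ i, i ≠ j ∧ q ∈ π i)) := fun hc =>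
          hqZ (mem_filter.2 ⟨hq, hc⟩)
        push Not at hq1
        obtain ⟨hwq, hq2⟩ := hq1
        simp only [hg]
        by_cases hqj : q ∈ π j
        · rw [if_pos hqj, ← hw q hq]
          rw [sum_eq_single j]
          · intro i _ hij
            by_contra hc
            exact hq2 hqj i hij ((hmemπ q hq hwq i).2 hc)
          · intro hc; exact absurd (mem_univ j) hc
        · rw [if_neg hqj]
          by_contra hc
          exact hqj ((hmemπ q hq hwq j).2 hc)
      · rw [← hZeq]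
        exact hθt j
    have h2 : ((F.filter fun t => pat t = π).card : ℝ) ≤ ∏ j, ((G j).card : ℝ) := by
      have := card_le_card h1
      rw [Fintype.card_piFinset] at this
      exact_mod_cast this
    refine h2.trans ?_
    have h3 : ∏ j, ((G j).card : ℝ) ≤ ∏ _j : Fin h, (f * θ⁻¹) := by
      apply prod_le_prod
      · intro i _; positivity
      · intro j _
        exact pl_count A Pr e f θ hf0 hθ hf (Zp j) (g j) (G j) (fun a ha => by
          obtain ⟨h1, h2, h3⟩ := mem_filter.1 ha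
          exact ⟨h1, h2, h3⟩)
    refine h3.trans (le_of_eq ?_)
    simp
  calc (F.card : ℝ) = ∑ π ∈ F.image pat, ((F.filter fun t => pat t = π).card : ℝ) := by
        rw [card_eq_sum_card_image pat F]
        push_cast
        rfl
    _ ≤ ∑ π ∈ F.image pat, (f * θ⁻¹) ^ h := sum_le_sum hfib
    _ = ((F.image pat).card : ℝ) * (f * θ⁻¹) ^ h := by rw [sum_const, nsmul_eq_mul]
    _ ≤ _ := mul_le_mul_of_nonneg_right hpc (by positivity)

/-- H. Products, written additively: `e a q` is the exponent of `q` in `a` (minus the default). -/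
theorem prod_lemma (h : ℕ) (hh : 1 ≤ h) (A Pr : Finset ℕ) (hA : A.Nonempty) (e : ℕ → ℕ → ℤ)
    (k : ℕ) (hk1 : 1 ≤ k) (hk : ∀ a ∈ A, (Pr.filter fun q => e a q ≠ 0).card ≤ k) (κ : ℝ)
    (hκ0 : 0 ≤ κ) (hκ : ∀ q ∈ Pr, ((A.filter fun a => e a q ≠ 0).card : ℝ) ≤ κ * A.card) (f : ℝ)
    (hf : ∀ a ∈ A, ((A.filter fun a' => ∀ q ∈ Pr, e a' q = e a q).card : ℝ) ≤ f) :
    (A.card : ℝ) ^ h ≤ 2 * 2 ^ (h ^ 2 * k) *
      (f * Real.exp (2 * h * ((h - 1) * κ * Real.log A.card + k))) ^ h *
      (((Fintype.piFinset fun _ : Fin h => A).image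
        fun (t : Fin h → ℕ) (q : Pr) => ∑ i, e (t i) q).card : ℝ) := by
  classical
  obtain ⟨a0, ha0⟩ := hA
  have hf0 : 0 ≤ f := (Nat.cast_nonneg _).trans (hf a0 ha0)
  set P := Fintype.piFinset fun _ : Fin h => A with hP
  have hmem : ∀ t ∈ P, ∀ i, t i ∈ A := fun t ht i => (Fintype.mem_piFinset.1 ht) i
  set Z : (Fin h → ℕ) → Fin h → Finset ℕ := fun t j => Pr.filter fun q => (∑ i, e (t i) q = 0) ∨
      (e (t j) q ≠ 0 ∧ ∃ i, i ≠ j ∧ e (t i) q ≠ 0) with hZ
  set E : ℝ := ((h : ℝ) - 1) * κ * Real.log A.card + k with hE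
  have hh' : (1 : ℝ) ≤ h := by exact_mod_cast hh
  have hk' : (1 : ℝ) ≤ k := by exact_mod_cast hk1
  have hAc : (1 : ℝ) ≤ A.card := by exact_mod_cast card_pos.2 ⟨a0, ha0⟩
  have hE1 : 1 ≤ E := by
    have : 0 ≤ ((h : ℝ) - 1) * κ * Real.log A.card :=
      mul_nonneg (mul_nonneg (by linarith) hκ0) (Real.log_nonneg hAc)
    linarith
  set W : ℝ := (A.card : ℝ) ^ h with hW
  have hW0 : 0 < W := by positivity
  have hPc : (P.card : ℝ) = W := by
    rw [hP, Fintype.card_piFinset]
    simp [hW]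
  have hZsub : ∀ j, ∀ t ∈ P, Z t j ⊆ (Pr.filter fun q => ∃ i, i ≠ j ∧ e (t i) q ≠ 0) ∪
      (Pr.filter fun q => e (t j) q = 0) := by
    intro j t _ q hq
    obtain ⟨hq1, hq2⟩ := mem_filter.1 hq
    rw [mem_union, mem_filter, mem_filter]
    rcases hq2 with hq2 | hq2
    · by_cases h0 : e (t j) q = 0
      · exact Or.inr ⟨hq1, h0⟩
      · left
        refine ⟨hq1, ?_⟩
        by_contra hc
        push Not at hc
        apply h0
        rw [← hq2]
        exact (sum_eq_single j (fun i _ hij => hc i hij)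
          (fun hc => absurd (mem_univ j) hc)).symm
    · exact Or.inl ⟨hq1, hq2.2⟩
  have hcost : ∀ j, ∑ t ∈ P, - Real.log (wt e Pr.toList A (Z t j) (t j)) ≤ E * W := fun j =>
    pl_cost h A Pr e k hk κ hκ0 hκ j (fun t => Z t j) (hZsub j)
  have hcost0 : ∀ j, ∀ t ∈ P, 0 ≤ - Real.log (wt e Pr.toList A (Z t j) (t j)) := by
    intro j t ht
    have := wt_pos e Pr.toList A (Z t j) (t j) (hmem t ht j)
    have := Real.log_nonpos this.1.le this.2
    linarith
  -- Markov
  have hbad : ∀ j, ((P.filter fun t => 2 * h * E < - Real.log (wt e Pr.toList A (Z t j) (t j))).card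
      : ℝ) ≤ W / (2 * h) := by
    intro j
    have h1 : ((P.filter fun t => 2 * h * E < - Real.log (wt e Pr.toList A (Z t j) (t j))).card
      : ℝ) * (2 * h * E) ≤ ∑ t ∈ P, - Real.log (wt e Pr.toList A (Z t j) (t j)) := by
      rw [← nsmul_eq_mul, ← sum_const]
      refine (sum_le_sum fun t ht => (mem_filter.1 ht).2.le).trans ?_
      exact sum_le_sum_of_subset_of_nonneg (filter_subset _ _) fun t ht _ => hcost0 j t ht
    have h2 := h1.trans (hcost j)
    rw [le_div_iff₀ (by positivity)]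
    have h3 : ((P.filter fun t => 2 * h * E < - Real.log (wt e Pr.toList A (Z t j) (t j))).card
      : ℝ) * (2 * h) * E ≤ W * E := by nlinarith
    exact le_of_mul_le_mul_right h3 (by linarith)
  set F : Finset (Fin h → ℕ) := P.filter fun t => ∀ j,
    - Real.log (wt e Pr.toList A (Z t j) (t j)) ≤ 2 * h * E with hF
  have hFc : W ≤ 2 * F.card := by
    have h1 : P ⊆ F ∪ univ.biUnion fun j =>
        P.filter fun t => 2 * h * E < - Real.log (wt e Pr.toList A (Z t j) (t j)) := by
      intro t ht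
      rw [mem_union]
      by_cases hc : ∀ j, - Real.log (wt e Pr.toList A (Z t j) (t j)) ≤ 2 * h * E
      · exact Or.inl (mem_filter.2 ⟨ht, hc⟩)
      · push Not at hc
        obtain ⟨j, hj⟩ := hc
        exact Or.inr (mem_biUnion.2 ⟨j, mem_univ _, mem_filter.2 ⟨ht, hj⟩⟩)
    have h2 := (card_le_card h1).trans ((card_union_le _ _).trans
      (Nat.add_le_add_left card_biUnion_le _))
    have h3 : (P.card : ℝ) ≤ F.card + ∑ j : Fin h, ((P.filter fun t =>
        2 * h * E < - Real.log (wt e Pr.toList A (Z t j) (t j))).card : ℝ) := by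
      exact_mod_cast h2
    have h4 : ∑ j : Fin h, ((P.filter fun t =>
        2 * h * E < - Real.log (wt e Pr.toList A (Z t j) (t j))).card : ℝ) ≤ W / 2 := by
      refine (sum_le_sum fun j _ => hbad j).trans (le_of_eq ?_)
      rw [sum_const, card_univ, Fintype.card_fin, nsmul_eq_mul]
      field_simp
    rw [hPc] at h3
    linarith
  -- counting
  set θ : ℝ := Real.exp (-(2 * h * E)) with hθ
  have hθ0 : 0 < θ := Real.exp_pos _
  have hθi : θ⁻¹ = Real.exp (2 * h * E) := by rw [hθ, Real.exp_neg, inv_inv]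
  set w : (Fin h → ℕ) → (Pr → ℤ) := fun t q => ∑ i, e (t i) q with hw
  have hfib : ∀ v ∈ F.image w, ((F.filter fun t => w t = v).card : ℝ) ≤
      2 ^ (h ^ 2 * k) * (f * θ⁻¹) ^ h := by
    intro v _
    apply pl_fibre h A Pr e k hk f θ hf0 hθ0 hf Z (fun t j => rfl) (F.filter fun t => w t = v)
      (fun q => if hq : q ∈ Pr then v ⟨q, hq⟩ else 0)
    intro t ht
    obtain ⟨ht1, ht2⟩ := mem_filter.1 ht
    obtain ⟨ht3, ht4⟩ := mem_filter.1 ht1
    refine ⟨hmem t ht3, ?_, ?_⟩
    · intro q hq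
      simp only [hq, dif_pos]
      rw [← ht2]
    · intro j
      have h1 := ht4 j
      have h2 := (wt_pos e Pr.toList A (Z t j) (t j) (hmem t ht3 j)).1
      rw [hθ, ← Real.le_log_iff_exp_le h2]
      linarith
  have hfin : (F.card : ℝ) ≤ ((P.image w).card : ℝ) * (2 ^ (h ^ 2 * k) * (f * θ⁻¹) ^ h) := by
    calc (F.card : ℝ) = ∑ v ∈ F.image w, ((F.filter fun t => w t = v).card : ℝ) := by
          rw [card_eq_sum_card_image w F]
          push_cast
          rfl
      _ ≤ ∑ v ∈ F.image w, 2 ^ (h ^ 2 * k) * (f * θ⁻¹) ^ h := sum_le_sum hfib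
      _ = ((F.image w).card : ℝ) * (2 ^ (h ^ 2 * k) * (f * θ⁻¹) ^ h) := by
          rw [sum_const, nsmul_eq_mul]
      _ ≤ _ := by
          apply mul_le_mul_of_nonneg_right _ (by positivity)
          exact_mod_cast card_le_card (image_subset_image (filter_subset _ _))
  rw [hθi] at hfin
  calc W ≤ 2 * F.card := hFc
    _ ≤ 2 * (((P.image w).card : ℝ) * (2 ^ (h ^ 2 * k) * (f * Real.exp (2 * h * E)) ^ h)) := by
        linarith
    _ = _ := by ring

end Pool.Agent.H254R2.SP
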