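import Mathlib
import Pool.Agent.H254R2.SP.Basic

/-! Task I1: the potential. -/

open Finset
open Pool.Agent.H116SP (cnt Spec Light part free)

namespace Pool.Agent.H254R2.SP

/-- I1. The potential. -/
theorem pot_exists (q : ℕ) (hq : 2 ≤ q) :
    ∃ b : ℝ, Pot (2 ^ q) b (fun n => (n : ℝ) ^ (1 / (q : ℝ))) ∧ (1 - b)⁻¹ ≤ 4 ^ q := by
  have hq0 : (0 : ℝ) < q := by
    have : 0 < q := by omega
    exact_mod_cast this
  have hq1 : (1 : ℝ) ≤ q := by
    have : 1 ≤ q := by omega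
    exact_mod_cast this
  have h4 : 4 ≤ 2 ^ q := by
    calc 4 = 2 ^ 2 := by norm_num
      _ ≤ 2 ^ q := Nat.pow_le_pow_right (by norm_num) hq
  have h4R : (4 : ℝ) ≤ 2 ^ q := by exact_mod_cast h4
  have hpos : (0 : ℝ) < 2 ^ q := by positivity
  set x : ℝ := 1 - 1 / 2 ^ q with hx
  have hx1 : x < 1 := by rw [hx]; have : 0 < 1 / (2 : ℝ) ^ q := by positivity
                         linarith
  have hx0 : 0 ≤ x := by
    rw [hx]
    have : 1 / (2 : ℝ) ^ q ≤ 1 := by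
      rw [div_le_one hpos]; linarith
    linarith
  have he : (0 : ℝ) < 1 / q := by positivity
  refine ⟨x ^ (1 / (q : ℝ)), ?_, ?_⟩
  · refine ⟨by omega, Real.rpow_nonneg hx0 _, Real.rpow_lt_one hx0 hx1 he, ?_, ?_, ?_, ?_, ?_⟩
    · intro n
      exact Real.rpow_nonneg (Nat.cast_nonneg n) _
    · intro m n hmn
      exact Real.rpow_le_rpow (Nat.cast_nonneg m) (by exact_mod_cast hmn) he.le
    · intro n hn
      exact Real.one_le_rpow (by exact_mod_cast hn) he.le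
    · intro m n hmn
      have h1 : ((2 : ℝ) ^ q * m) ^ (1 / (q : ℝ)) ≤ (n : ℝ) ^ (1 / (q : ℝ)) :=
        Real.rpow_le_rpow (by positivity) (by exact_mod_cast hmn) he.le
      rw [Real.mul_rpow (by positivity) (Nat.cast_nonneg m)] at h1
      have h2 : ((2 : ℝ) ^ q) ^ (1 / (q : ℝ)) = 2 := by
        rw [one_div, Real.pow_rpow_inv_natCast (by norm_num) (by omega)]
      rw [h2] at h1
      exact h1
    · intro c m n hmn
      have h1 : (m : ℝ) ≤ x ^ c * n := by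
        have h2 : ((2 : ℝ) ^ q) ^ c * m ≤ ((2 : ℝ) ^ q - 1) ^ c * n := by
          have h3 : (((2 ^ q) ^ c * m : ℕ) : ℝ) ≤ (((2 ^ q - 1) ^ c * n : ℕ) : ℝ) := by
            exact_mod_cast hmn
          push_cast [Nat.cast_sub (show 1 ≤ 2 ^ q by omega)] at h3
          exact h3
        have h4 : x = ((2 : ℝ) ^ q - 1) / 2 ^ q := by
          rw [hx]; field_simp
        rw [h4, div_pow, div_mul_eq_mul_div, le_div_iff₀ (by positivity)]
        linarith
      have h2 : (m : ℝ) ^ (1 / (q : ℝ)) ≤ (x ^ c * n) ^ (1 / (q : ℝ)) :=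
        Real.rpow_le_rpow (Nat.cast_nonneg m) h1 he.le
      rw [Real.mul_rpow (pow_nonneg hx0 c) (Nat.cast_nonneg n)] at h2
      have h3 : (x ^ c) ^ (1 / (q : ℝ)) = (x ^ (1 / (q : ℝ))) ^ c := by
        rw [← Real.rpow_natCast x c, ← Real.rpow_natCast (x ^ (1 / (q : ℝ))) c,
          ← Real.rpow_mul hx0, ← Real.rpow_mul hx0, mul_comm]
      rw [h3] at h2
      exact h2
  · have h1 : x ^ (1 / (q : ℝ)) ≤ 1 + (1 / (q : ℝ)) * (-(1 / 2 ^ q)) := by
      have := rpow_one_add_le_one_add_mul_self (s := -(1 / (2 : ℝ) ^ q)) (p := 1 / (q : ℝ))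
        (by linarith) he.le (by rw [div_le_one hq0]; exact hq1)
      rw [hx, sub_eq_add_neg]
      exact this
    have h2 : 1 / ((q : ℝ) * 2 ^ q) ≤ 1 - x ^ (1 / (q : ℝ)) := by
      have : (1 / (q : ℝ)) * (-(1 / 2 ^ q)) = -(1 / ((q : ℝ) * 2 ^ q)) := by
        field_simp
      linarith
    have h3 : (1 - x ^ (1 / (q : ℝ)))⁻¹ ≤ (q : ℝ) * 2 ^ q := by
      rw [inv_le_comm₀ (lt_of_lt_of_le (by positivity) h2) (by positivity), ← one_div]
      exact h2
    have h5 : (q : ℝ) ≤ 2 ^ q := by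
      have : q < 2 ^ q := Nat.lt_two_pow_self
      exact_mod_cast this.le
    calc (1 - x ^ (1 / (q : ℝ)))⁻¹ ≤ (q : ℝ) * 2 ^ q := h3
      _ ≤ 2 ^ q * 2 ^ q := mul_le_mul_of_nonneg_right h5 hpos.le
      _ = 4 ^ q := by rw [← mul_pow]; norm_num

end Pool.Agent.H254R2.SP
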