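import Mathlib
import Pool.Agent.H254R2.SP.Basic

/-! Task I2: the number of supports. -/

open Finset
open Pool.Agent.H116SP (cnt Spec Light part free)

namespace Pool.Agent.H254R2.SP

/-- I2. Number of supports. -/
theorem supp_count (J : Finset ℕ) (k W : ℕ) (hW : 1 ≤ W) (hJ : J.card ≤ k * W)
    (T : Finset (Finset ℕ)) (hT : ∀ S ∈ T, S ⊆ J ∧ S.card ≤ k) :
    (T.card : ℝ) ≤ (3 * W) ^ k := by
  classical
  have hW0 : (0 : ℝ) < W := by exact_mod_cast hW
  have hW1 : (1 : ℝ) / W ≤ 1 := by
    rw [div_le_one hW0]; exact_mod_cast hW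
  have h1 : ∑ S ∈ J.powerset, (1 / (W : ℝ)) ^ S.card = (1 + 1 / (W : ℝ)) ^ J.card := by
    rw [← Finset.prod_const, Finset.prod_one_add]
    apply sum_congr rfl
    intro S _
    rw [Finset.prod_const]
  have h2 : (T.card : ℝ) * (1 / (W : ℝ)) ^ k ≤ ∑ S ∈ J.powerset, (1 / (W : ℝ)) ^ S.card := by
    calc (T.card : ℝ) * (1 / (W : ℝ)) ^ k = ∑ S ∈ T, (1 / (W : ℝ)) ^ k := by
          rw [sum_const, nsmul_eq_mul]
      _ ≤ ∑ S ∈ T, (1 / (W : ℝ)) ^ S.card := by
          apply sum_le_sum
          intro S hS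
          exact pow_le_pow_of_le_one (by positivity) hW1 (hT S hS).2
      _ ≤ _ := by
          apply sum_le_sum_of_subset_of_nonneg
          · intro S hS
            exact mem_powerset.mpr (hT S hS).1
          · intro S _ _
            positivity
  have h3 : (1 + 1 / (W : ℝ)) ^ J.card ≤ 3 ^ k := by
    calc (1 + 1 / (W : ℝ)) ^ J.card ≤ (1 + 1 / (W : ℝ)) ^ (k * W) :=
          pow_le_pow_right₀ (by have : 0 < 1 / (W : ℝ) := by positivity
                                linarith) hJ
      _ ≤ (Real.exp (1 / W)) ^ (k * W) := by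
          apply pow_le_pow_left₀ (by positivity)
          have := Real.add_one_le_exp (1 / (W : ℝ))
          linarith
      _ = Real.exp 1 ^ k := by
          rw [← Real.exp_nat_mul, ← Real.exp_nat_mul]
          congr 1
          push_cast
          field_simp
      _ ≤ 3 ^ k := by
          apply pow_le_pow_left₀ (Real.exp_pos 1).le
          have := Real.exp_one_lt_d9
          linarith
  have h4 : (T.card : ℝ) * (1 / (W : ℝ)) ^ k ≤ 3 ^ k := h2.trans (h1 ▸ h3)
  have h5 : (T.card : ℝ) = (T.card : ℝ) * (1 / (W : ℝ)) ^ k * (W : ℝ) ^ k := by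
    rw [mul_assoc, ← mul_pow, one_div, inv_mul_cancel₀ hW0.ne', one_pow, mul_one]
  rw [h5, mul_pow]
  exact mul_le_mul_of_nonneg_right h4 (by positivity)

end Pool.Agent.H254R2.SP
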