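import Pool.Agent.H254R2.SP.Basic
import Pool.Agent.H254R2.SP.G
import Pool.Agent.H254R2.SP.I1

/-! Task I3: iterated sums. -/

open Finset
open Pool.Agent.H116SP (cnt Spec Light part free)

namespace Pool.Agent.H254R2.SP



theorem hsum_one (A : Finset ℕ) : A ⊆ hsum 1 A := by
  intro a ha
  unfold hsum
  rw [mem_image]
  exact ⟨fun _ => a, by rw [Fintype.mem_piFinset]; exact fun _ => ha, by simp⟩

theorem add_mem_hsum {A : Finset ℕ} {j a y : ℕ} (ha : a ∈ A) (hy : y ∈ hsum j A) :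
    a + y ∈ hsum (j + 1) A := by
  unfold hsum at hy ⊢
  rw [mem_image] at hy ⊢
  obtain ⟨t, ht, rfl⟩ := hy
  rw [Fintype.mem_piFinset] at ht
  refine ⟨Fin.cons a t, ?_, ?_⟩
  · rw [Fintype.mem_piFinset]
    intro i
    refine Fin.cases ?_ (fun i => ?_) i
    · simpa using ha
    · simpa using ht i
  · rw [Fin.sum_univ_succ]
    simp

theorem card_hsum_le (A : Finset ℕ) (j : ℕ) : (hsum j A).card ≤ A.card ^ j := by
  unfold hsum
  refine card_image_le.trans ?_
  rw [Fintype.card_piFinset]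
  simp

/-- I3. Iterated sums. -/
theorem iter_sum (J A : Finset ℕ) (hJ : ∀ p ∈ J, p.Prime) (hA : 0 ∉ A) (hne : A.Nonempty)
    (dd : ℕ → ℕ) (k : ℕ) (hk : ∀ a ∈ A, (spp J dd a).card ≤ k) (E : ℝ)
    (hE : ((A.image (spp J dd)).card : ℝ) ≤ E) (n : ℕ) (hn : 1 ≤ n) (q : ℕ) (hq : 2 ≤ q)
    (hf : ∀ a ∈ A, 4 * (E * (16 ^ q) ^ k * (A.card : ℝ) ^ ((n : ℝ) / q)) ≤
      ((A.filter fun a' => free J a' = free J a).card : ℝ)) :
    (A.card : ℝ) ^ n ≤ (8 * E * (2 ^ (6 * q + 4)) ^ k * (A.card : ℝ) ^ (4 * (n : ℝ) / q)) ^ (n - 1) *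
      (hsum n A).card := by
  obtain ⟨b, hpot, hb⟩ := pot_exists q hq
  have hκ0 : 0 < (1 - b)⁻¹ := kap_pos hpot
  set κ : ℝ := (1 - b)⁻¹ with hκ
  have hq0 : (0 : ℝ) < q := by exact_mod_cast (by omega : 0 < q)
  have hE1 : (1 : ℝ) ≤ E := by
    refine le_trans ?_ hE
    exact_mod_cast Finset.card_pos.mpr (hne.image _)
  have hc1 : (1 : ℝ) ≤ A.card := by exact_mod_cast hne.card_pos
  have hκ2 : κ ^ 2 ≤ 16 ^ q := by
    have h1 : κ ^ 2 ≤ (4 ^ q) ^ 2 := pow_le_pow_left₀ hκ0.le hb 2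
    have h2 : ((4 : ℝ) ^ q) ^ 2 = 16 ^ q := by
      rw [← pow_mul, mul_comm, pow_mul]; norm_num
    rwa [h2] at h1
  have hbig : 4 * (1 + κ) * (1 + κ ^ 2) ≤ 2 ^ (6 * q + 4) := by
    have h1 : (1 : ℝ) ≤ 4 ^ q := one_le_pow₀ (by norm_num)
    have h2 : (1 : ℝ) ≤ 16 ^ q := one_le_pow₀ (by norm_num)
    have h3 : 1 + κ ≤ 2 * 4 ^ q := by linarith
    have h4 : 1 + κ ^ 2 ≤ 2 * 16 ^ q := by linarith
    have h5 : (1 + κ) * (1 + κ ^ 2) ≤ (2 * 4 ^ q) * (2 * 16 ^ q) :=
      mul_le_mul h3 h4 (by positivity) (by positivity)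
    have h6 : (2 : ℝ) ^ (6 * q + 4) = 4 * ((2 * 4 ^ q) * (2 * 16 ^ q)) := by
      have h7 : (4 : ℝ) ^ q = 2 ^ (2 * q) := by rw [pow_mul]; norm_num
      have h8 : (16 : ℝ) ^ q = 2 ^ (4 * q) := by rw [pow_mul]; norm_num
      rw [h7, h8, pow_add, show 6 * q = 2 * q + 4 * q by ring, pow_add]
      ring
    rw [h6]
    linarith
  set R : ℝ := 8 * E * (2 ^ (6 * q + 4)) ^ k * (A.card : ℝ) ^ (4 * (n : ℝ) / q) with hR
  have hR0 : 0 ≤ R := by positivity
  -- the induction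
  have key : ∀ j, 1 ≤ j → j ≤ n → (A.card : ℝ) ^ j ≤ R ^ (j - 1) * (hsum j A).card := by
    intro j hj
    induction j, hj using Nat.le_induction with
    | base =>
      intro _
      simp only [pow_one, Nat.sub_self, pow_zero, one_mul]
      exact_mod_cast card_le_card (hsum_one A)
    | succ j hj ih =>
      intro hjn
      have ih' := ih (by omega)
      set Y := hsum j A with hY
      have hYc : (Y.card : ℝ) ≤ (A.card : ℝ) ^ j := by exact_mod_cast card_hsum_le A j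
      -- the potential
      have hφ : (A.card : ℝ) ^ (1 / (q : ℝ)) * (Y.card : ℝ) ^ (1 / (q : ℝ)) ≤
          (A.card : ℝ) ^ ((n : ℝ) / q) := by
        rw [← Real.mul_rpow (by positivity) (by positivity)]
        have h1 : (A.card : ℝ) * Y.card ≤ (A.card : ℝ) ^ n := by
          calc (A.card : ℝ) * Y.card ≤ (A.card : ℝ) * (A.card : ℝ) ^ j :=
                mul_le_mul_of_nonneg_left hYc (by positivity)
            _ = (A.card : ℝ) ^ (j + 1) := by rw [pow_succ']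
            _ ≤ (A.card : ℝ) ^ n := pow_le_pow_right₀ hc1 hjn
        calc ((A.card : ℝ) * Y.card) ^ (1 / (q : ℝ)) ≤ ((A.card : ℝ) ^ n) ^ (1 / (q : ℝ)) :=
              Real.rpow_le_rpow (by positivity) h1 (by positivity)
          _ = (A.card : ℝ) ^ ((n : ℝ) / q) := by
              rw [← Real.rpow_natCast, ← Real.rpow_mul (by positivity)]
              congr 1
              ring
      have hφ0 : 0 ≤ (A.card : ℝ) ^ (1 / (q : ℝ)) * (Y.card : ℝ) ^ (1 / (q : ℝ)) := by positivity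
      have h := sum_lemma hpot J A Y hJ hA dd k hk E hE (fun a ha => by
        refine le_trans ?_ (hf a ha)
        have h1 : (κ ^ 2) ^ k ≤ (16 ^ q) ^ k := pow_le_pow_left₀ (by positivity) hκ2 k
        have h2 : (κ ^ 2) ^ k *
            ((A.card : ℝ) ^ (1 / (q : ℝ)) * (Y.card : ℝ) ^ (1 / (q : ℝ))) ≤
            (16 ^ q) ^ k * (A.card : ℝ) ^ ((n : ℝ) / q) :=
          mul_le_mul h1 hφ hφ0 (by positivity)
        have h3 := mul_le_mul_of_nonneg_left h2 (by linarith : (0 : ℝ) ≤ E)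
        have h4 : 4 * (E * (κ ^ 2) ^ k *
            ((A.card : ℝ) ^ (1 / (q : ℝ)) * (Y.card : ℝ) ^ (1 / (q : ℝ)))) =
            4 * (E * ((κ ^ 2) ^ k *
            ((A.card : ℝ) ^ (1 / (q : ℝ)) * (Y.card : ℝ) ^ (1 / (q : ℝ))))) := by ring
        linarith)
      have hsub : ((A ×ˢ Y).image fun z => z.1 + z.2) ⊆ hsum (j + 1) A := by
        intro z hz
        rw [mem_image] at hz
        obtain ⟨w, hw, rfl⟩ := hz
        rw [mem_product] at hw
        exact add_mem_hsum hw.1 hw.2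
      have hcard : ((((A ×ˢ Y).image fun z => z.1 + z.2).card : ℕ) : ℝ) ≤
          ((hsum (j + 1) A).card : ℝ) := by exact_mod_cast card_le_card hsub
      have h4 : ((A.card : ℝ) ^ (1 / (q : ℝ)) * (Y.card : ℝ) ^ (1 / (q : ℝ))) ^ 4 ≤
          (A.card : ℝ) ^ (4 * (n : ℝ) / q) := by
        refine (pow_le_pow_left₀ hφ0 hφ 4).trans (le_of_eq ?_)
        rw [← Real.rpow_natCast, ← Real.rpow_mul (by positivity)]
        congr 1
        push_cast
        ring
      have h5 : (4 * (1 + κ) * (1 + κ ^ 2)) ^ k ≤ (2 ^ (6 * q + 4)) ^ k :=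
        pow_le_pow_left₀ (by positivity) hbig k
      have h6 : 8 * E * (4 * (1 + κ) * (1 + κ ^ 2)) ^ k *
          ((A.card : ℝ) ^ (1 / (q : ℝ)) * (Y.card : ℝ) ^ (1 / (q : ℝ))) ^ 4 ≤ R := by
        rw [hR]
        refine mul_le_mul ?_ h4 (by positivity) (by positivity)
        exact mul_le_mul_of_nonneg_left h5 (by positivity)
      have h7 : (A.card : ℝ) * Y.card ≤ R * (hsum (j + 1) A).card :=
        h.trans (mul_le_mul h6 hcard (by positivity) hR0)
      have h8 : R ^ (j + 1 - 1) = R ^ (j - 1) * R := by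
        rw [← pow_succ]; congr 1; omega
      rw [h8, pow_succ']
      calc (A.card : ℝ) * (A.card : ℝ) ^ j ≤ A.card * (R ^ (j - 1) * Y.card) :=
            mul_le_mul_of_nonneg_left ih' (by positivity)
        _ = R ^ (j - 1) * (A.card * Y.card) := by ring
        _ ≤ R ^ (j - 1) * (R * (hsum (j + 1) A).card) :=
            mul_le_mul_of_nonneg_left h7 (by positivity)
        _ = _ := by ring
  exact key n hn le_rfl

end Pool.Agent.H254R2.SP
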