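import Mathlib
import Pool.Agent.H254R2.SP.I2
import Pool.Agent.H254R2.SP.I3
import Pool.Agent.H254R2.SP.H2

/-! K: the theorem for positive integers with a free parameter `q`. -/

open Finset
open Pool.Agent.H116SP (cnt Spec Light part free factorization_part part_mul_free part_ne_zero)

namespace Pool.Agent.H254R2.SP

/-- the primes -/
private def KS (A : Finset ℕ) (D : ℕ) : Finset ℕ := A.biUnion Nat.primeFactors ∪ D.primeFactors

/-- the frequent primes -/
private def KJ (A : Finset ℕ) (D W : ℕ) : Finset ℕ :=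
  (KS A D).filter fun p =>
    A.card ≤ W * (A.filter fun a => a.factorization p ≠ D.factorization p).card

private theorem K_prime {A : Finset ℕ} {D p : ℕ} (hp : p ∈ KS A D) : p.Prime := by
  unfold KS at hp
  rw [mem_union, mem_biUnion] at hp
  rcases hp with ⟨a, _, h⟩ | h
  · exact Nat.prime_of_mem_primeFactors h
  · exact Nat.prime_of_mem_primeFactors h

private theorem KJ_prime {A : Finset ℕ} {D W : ℕ} : ∀ p ∈ KJ A D W, p.Prime :=
  fun _ hp => K_prime (mem_filter.1 hp).1

private theorem K_mem_of_ne {a D p : ℕ} (h : a.factorization p ≠ D.factorization p) :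
    p ∈ a.primeFactors ∪ D.primeFactors := by
  by_contra hc
  rw [mem_union, not_or] at hc
  apply h
  rw [← Nat.support_factorization, ← Nat.support_factorization, Finsupp.notMem_support_iff,
    Finsupp.notMem_support_iff] at hc
  rw [hc.1, hc.2]

private theorem K_outside {A : Finset ℕ} {D p a : ℕ} (ha : a ∈ A) (hp : p ∉ KS A D) :
    a.factorization p = 0 := by
  unfold KS at hp
  rw [mem_union, not_or, mem_biUnion] at hp
  rw [← Finsupp.notMem_support_iff, Nat.support_factorization]
  intro hc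
  exact hp.1 ⟨a, ha, hc⟩

private theorem KJ_card {A : Finset ℕ} {D m W : ℕ} (hne : A.Nonempty)
    (hω : ∀ a ∈ A, ((a.primeFactors ∪ D.primeFactors).filter fun p =>
      a.factorization p ≠ D.factorization p).card ≤ m) : (KJ A D W).card ≤ m * W := by
  have hn : 0 < A.card := hne.card_pos
  have h1 : (KJ A D W).card * A.card ≤
      ∑ p ∈ KJ A D W, W * (A.filter fun a => a.factorization p ≠ D.factorization p).card := by
    rw [← smul_eq_mul, ← sum_const]
    exact sum_le_sum fun p hp => (mem_filter.1 hp).2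
  have h2 := sum_card_bipartiteAbove_eq_sum_card_bipartiteBelow
    (s := KJ A D W) (t := A) (fun p a => a.factorization p ≠ D.factorization p)
  unfold bipartiteAbove bipartiteBelow at h2
  rw [← mul_sum, h2] at h1
  have h3 : ∑ a ∈ A, ((KJ A D W).filter fun p => a.factorization p ≠ D.factorization p).card ≤
      A.card * m := by
    rw [← smul_eq_mul, ← sum_const]
    refine sum_le_sum fun a ha => (card_le_card ?_).trans (hω a ha)
    intro p hp
    rw [mem_filter] at hp ⊢
    exact ⟨K_mem_of_ne hp.2, hp.2⟩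
  have h4 := h1.trans (Nat.mul_le_mul_left W h3)
  have h5 : (KJ A D W).card * A.card ≤ (m * W) * A.card := by
    calc _ ≤ W * (A.card * m) := h4
      _ = _ := by ring
  exact Nat.le_of_mul_le_mul_right h5 hn

private theorem K_free_eq {J : Finset ℕ} (hJ : ∀ p ∈ J, p.Prime) {a b : ℕ} (ha : a ≠ 0)
    (hb : b ≠ 0) (h : ∀ q, q ∉ J → a.factorization q = b.factorization q) :
    free J a = free J b := by
  have key : ∀ c : ℕ, c ≠ 0 → free J c ≠ 0 ∧
      ∀ q, (free J c).factorization q = if q ∈ J then 0 else c.factorization q := by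
    intro c hc
    have h1 := part_mul_free hJ hc
    have h2 : free J c ≠ 0 := by
      intro h3
      rw [h3, mul_zero] at h1
      exact hc h1.symm
    refine ⟨h2, fun q => ?_⟩
    have h4 : c.factorization q = (part J c * free J c).factorization q := by rw [h1]
    rw [Nat.factorization_mul (part_ne_zero hJ c) h2, Finsupp.add_apply,
      factorization_part hJ] at h4
    split_ifs at h4 ⊢ with h5
    · omega
    · omega
  apply Nat.eq_of_factorization_eq (key a ha).1 (key b hb).1
  intro q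
  rw [(key a ha).2, (key b hb).2]
  split_ifs with h5
  · rfl
  · exact h q h5

private theorem K_hsum_mono {h : ℕ} {A B : Finset ℕ} (hBA : B ⊆ A) : hsum h B ⊆ hsum h A := by
  unfold hsum
  exact image_subset_image (Fintype.piFinset_subset _ _ fun _ => hBA)

private theorem K_hprod_mono {h : ℕ} {A B : Finset ℕ} (hBA : B ⊆ A) : hprod h B ⊆ hprod h A := by
  unfold hprod
  exact image_subset_image (Fintype.piFinset_subset _ _ fun _ => hBA)

private theorem K_exp2 : (2 : ℝ) ≤ Real.exp 1 := by
  have := Real.add_one_le_exp (1 : ℝ)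
  linarith

private theorem K_exp_pow {x y : ℝ} (hx : 0 ≤ x) (h : x ≤ Real.exp y) (n : ℕ) :
    x ^ n ≤ Real.exp (n * y) := by
  rw [Real.exp_nat_mul]
  exact pow_le_pow_left₀ hx h n

private theorem K_16 : (16 : ℝ) ≤ Real.exp 3 := by
  have h1 : (2.7 : ℝ) ≤ Real.exp 1 := by
    have := Real.exp_one_gt_d9
    linarith
  have h2 := K_exp_pow (by norm_num) h1 3
  norm_num at h2
  linarith

/-- the vector of exponents outside `J` is a function of the product -/
private theorem K_vec {h : ℕ} {A1 Pr : Finset ℕ} {D : ℕ} (hA : 0 ∉ A1) :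
    (((Fintype.piFinset fun _ : Fin h => A1).image
        fun (t : Fin h → ℕ) (q : Pr) => ∑ i, (((t i).factorization q : ℤ) - D.factorization q)).card)
      ≤ (hprod h A1).card := by
  classical
  have hsub : ((Fintype.piFinset fun _ : Fin h => A1).image
        fun (t : Fin h → ℕ) (q : Pr) => ∑ i, (((t i).factorization q : ℤ) - D.factorization q)) ⊆
      (hprod h A1).image fun P => fun q : Pr =>
        ((P.factorization q : ℤ) - h * D.factorization q) := by
    intro v hv
    rw [mem_image] at hv ⊢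
    obtain ⟨t, ht, rfl⟩ := hv
    refine ⟨∏ i, t i, ?_, ?_⟩
    · unfold hprod
      exact mem_image_of_mem _ ht
    · funext q
      rw [sum_sub_distrib, sum_const, card_univ, Fintype.card_fin, nsmul_eq_mul,
        Nat.factorization_prod]
      · rw [Finsupp.finsetSum_apply]
        push_cast
        rfl
      · intro i _ h0
        have := Fintype.mem_piFinset.1 ht i
        rw [h0] at this
        exact hA this
  exact (card_le_card hsub).trans card_image_le

/-! ### constants -/

private theorem K_E_le {h q m : ℕ} :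
    (3 * ((h * 2 ^ q : ℕ) : ℝ)) ^ m ≤ Real.exp (m * (2 + h + q)) := by
  refine K_exp_pow (by positivity) ?_ m
  have h1 : (3 : ℝ) ≤ Real.exp 2 := by
    have := Real.add_one_le_exp (2 : ℝ)
    linarith
  have h2 : (h : ℝ) ≤ Real.exp h := by
    have := Real.add_one_le_exp (h : ℝ)
    linarith
  have h3 : (2 : ℝ) ^ q ≤ Real.exp q := by
    have := K_exp_pow (by norm_num) K_exp2 q
    rwa [mul_one] at this
  rw [Real.exp_add, Real.exp_add]
  push_cast
  calc (3 : ℝ) * (h * 2 ^ q) = 3 * h * 2 ^ q := by ring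
    _ ≤ Real.exp 2 * Real.exp h * Real.exp q := by gcongr

private theorem K_rpow {n : ℕ} (hn : 0 < n) (x : ℝ) :
    (n : ℝ) ^ x = Real.exp (x * Real.log n) := by
  have h : (0 : ℝ) < n := by exact_mod_cast hn
  rw [Real.rpow_def_of_pos h, mul_comm]

private theorem K_facts {h q m : ℕ} (hh : 1 ≤ h) (hq : 2 ≤ q) (hm : 1 ≤ m) {L : ℝ} (hL : 0 ≤ L) :
    (1 : ℝ) ≤ (h : ℝ) ^ 2 * m ∧ (h : ℝ) ≤ (h : ℝ) ^ 2 * m ∧ (h : ℝ) * m ≤ (h : ℝ) ^ 2 * m ∧
    0 ≤ (h : ℝ) * m * q ∧ 0 ≤ (h : ℝ) ^ 2 * L / q := by
  have h1 : (1 : ℝ) ≤ h := by exact_mod_cast hh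
  have h2 : (1 : ℝ) ≤ m := by exact_mod_cast hm
  have h3 : (h : ℝ) ≤ (h : ℝ) ^ 2 := by nlinarith
  have h4 : (h : ℝ) ^ 2 ≤ (h : ℝ) ^ 2 * m := by nlinarith [sq_nonneg (h : ℝ)]
  refine ⟨by linarith, by linarith, ?_, by positivity, by positivity⟩
  exact mul_le_mul_of_nonneg_right h3 (by positivity)

private theorem K_const1 {h q m n : ℕ} (hh : 1 ≤ h) (hq : 2 ≤ q) (hm : 1 ≤ m) (hn : 0 < n) :
    (2 : ℝ) ^ h * (8 * (3 * ((h * 2 ^ q : ℕ) : ℝ)) ^ m * (2 ^ (6 * q + 4)) ^ m *
      (n : ℝ) ^ (4 * (h : ℝ) / q)) ^ (h - 1) ≤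
    Real.exp (20 * ((h : ℝ) ^ 2 * m + h * m * q + h ^ 2 * Real.log n / q)) := by
  have hL : 0 ≤ Real.log n := Real.log_natCast_nonneg n
  obtain ⟨_, f1, f2, f3, f4⟩ := K_facts hh hq hm hL
  have h8 : (8 : ℝ) ≤ Real.exp 3 := by linarith [K_16]
  have h2 : (2 : ℝ) ^ h ≤ Real.exp h := by
    have := K_exp_pow (by norm_num) K_exp2 h
    rwa [mul_one] at this
  have h3 : ((2 : ℝ) ^ (6 * q + 4)) ^ m ≤ Real.exp (m * (6 * q + 4)) := by
    refine K_exp_pow (by positivity) ?_ m
    have := K_exp_pow (by norm_num) K_exp2 (6 * q + 4)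
    rw [mul_one] at this
    push_cast at this
    exact this
  set Y : ℝ := 3 + m * (2 + h + q) + m * (6 * q + 4) + 4 * (h : ℝ) / q * Real.log n with hY
  have hY0 : 0 ≤ Y := by positivity
  have hbase : 8 * (3 * ((h * 2 ^ q : ℕ) : ℝ)) ^ m * (2 ^ (6 * q + 4)) ^ m *
      (n : ℝ) ^ (4 * (h : ℝ) / q) ≤ Real.exp Y := by
    rw [K_rpow hn, hY, Real.exp_add, Real.exp_add, Real.exp_add]
    gcongr
    exact K_E_le
  have hpow := K_exp_pow (by positivity) hbase (h - 1)
  have h5 : (((h - 1 : ℕ) : ℝ)) * Y ≤ h * Y := by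
    apply mul_le_mul_of_nonneg_right _ hY0
    exact_mod_cast Nat.sub_le h 1
  calc _ ≤ Real.exp h * Real.exp (((h - 1 : ℕ) : ℝ) * Y) := by gcongr
    _ = Real.exp (h + ((h - 1 : ℕ) : ℝ) * Y) := by rw [Real.exp_add]
    _ ≤ _ := by
      apply Real.exp_le_exp.2
      have e : (h : ℝ) * Y = 3 * h + 6 * (h * m) + h ^ 2 * m + 7 * (h * m * q) +
          4 * (h ^ 2 * Real.log n / q) := by
        rw [hY]
        ring
      linarith

private theorem K_const2 {h q m n n1 : ℕ} (hh : 1 ≤ h) (hq : 2 ≤ q) (hm : 1 ≤ m) (hn1 : 0 < n1)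
    (hn : n1 ≤ n) :
    (2 : ℝ) ^ h * (2 * 2 ^ (h ^ 2 * m) * ((4 * ((3 * ((h * 2 ^ q : ℕ) : ℝ)) ^ m * (16 ^ q) ^ m *
      (n : ℝ) ^ ((h : ℝ) / q))) *
      Real.exp (2 * h * ((h - 1) * (2 / ((h * 2 ^ q : ℕ) : ℝ)) * Real.log n1 + m))) ^ h) ≤
    Real.exp (20 * ((h : ℝ) ^ 2 * m + h * m * q + h ^ 2 * Real.log n / q)) := by
  have hn' : 0 < n := by omega
  have hL : 0 ≤ Real.log n := Real.log_natCast_nonneg n
  have hL1 : 0 ≤ Real.log n1 := Real.log_natCast_nonneg n1
  have hL2 : Real.log n1 ≤ Real.log n := by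
    apply Real.log_le_log
    · exact_mod_cast hn1
    · exact_mod_cast hn
  obtain ⟨f0, f1, f2, f3, f4⟩ := K_facts hh hq hm hL
  have hh' : (1 : ℝ) ≤ h := by exact_mod_cast hh
  have hq' : (2 : ℝ) ≤ q := by exact_mod_cast hq
  have h4 : (4 : ℝ) ≤ Real.exp 2 := by
    have := K_exp_pow (by norm_num) K_exp2 2
    norm_num at this
    exact this
  have h2 : (2 : ℝ) ^ h ≤ Real.exp h := by
    have := K_exp_pow (by norm_num) K_exp2 h
    rwa [mul_one] at this
  have h2' : (2 : ℝ) ^ (h ^ 2 * m) ≤ Real.exp (h ^ 2 * m) := by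
    have := K_exp_pow (by norm_num) K_exp2 (h ^ 2 * m)
    rw [mul_one] at this
    push_cast at this
    exact this
  have h3 : ((16 : ℝ) ^ q) ^ m ≤ Real.exp (m * (q * 3)) := by
    refine K_exp_pow (by positivity) ?_ m
    exact K_exp_pow (by norm_num) K_16 q
  have hexp : 2 * (h : ℝ) * ((h - 1) * (2 / ((h * 2 ^ q : ℕ) : ℝ)) * Real.log n1 + m) ≤
      4 * (h * Real.log n / q) + 2 * (h * m) := by
    have h2q : (q : ℝ) ≤ 2 ^ q := by
      exact_mod_cast (Nat.lt_two_pow_self (n := q)).le
    have e1 : ((h : ℝ) - 1) * (2 / ((h * 2 ^ q : ℕ) : ℝ)) ≤ 2 / q := by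
      push_cast
      have e2 : ((h : ℝ) - 1) * (2 / (h * 2 ^ q)) ≤ h * (2 / (h * 2 ^ q)) := by
        apply mul_le_mul_of_nonneg_right (by linarith)
        positivity
      have e3 : (h : ℝ) * (2 / (h * 2 ^ q)) = 2 / 2 ^ q := by
        field_simp
      have e4 : (2 : ℝ) / 2 ^ q ≤ 2 / q := by
        apply div_le_div_of_nonneg_left (by norm_num) (by linarith) h2q
      linarith
    have e5 : ((h : ℝ) - 1) * (2 / ((h * 2 ^ q : ℕ) : ℝ)) * Real.log n1 ≤
        2 / q * Real.log n := by
      apply mul_le_mul e1 hL2 hL1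
      positivity
    have e6 : 2 * (h : ℝ) * ((h - 1) * (2 / ((h * 2 ^ q : ℕ) : ℝ)) * Real.log n1 + m) ≤
        2 * h * (2 / q * Real.log n + m) := by
      apply mul_le_mul_of_nonneg_left _ (by positivity)
      linarith
    refine e6.trans (le_of_eq ?_)
    ring
  set Y : ℝ := 2 + (m * (2 + h + q) + m * (q * 3) + (h : ℝ) / q * Real.log n) +
    (4 * (h * Real.log n / q) + 2 * (h * m)) with hY
  have hbase : (4 * ((3 * ((h * 2 ^ q : ℕ) : ℝ)) ^ m * (16 ^ q) ^ m *
      (n : ℝ) ^ ((h : ℝ) / q))) *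
      Real.exp (2 * h * ((h - 1) * (2 / ((h * 2 ^ q : ℕ) : ℝ)) * Real.log n1 + m)) ≤
      Real.exp Y := by
    rw [K_rpow hn', hY, Real.exp_add, Real.exp_add, Real.exp_add, Real.exp_add]
    gcongr
    exact K_E_le
  have hpow := K_exp_pow (by positivity) hbase h
  calc _ ≤ Real.exp h * (Real.exp 1 * Real.exp (h ^ 2 * m) * Real.exp (h * Y)) := by
        gcongr
        exact K_exp2
    _ = Real.exp (h + (1 + h ^ 2 * m + h * Y)) := by
        rw [Real.exp_add, Real.exp_add, Real.exp_add]
    _ ≤ _ := by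
      apply Real.exp_le_exp.2
      have e : (h : ℝ) * Y = 2 * h + 2 * (h * m) + 3 * (h ^ 2 * m) + 4 * (h * m * q) +
          5 * (h ^ 2 * Real.log n / q) := by
        rw [hY]
        ring
      linarith

/-! ### the theorem -/

theorem core (h : ℕ) (hh : 1 ≤ h) (A : Finset ℕ) (hA : 0 ∉ A) (hne : A.Nonempty) (D : ℕ)
    (hD : D ≠ 0) (m : ℕ) (hm : 1 ≤ m)
    (hω : ∀ a ∈ A, ((a.primeFactors ∪ D.primeFactors).filter fun p =>
      a.factorization p ≠ D.factorization p).card ≤ m) (q : ℕ) (hq : 2 ≤ q) :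
    (A.card : ℝ) ^ h ≤ Real.exp (20 * ((h : ℝ) ^ 2 * m + h * m * q + h ^ 2 * Real.log A.card / q)) *
      max ((hsum h A).card : ℝ) ((hprod h A).card : ℝ) := by
  classical
  have hn : 0 < A.card := hne.card_pos
  set W : ℕ := h * 2 ^ q with hW
  have hW1 : 1 ≤ W := Nat.one_le_iff_ne_zero.2 (by positivity)
  have hW' : (0 : ℝ) < W := by exact_mod_cast hW1
  set J : Finset ℕ := KJ A D W with hJdef
  have hJ : ∀ p ∈ J, p.Prime := KJ_prime
  set dd : ℕ → ℕ := fun p => D.factorization p with hdd
  have hk : ∀ a ∈ A, (spp J dd a).card ≤ m := by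
    intro a ha
    refine (card_le_card ?_).trans (hω a ha)
    intro p hp
    unfold spp at hp
    rw [mem_filter] at hp ⊢
    exact ⟨K_mem_of_ne hp.2, hp.2⟩
  have hE : ((A.image (spp J dd)).card : ℝ) ≤ (3 * (W : ℝ)) ^ m := by
    apply supp_count J m W hW1 (KJ_card hne hω)
    intro S hS
    rw [mem_image] at hS
    obtain ⟨a, ha, rfl⟩ := hS
    exact ⟨filter_subset _ _, hk a ha⟩
  set f : ℝ := 4 * ((3 * (W : ℝ)) ^ m * (16 ^ q) ^ m * (A.card : ℝ) ^ ((h : ℝ) / q)) with hf
  set A2 := A.filter fun a => f ≤ ((A.filter fun a' => free J a' = free J a).card : ℝ) with hA2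
  set A1 := A.filter fun a => ¬ (f ≤ ((A.filter fun a' => free J a' = free J a).card : ℝ)) with hA1
  have hsum12 : A2.card + A1.card = A.card := card_filter_add_card_filter_not _
  have hexp0 : 0 ≤ Real.exp (20 * ((h : ℝ) ^ 2 * m + h * m * q + h ^ 2 * Real.log A.card / q)) :=
    (Real.exp_pos _).le
  by_cases hcase : A.card ≤ 2 * A2.card
  · -- many sums
    have hA2sub : A2 ⊆ A := filter_subset _ _
    have hA2ne : A2.Nonempty := by
      rw [← card_pos]
      omega
    have hfib : ∀ a ∈ A2, (A2.filter fun a' => free J a' = free J a) =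
        A.filter fun a' => free J a' = free J a := by
      intro a ha
      ext a'
      rw [mem_filter, mem_filter, mem_filter]
      constructor
      · rintro ⟨⟨h1, _⟩, h2⟩
        exact ⟨h1, h2⟩
      · rintro ⟨h1, h2⟩
        refine ⟨⟨h1, ?_⟩, h2⟩
        rw [h2]
        exact (mem_filter.1 ha).2
    have h1 := iter_sum J A2 hJ (fun h0 => hA (hA2sub h0)) hA2ne dd m
      (fun a ha => hk a (hA2sub ha)) ((3 * (W : ℝ)) ^ m)
      (le_trans (by exact_mod_cast card_le_card (image_subset_image hA2sub)) hE) h hh q hq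
      (by
        intro a ha
        rw [hfib a ha]
        refine le_trans ?_ (mem_filter.1 ha).2
        rw [hf]
        have hc : (A2.card : ℝ) ≤ A.card := by exact_mod_cast card_le_card hA2sub
        gcongr)
    have hc : (A2.card : ℝ) ≤ A.card := by exact_mod_cast card_le_card hA2sub
    have hs : ((hsum h A2).card : ℝ) ≤ (hsum h A).card := by
      exact_mod_cast card_le_card (K_hsum_mono hA2sub)
    have h2 : (A.card : ℝ) ≤ 2 * A2.card := by exact_mod_cast hcase
    calc (A.card : ℝ) ^ h ≤ (2 * A2.card) ^ h := by gcongr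
      _ = 2 ^ h * (A2.card : ℝ) ^ h := mul_pow _ _ _
      _ ≤ 2 ^ h * ((8 * (3 * (W : ℝ)) ^ m * (2 ^ (6 * q + 4)) ^ m *
            (A2.card : ℝ) ^ (4 * (h : ℝ) / q)) ^ (h - 1) * (hsum h A2).card) := by gcongr
      _ ≤ 2 ^ h * ((8 * (3 * (W : ℝ)) ^ m * (2 ^ (6 * q + 4)) ^ m *
            (A.card : ℝ) ^ (4 * (h : ℝ) / q)) ^ (h - 1) * (hsum h A).card) := by gcongr
      _ = (2 ^ h * (8 * (3 * (W : ℝ)) ^ m * (2 ^ (6 * q + 4)) ^ m *
            (A.card : ℝ) ^ (4 * (h : ℝ) / q)) ^ (h - 1)) * (hsum h A).card := by ring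
      _ ≤ Real.exp (20 * ((h : ℝ) ^ 2 * m + h * m * q + h ^ 2 * Real.log A.card / q)) *
            (hsum h A).card := by
          apply mul_le_mul_of_nonneg_right _ (by positivity)
          exact K_const1 hh hq hm hn
      _ ≤ _ := by
          apply mul_le_mul_of_nonneg_left _ hexp0
          exact le_max_left _ _
  · -- many products
    have hA1sub : A1 ⊆ A := filter_subset _ _
    have hA1c : A.card ≤ 2 * A1.card := by omega
    have hA1ne : A1.Nonempty := by
      rw [← card_pos]
      omega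
    have h2 : (A.card : ℝ) ≤ 2 * A1.card := by exact_mod_cast hA1c
    set e : ℕ → ℕ → ℤ := fun a q => (a.factorization q : ℤ) - D.factorization q with he
    have hne_iff : ∀ a p, e a p ≠ 0 ↔ a.factorization p ≠ D.factorization p := by
      intro a p
      rw [he]
      simp only [ne_eq, sub_eq_zero, Nat.cast_inj]
    have h1 := prod_lemma h hh A1 (KS A D \ J) hA1ne e m hm
      (by
        intro a ha
        refine (card_le_card ?_).trans (hω a (hA1sub ha))
        intro p hp
        rw [mem_filter] at hp ⊢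
        have := (hne_iff a p).1 hp.2
        exact ⟨K_mem_of_ne this, this⟩)
      (2 / W) (by positivity)
      (by
        intro p hp
        rw [mem_sdiff] at hp
        have h3 : W * (A.filter fun a => a.factorization p ≠ D.factorization p).card < A.card := by
          by_contra hc
          exact hp.2 (mem_filter.2 ⟨hp.1, not_lt.1 hc⟩)
        have h4 : (A1.filter fun a => e a p ≠ 0).card ≤
            (A.filter fun a => a.factorization p ≠ D.factorization p).card := by
          apply card_le_card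
          intro a ha
          rw [mem_filter] at ha ⊢
          exact ⟨hA1sub ha.1, (hne_iff a p).1 ha.2⟩
        have h5 : ((A1.filter fun a => e a p ≠ 0).card : ℝ) ≤
            (A.filter fun a => a.factorization p ≠ D.factorization p).card := by exact_mod_cast h4
        have h6 : (W : ℝ) * (A.filter fun a => a.factorization p ≠ D.factorization p).card <
            A.card := by exact_mod_cast h3
        rw [div_mul_eq_mul_div, le_div_iff₀ hW']
        nlinarith)
      f
      (by
        intro a ha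
        have h3 : ((A.filter fun a' => free J a' = free J a).card : ℝ) < f :=
          not_le.1 (mem_filter.1 ha).2
        refine le_trans ?_ h3.le
        have h4 : (A1.filter fun a' => ∀ p ∈ KS A D \ J, e a' p = e a p) ⊆
            A.filter fun a' => free J a' = free J a := by
          intro a' ha'
          rw [mem_filter] at ha' ⊢
          refine ⟨hA1sub ha'.1, ?_⟩
          have ha0 : a ≠ 0 := fun h0 => hA (h0 ▸ hA1sub ha)
          have ha0' : a' ≠ 0 := fun h0 => hA (h0 ▸ hA1sub ha'.1)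
          apply K_free_eq hJ ha0' ha0
          intro p hp
          by_cases hpS : p ∈ KS A D
          · have h5 := ha'.2 p (mem_sdiff.2 ⟨hpS, hp⟩)
            rw [he] at h5
            simp only at h5
            omega
          · rw [K_outside (hA1sub ha'.1) hpS, K_outside (hA1sub ha) hpS]
        exact_mod_cast card_le_card h4)
    have hvec := K_vec (h := h) (A1 := A1) (Pr := KS A D \ J) (D := D)
      (fun h0 => hA (hA1sub h0))
    have hvec' : ((((Fintype.piFinset fun _ : Fin h => A1).image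
        fun (t : Fin h → ℕ) (q : (KS A D \ J : Finset ℕ)) => ∑ i, e (t i) q).card : ℕ) : ℝ) ≤
        (hprod h A).card := by
      exact Nat.cast_le.mpr (hvec.trans (card_le_card (K_hprod_mono hA1sub)))
    have hf0 : 0 ≤ f := by positivity
    calc (A.card : ℝ) ^ h ≤ (2 * A1.card) ^ h := by gcongr
      _ = 2 ^ h * (A1.card : ℝ) ^ h := mul_pow _ _ _
      _ ≤ 2 ^ h * (2 * 2 ^ (h ^ 2 * m) *
            (f * Real.exp (2 * h * ((h - 1) * (2 / (W : ℝ)) * Real.log A1.card + m))) ^ h *
            (hprod h A).card) := by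
          apply mul_le_mul_of_nonneg_left _ (by positivity)
          refine h1.trans ?_
          exact mul_le_mul_of_nonneg_left hvec' (by positivity)
      _ = (2 ^ h * (2 * 2 ^ (h ^ 2 * m) *
            (f * Real.exp (2 * h * ((h - 1) * (2 / (W : ℝ)) * Real.log A1.card + m))) ^ h)) *
            (hprod h A).card := by ring
      _ ≤ Real.exp (20 * ((h : ℝ) ^ 2 * m + h * m * q + h ^ 2 * Real.log A.card / q)) *
            (hprod h A).card := by
          apply mul_le_mul_of_nonneg_right _ (by positivity)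
          exact K_const2 hh hq hm hA1ne.card_pos (card_le_card hA1sub)
      _ ≤ _ := by
          apply mul_le_mul_of_nonneg_left _ hexp0
          exact le_max_right _ _

end Pool.Agent.H254R2.SP
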