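import Pool.Agent.H254R2.SP.Basic
import Pool.Agent.H254R2.SP.K

/-! Task R: the final theorem. -/

open Finset
open Pool.Agent.H116SP (cnt Spec Light part free)

namespace Pool.Agent.H254R2.SP



/-- the absolute values of the elements of `B` of the given sign -/
def absPart (σ : ℤ) (B : Finset ℤ) : Finset ℕ :=
  (B.filter fun b => 0 < σ * b).image Int.natAbs

theorem mem_absPart {σ : ℤ} (hσ : σ = 1 ∨ σ = -1) {B : Finset ℤ} {a : ℕ}
    (ha : a ∈ absPart σ B) : a ≠ 0 ∧ σ * (a : ℤ) ∈ B := by
  unfold absPart at ha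
  rw [mem_image] at ha
  obtain ⟨b, hb, rfl⟩ := ha
  rw [mem_filter] at hb
  obtain ⟨hb, h0⟩ := hb
  rcases hσ with rfl | rfl
  · have h1 : ((b.natAbs : ℕ) : ℤ) = b := by omega
    refine ⟨by omega, by rw [h1]; simpa using hb⟩
  · have h1 : ((b.natAbs : ℕ) : ℤ) = -b := by omega
    refine ⟨by omega, by rw [h1]; simpa using hb⟩

theorem card_absPart {σ : ℤ} (hσ : σ = 1 ∨ σ = -1) (B : Finset ℤ) :
    (absPart σ B).card = (B.filter fun b => 0 < σ * b).card := by
  unfold absPart
  refine card_image_of_injOn fun a ha b hb hab => ?_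
  simp only [coe_filter, Set.mem_ofPred_eq] at ha hb
  rcases hσ with rfl | rfl <;> omega

theorem card_parts (B : Finset ℤ) :
    B.card ≤ (absPart 1 B).card + (absPart (-1) B).card + 1 := by
  rw [card_absPart (Or.inl rfl), card_absPart (Or.inr rfl)]
  have h1 : B ⊆ (B.filter fun b => 0 < 1 * b) ∪ (B.filter fun b => 0 < -1 * b) ∪ {0} := by
    intro b hb
    simp only [mem_union, mem_filter, mem_singleton]
    rcases lt_trichotomy b 0 with h | h | h
    · left; right; exact ⟨hb, by omega⟩
    · right; exact h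
    · left; left; exact ⟨hb, by omega⟩
  refine (card_le_card h1).trans ?_
  refine (card_union_le _ _).trans ?_
  rw [card_singleton]
  exact Nat.add_le_add_right (card_union_le _ _) 1

theorem card_sums_le {σ : ℤ} (hσ : σ = 1 ∨ σ = -1) {A : Finset ℤ} {A₀ : Finset ℕ} (h : ℕ)
    (hA : ∀ a ∈ A₀, σ * (a : ℤ) ∈ A) :
    (hsum h A₀).card ≤ ((Fintype.piFinset fun _ : Fin h => A).image fun t => ∑ i, t i).card := by
  refine card_le_card_of_injOn (fun s : ℕ => σ * (s : ℤ)) ?_ ?_
  · intro s hs
    rw [mem_coe] at hs ⊢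
    unfold hsum at hs
    rw [mem_image] at hs ⊢
    obtain ⟨t, ht, rfl⟩ := hs
    rw [Fintype.mem_piFinset] at ht
    refine ⟨fun i => σ * (t i : ℤ), ?_, ?_⟩
    · rw [Fintype.mem_piFinset]
      exact fun i => hA _ (ht i)
    · push_cast
      rw [mul_sum]
  · intro a _ b _ hab
    have h1 : σ * (a : ℤ) = σ * (b : ℤ) := hab
    rcases hσ with rfl | rfl <;> omega

theorem card_prods_le {σ : ℤ} (hσ : σ = 1 ∨ σ = -1) {A : Finset ℤ} {A₀ : Finset ℕ} (h : ℕ)
    (hA : ∀ a ∈ A₀, σ * (a : ℤ) ∈ A) :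
    (hprod h A₀).card ≤ ((Fintype.piFinset fun _ : Fin h => A).image fun t => ∏ i, t i).card := by
  refine card_le_card_of_injOn (fun s : ℕ => σ ^ h * (s : ℤ)) ?_ ?_
  · intro s hs
    rw [mem_coe] at hs ⊢
    unfold hprod at hs
    rw [mem_image] at hs ⊢
    obtain ⟨t, ht, rfl⟩ := hs
    rw [Fintype.mem_piFinset] at ht
    refine ⟨fun i => σ * (t i : ℤ), ?_, ?_⟩
    · rw [Fintype.mem_piFinset]
      exact fun i => hA _ (ht i)
    · push_cast
      rw [prod_mul_distrib, prod_const, card_univ, Fintype.card_fin]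
  · intro a _ b _ hab
    have h1 : σ ^ h * (a : ℤ) = σ ^ h * (b : ℤ) := hab
    have h2 : σ ^ h ≠ 0 := by
      apply pow_ne_zero
      rcases hσ with rfl | rfl <;> norm_num
    exact_mod_cast mul_left_cancel₀ h2 h1

/-- R. The final theorem. -/
theorem final (h : ℕ) (hh : 1 ≤ h) (A B : Finset ℤ) (hBA : B ⊆ A) (hB : 2 ≤ B.card) (D : ℕ)
    (hD : D ≠ 0) (m : ℕ) (hm : 1 ≤ m)
    (hω : ∀ a ∈ B, a ≠ 0 → ((a.natAbs.primeFactors ∪ D.primeFactors).filter fun p =>
      a.natAbs.factorization p ≠ D.factorization p).card ≤ m) :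
    (B.card : ℝ) ^ h * Real.exp (-(110 * Real.sqrt ((h : ℝ) ^ 3 * m * Real.log B.card))) ≤
      max ((((Fintype.piFinset fun _ : Fin h => A).image fun t => ∑ i, t i).card : ℕ) : ℝ)
        ((((Fintype.piFinset fun _ : Fin h => A).image fun t => ∏ i, t i).card : ℕ) : ℝ) := by
  set L : ℝ := Real.log B.card with hL
  have hB0 : (0 : ℝ) < B.card := by exact_mod_cast (by omega : 0 < B.card)
  have hL0 : 0 < L := Real.log_pos (by exact_mod_cast (by omega : 1 < B.card))
  have hh1 : (1 : ℝ) ≤ h := by exact_mod_cast hh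
  have hm1 : (1 : ℝ) ≤ m := by exact_mod_cast hm
  have hAne : A.Nonempty := by
    have : B.Nonempty := card_pos.mp (by omega)
    exact this.mono hBA
  have hBpow : (B.card : ℝ) ^ h = Real.exp (h * L) := by
    rw [Real.exp_nat_mul, hL, Real.exp_log hB0]
  -- `s = sqrt (h L / m)`, `X = h m s`
  set s : ℝ := Real.sqrt (h * L / m) with hs
  have hs0 : 0 < s := Real.sqrt_pos.mpr (by positivity)
  have hs2 : (m : ℝ) * s ^ 2 = h * L := by
    rw [hs, Real.sq_sqrt (by positivity)]
    field_simp
  have hX : Real.sqrt ((h : ℝ) ^ 3 * m * L) = h * m * s := by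
    have h1 : (h : ℝ) ^ 3 * m * L = (h * m * s) ^ 2 := by
      have : (h * m * s : ℝ) ^ 2 = h ^ 2 * m * (m * s ^ 2) := by ring
      rw [this, hs2]
      ring
    rw [h1, Real.sqrt_sq (by positivity)]
  rw [hX]
  rcases le_total L ((h : ℝ) * m) with hcase | hcase
  · -- trivial case
    have h1 : h * L ≤ 110 * (h * m * s) := by
      -- s^2 = hL/m, so (m s)^2 = m h L >= L^2
      have h2 : L ≤ m * s := by
        have h3 : L ^ 2 ≤ (m * s) ^ 2 := by
          have : (m * s : ℝ) ^ 2 = m * (m * s ^ 2) := by ring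
          rw [this, hs2]
          nlinarith
        exact (pow_le_pow_iff_left₀ (by positivity) (by positivity) (two_ne_zero)).mp h3
      have h4 : (h : ℝ) * L ≤ h * (m * s) := mul_le_mul_of_nonneg_left h2 (by positivity)
      have h5 : 0 ≤ (h : ℝ) * m * s := by positivity
      nlinarith
    have h6 : (B.card : ℝ) ^ h * Real.exp (-(110 * (h * m * s))) ≤ 1 := by
      rw [hBpow, ← Real.exp_add, Real.exp_le_one_iff]
      linarith
    refine h6.trans (le_max_of_le_left ?_)
    have h7 : ((Fintype.piFinset fun _ : Fin h => A).image fun t => ∑ i, t i).Nonempty :=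
      (Fintype.piFinset_nonempty.mpr fun _ => hAne).image _
    exact_mod_cast card_pos.mpr h7
  · -- the main case
    obtain ⟨σ, hσ, h3⟩ : ∃ σ : ℤ, (σ = 1 ∨ σ = -1) ∧ B.card ≤ 3 * (absPart σ B).card := by
      have h1 := card_parts B
      by_contra hcon
      push Not at hcon
      have h2 := hcon 1 (Or.inl rfl)
      have h3 := hcon (-1) (Or.inr rfl)
      omega
    set A₀ : Finset ℕ := absPart σ B with hA₀
    have hA0ne : A₀.Nonempty := card_pos.mp (by omega)
    have hA00 : (0 : ℝ) < A₀.card := by exact_mod_cast hA0ne.card_pos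
    have hA0le : A₀.card ≤ B.card := by
      rw [hA₀, card_absPart hσ]
      exact card_filter_le _ _
    have hAmem : ∀ a ∈ A₀, σ * (a : ℤ) ∈ A := fun a ha => hBA (mem_absPart hσ ha).2
    have hlog : Real.log A₀.card ≤ L := Real.log_le_log hA00 (by exact_mod_cast hA0le)
    have hsh : (h : ℝ) ≤ s := by
      refine (pow_le_pow_iff_left₀ (by positivity) (by positivity) (two_ne_zero)).mp ?_
      have h4 : (m : ℝ) * (h : ℝ) ^ 2 ≤ m * s ^ 2 := by
        rw [hs2]; nlinarith
      exact le_of_mul_le_mul_left h4 (by positivity)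
    -- the parameter
    set q : ℕ := ⌈s⌉₊ + 1 with hq
    have hq2 : 2 ≤ q := by
      have : 0 < ⌈s⌉₊ := Nat.ceil_pos.mpr hs0
      omega
    have hqs : s ≤ q := by
      have := Nat.le_ceil s
      rw [hq]; push_cast; linarith
    have hqs3 : (q : ℝ) ≤ 3 * s := by
      have := Nat.ceil_lt_add_one hs0.le
      rw [hq]; push_cast; linarith
    have hq0 : (0 : ℝ) < q := by linarith
    have hcore := core h hh A₀ (fun h0 => (mem_absPart hσ h0).1 rfl) hA0ne D hD m hm
      (fun a ha => by
        have h1 := mem_absPart hσ ha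
        have h2 := hω _ h1.2 (by
          have h4 : (a : ℤ) ≠ 0 := by exact_mod_cast h1.1
          rcases hσ with rfl | rfl <;> simpa using h1.1)
        have h5 : (σ * (a : ℤ)).natAbs = a := by
          rcases hσ with rfl | rfl <;> simp
        rw [h5] at h2
        exact h2) q hq2
    -- the exponent
    have e1 : (h : ℝ) ^ 2 * m ≤ h * m * s := by
      have : (h : ℝ) * m * h ≤ h * m * s := mul_le_mul_of_nonneg_left hsh (by positivity)
      nlinarith
    have e2 : (h : ℝ) * m * q ≤ 3 * (h * m * s) := by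
      have : (h : ℝ) * m * q ≤ h * m * (3 * s) := mul_le_mul_of_nonneg_left hqs3 (by positivity)
      linarith
    have e3 : (h : ℝ) ^ 2 * Real.log A₀.card / q ≤ h * m * s := by
      rw [div_le_iff₀ hq0]
      have h4 : (h : ℝ) ^ 2 * Real.log A₀.card ≤ h ^ 2 * L :=
        mul_le_mul_of_nonneg_left hlog (by positivity)
      have h5 : (h : ℝ) ^ 2 * L = h * m * s * s := by
        calc (h : ℝ) ^ 2 * L = h * (h * L) := by ring
          _ = h * (m * s ^ 2) := by rw [hs2]
          _ = h * m * s * s := by ring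
      have h6 : (h : ℝ) * m * s * s ≤ h * m * s * q :=
        mul_le_mul_of_nonneg_left hqs (by positivity)
      linarith
    have e4 : 2 * (h : ℝ) ≤ 2 * (h * m * s) := by
      have h4 : (h : ℝ) * 1 ≤ h * (m * s) := by
        refine mul_le_mul_of_nonneg_left ?_ (by positivity)
        nlinarith
      nlinarith
    have h3pow : (3 : ℝ) ^ h ≤ Real.exp (2 * h) := by
      have h4 : (3 : ℝ) ≤ Real.exp 2 := by
        have := Real.add_one_le_exp (2 : ℝ)
        linarith
      calc (3 : ℝ) ^ h ≤ Real.exp 2 ^ h := pow_le_pow_left₀ (by norm_num) h4 h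
        _ = Real.exp (2 * h) := by rw [← Real.exp_nat_mul]; congr 1; ring
    have hBle : (B.card : ℝ) ^ h ≤ Real.exp (2 * h) * (A₀.card : ℝ) ^ h := by
      have h4 : (B.card : ℝ) ≤ 3 * A₀.card := by exact_mod_cast h3
      calc (B.card : ℝ) ^ h ≤ (3 * A₀.card) ^ h := pow_le_pow_left₀ hB0.le h4 h
        _ = 3 ^ h * (A₀.card : ℝ) ^ h := mul_pow _ _ _
        _ ≤ _ := mul_le_mul_of_nonneg_right h3pow (by positivity)
    set M := max ((((Fintype.piFinset fun _ : Fin h => A).image fun t => ∑ i, t i).card : ℕ) : ℝ)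
        ((((Fintype.piFinset fun _ : Fin h => A).image fun t => ∏ i, t i).card : ℕ) : ℝ) with hM
    have hM1 : max ((hsum h A₀).card : ℝ) ((hprod h A₀).card : ℝ) ≤ M := by
      refine max_le_max ?_ ?_
      · exact_mod_cast card_sums_le hσ h hAmem
      · exact_mod_cast card_prods_le hσ h hAmem
    have hM0 : 0 ≤ M := le_trans (by positivity) (le_max_left _ _)
    have h8 : (A₀.card : ℝ) ^ h ≤ Real.exp (100 * (h * m * s)) * M := by
      refine hcore.trans ?_
      refine mul_le_mul ?_ hM1 (by positivity) (Real.exp_pos _).le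
      apply Real.exp_le_exp.mpr
      linarith
    have h9 : (B.card : ℝ) ^ h ≤ Real.exp (110 * (h * m * s)) * M := by
      refine hBle.trans ?_
      refine (mul_le_mul_of_nonneg_left h8 (Real.exp_pos _).le).trans ?_
      rw [← mul_assoc, ← Real.exp_add]
      refine mul_le_mul_of_nonneg_right ?_ hM0
      apply Real.exp_le_exp.mpr
      have : 0 ≤ (h : ℝ) * m * s := by positivity
      linarith
    calc (B.card : ℝ) ^ h * Real.exp (-(110 * (h * m * s)))
        ≤ Real.exp (110 * (h * m * s)) * M * Real.exp (-(110 * (h * m * s))) :=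
          mul_le_mul_of_nonneg_right h9 (Real.exp_pos _).le
      _ = M := by
          rw [mul_right_comm, ← Real.exp_add]
          simp

end Pool.Agent.H254R2.SP
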